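import Mathlib

set_option autoImplicit false

namespace Pool.Agent.H.MP_c33acd_lc

section act
variable {H V : Type} [Group H] [AddCommGroup V]

noncomputable def ac (h : H) : (H →₀ V) →+ (H →₀ V) := Finsupp.mapDomain.addMonoidHom (h * ·)

lemma ac_single (h g : H) (v : V) : ac h (Finsupp.single g v) = Finsupp.single (h * g) v := by
  simp [ac]

lemma ac_apply (h : H) (y : H →₀ V) (g : H) : ac h y g = y (h⁻¹ * g) := by
  have := Finsupp.mapDomain_apply (mul_right_injective h) y (h⁻¹ * g)
  simpa [ac] using this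

@[simp] lemma ac_one (y : H →₀ V) : ac 1 y = y := by
  ext g; simp [ac_apply]

lemma ac_mul (h k : H) (y : H →₀ V) : ac (h * k) y = ac h (ac k y) := by
  ext g; simp [ac_apply, mul_assoc]

lemma ac_map {K : Type} [Group K] (f : H →* K) (h : H) (y : H →₀ V) :
    Finsupp.mapDomain f (ac h y) = ac (f h) (Finsupp.mapDomain f y) := by
  simp only [ac, Finsupp.mapDomain.addMonoidHom_apply, ← Finsupp.mapDomain_comp]
  congr 1
  ext g; simp

noncomputable def aff (h : H) (m : H →₀ V) : Equiv.Perm (H →₀ V) where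
  toFun y := m + ac h y
  invFun y := ac h⁻¹ (y - m)
  left_inv y := by simp [← ac_mul]
  right_inv y := by simp [← ac_mul]

/-- A fixed vector with finite support forces finite order. -/
lemma pow_of_stable (h : H) (P : Finset H) (p : H) (hp : p ∈ P) (hs : ∀ q ∈ P, h * q ∈ P) :
    ∃ k : ℕ, k ≠ 0 ∧ h ^ k = 1 := by
  have h1 : ∀ k : ℕ, h ^ k * p ∈ P := by
    intro k
    induction k with
    | zero => simpa
    | succ k ih => rw [pow_succ', mul_assoc]; exact hs _ ih
  obtain ⟨i, j, hij, e⟩ := Finite.exists_ne_map_eq_of_infinite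
    (fun k : ℕ => (⟨h ^ k * p, h1 k⟩ : P))
  have e' : h ^ i = h ^ j := mul_right_cancel (congrArg Subtype.val e)
  rcases lt_or_gt_of_ne hij with hl | hl
  · refine ⟨j - i, by omega, ?_⟩
    have : h ^ j = h ^ i * h ^ (j - i) := by rw [← pow_add]; congr 1; omega
    rw [this] at e'; simpa using e'.symm
  · refine ⟨i - j, by omega, ?_⟩
    have : h ^ i = h ^ j * h ^ (i - j) := by rw [← pow_add]; congr 1; omega
    rw [this] at e'; simpa using e'

def TF (H : Type) [Group H] : Prop := ∀ (h : H) (k : ℕ), k ≠ 0 → h ^ k = 1 → h = 1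

lemma TF.zpow (tf : TF H) {h : H} (hh : h ≠ 1) {e : ℤ} (he : h ^ e = 1) : e = 0 := by
  by_contra h0
  apply hh
  apply tf h e.natAbs (by omega)
  rcases Int.natAbs_eq e with h1 | h1
  · rw [h1] at he; simpa using he
  · rw [h1] at he; simpa using he

lemma fpf (tf : TF H) {h : H} (hh : h ≠ 1) {y : H →₀ V} (hy : ac h y = y) : y = 0 := by
  by_contra h0
  obtain ⟨p, hp⟩ := Finsupp.support_nonempty_iff.mpr h0
  obtain ⟨k, hk, e⟩ := pow_of_stable h y.support p hp (fun q hq => by
    rw [Finsupp.mem_support_iff] at hq ⊢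
    rw [← hy, ac_apply]; simpa using hq)
  exact hh (tf h k hk e)

end act

section fox
variable {ι H : Type} [DecidableEq ι] [Group H]

noncomputable def foxP (κ : FreeGroup ι →* H) : FreeGroup ι →* Equiv.Perm (H →₀ (ι → ℤ)) :=
  FreeGroup.lift fun i => aff (κ (FreeGroup.of i)) (Finsupp.single 1 (Pi.single i 1))

noncomputable def fox (κ : FreeGroup ι →* H) (w : FreeGroup ι) : H →₀ (ι → ℤ) := foxP κ w 0

lemma foxP_apply (κ : FreeGroup ι →* H) (w : FreeGroup ι) :
    ∀ y, foxP κ w y = fox κ w + ac (κ w) y := by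
  induction w using FreeGroup.induction_on with
  | C1 => intro y; simp [fox]
  | of i => intro y; simp [fox, foxP, aff]
  | inv_of i _ =>
    intro y
    simp only [fox, foxP, map_inv, FreeGroup.lift_apply_of]
    change ac _ (y - _) = ac _ (0 - _) + _
    rw [← map_add]; congr 1; abel
  | mul v w hv hw =>
    intro y
    simp only [fox, map_mul, Equiv.Perm.mul_apply]
    rw [hv, hw, hv (foxP κ w 0), ac_mul, map_add, add_assoc]; rfl

lemma fox_mul (κ : FreeGroup ι →* H) (v w : FreeGroup ι) :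
    fox κ (v * w) = fox κ v + ac (κ v) (fox κ w) := by
  conv_lhs => rw [fox, map_mul, Equiv.Perm.mul_apply, foxP_apply]
  rfl

lemma fox_one (κ : FreeGroup ι →* H) : fox κ 1 = 0 := by simp [fox]

lemma fox_of (κ : FreeGroup ι →* H) (i : ι) :
    fox κ (FreeGroup.of i) = Finsupp.single 1 (Pi.single i 1) := by simp [fox, foxP, aff]

lemma fox_inv (κ : FreeGroup ι →* H) (w : FreeGroup ι) :
    fox κ w⁻¹ = -ac (κ w)⁻¹ (fox κ w) := by
  have := fox_mul κ w⁻¹ w
  rw [inv_mul_cancel, fox_one, map_inv] at this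
  exact eq_neg_of_add_eq_zero_left this.symm

lemma fox_map {K : Type} [Group K] (f : H →* K) (κ : FreeGroup ι →* H) (w : FreeGroup ι) :
    fox (f.comp κ) w = Finsupp.mapDomain f (fox κ w) := by
  induction w using FreeGroup.induction_on with
  | C1 => simp [fox_one]
  | of i => simp [fox_of]
  | inv_of i ih =>
    rw [fox_inv, fox_inv, ih]
    have := ac_map f (κ (FreeGroup.of i))⁻¹ (fox κ (FreeGroup.of i))
    rw [map_inv] at this
    rw [MonoidHom.comp_apply, ← this]
    exact (map_neg (Finsupp.mapDomain.addMonoidHom (M := ι → ℤ) f) _).symm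
  | mul v w hv hw => rw [fox_mul, fox_mul, hv, hw, Finsupp.mapDomain_add, ac_map]; rfl

theorem magnus [Fintype ι] {Q : Type} [Group Q] (ρ : FreeGroup ι →* Q) (θ : Q →* H)
    (hs : Function.Surjective θ) (hc : ∀ x y, θ x = 1 → θ y = 1 → x * y = y * x) (k : ℕ)
    (hk : ∀ x, θ x = 1 → x ^ k = 1) (w : FreeGroup ι) (hw : θ (ρ w) = 1)
    (hD : ∀ h i, (k : ℤ) ∣ fox (θ.comp ρ) w h i) : ρ w = 1 := by
  choose σ hσ using hs
  let _ : CommGroup θ.ker := { (inferInstance : Group θ.ker) with
    mul_comm := fun x y => Subtype.ext (hc _ _ x.2 y.2) }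
  let e : H → FreeGroup ι → θ.ker := fun h v =>
    ⟨σ h * ρ v * (σ (h * θ (ρ v)))⁻¹, by simp [MonoidHom.mem_ker, hσ]⟩
  let ψ : (H →₀ (ι → ℤ)) →+ Additive θ.ker := Finsupp.liftAddHom fun h =>
    AddMonoidHom.mk' (fun v => ∑ i, v i • Additive.ofMul (e h (FreeGroup.of i)))
      (fun v v' => by simp [add_smul, Finset.sum_add_distrib])
  have emul : ∀ h v v', e h (v * v') = e h v * e (h * θ (ρ v)) v' := by
    intro h v v'
    apply Subtype.ext
    simp [e, mul_assoc]
  have key : ∀ (v : FreeGroup ι) (h : H), ψ (ac h (fox (θ.comp ρ) v)) = Additive.ofMul (e h v) := by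
    intro v
    induction v using FreeGroup.induction_on with
    | C1 =>
      intro h
      have : e h 1 = 1 := Subtype.ext (by simp [e])
      simp [fox_one, this]
    | of i =>
      intro h
      simp [fox_of, ac_single, ψ, Pi.single_apply]
    | inv_of i ih =>
      intro h
      have h1 := emul h (FreeGroup.of i)⁻¹ (FreeGroup.of i)
      have h2 : e h 1 = 1 := Subtype.ext (by simp [e])
      rw [inv_mul_cancel, h2] at h1
      rw [fox_inv, map_neg, map_neg, ← ac_mul, ih, eq_inv_of_mul_eq_one_left h1.symm]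
      simp
    | mul v v' hv hv' =>
      intro h
      rw [fox_mul, map_add, map_add, ← ac_mul, hv, hv', emul]; rfl
  have h1 := key w 1
  have h2 : ψ (fox (θ.comp ρ) w) = 0 := by
    simp only [ψ, Finsupp.liftAddHom_apply, Finsupp.sum]
    refine Finset.sum_eq_zero fun h _ => ?_
    simp only [AddMonoidHom.mk'_apply]
    refine Finset.sum_eq_zero fun i _ => ?_
    obtain ⟨c, hc'⟩ := hD h i
    have : (e h (FreeGroup.of i)) ^ k = 1 := Subtype.ext (hk _ (e h (FreeGroup.of i)).2)
    rw [hc', mul_comm, mul_smul, natCast_zsmul, ← ofMul_pow, this]; simp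
  rw [ac_one, h2] at h1
  have h3 : (e 1 w : Q) = 1 := congrArg Subtype.val (show e 1 w = 1 from h1.symm)
  simp only [e, hw, mul_one] at h3
  simpa using h3

end fox

structure Mag (G H ι : Type) [Group G] [Group H] where
  π : G →* H
  surj : Function.Surjective π
  D : G → H →₀ (ι → ℤ)
  mul : ∀ g g', D (g * g') = D g + ac (π g) (D g')
  mag : ∀ (N : Subgroup G) [N.Normal] (k : ℕ), (∀ α, π α = 1 → α ^ k ∈ N) → ∀ y,
    π y ∈ N.map π →
    (∀ c i, (k : ℤ) ∣ Finsupp.mapDomain (QuotientGroup.mk : H → H ⧸ N.map π) (D y) c i) → y ∈ N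

section free
variable {ι : Type} [DecidableEq ι] [Fintype ι]

abbrev FS (ι : Type) (d : ℕ) : Type := FreeGroup ι ⧸ derivedSeries (FreeGroup ι) d

omit [Fintype ι] in
lemma fox_comm (R : Subgroup (FreeGroup ι)) [R.Normal] (w : FreeGroup ι) (hw : w ∈ ⁅R, R⁆) :
    fox (QuotientGroup.mk' R) w = 0 := by
  let f : R →* Multiplicative ((FreeGroup ι ⧸ R) →₀ (ι → ℤ)) := MonoidHom.mk'
    (fun r => Multiplicative.ofAdd (fox (QuotientGroup.mk' R) r)) (fun r r' => by
      have : QuotientGroup.mk' R (r : FreeGroup ι) = 1 := (QuotientGroup.eq_one_iff _).mpr r.2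
      rw [Subgroup.coe_mul, fox_mul, this, ac_one]; rfl)
  have h1 : ⁅R, R⁆ = (commutator R).map R.subtype := by
    rw [commutator_def, Subgroup.map_commutator, ← MonoidHom.range_eq_map, Subgroup.range_subtype]
  rw [h1] at hw
  obtain ⟨r, hr, rfl⟩ := hw
  exact Abelianization.commutator_subset_ker f hr

def piFS (ι : Type) (d : ℕ) : FS ι (d + 1) →* FS ι d :=
  QuotientGroup.map _ _ (MonoidHom.id _) (by
    rw [Subgroup.comap_id]; exact Subgroup.commutator_le_left _ _)

lemma piFS_mk (ι : Type) (d : ℕ) (w : FreeGroup ι) :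
    piFS ι d (QuotientGroup.mk w) = QuotientGroup.mk w := rfl

lemma piFS_surj (ι : Type) (d : ℕ) : Function.Surjective (piFS ι d) := by
  intro h
  obtain ⟨w, rfl⟩ := QuotientGroup.mk_surjective h
  exact ⟨QuotientGroup.mk w, rfl⟩

lemma piFS_comm (ι : Type) (d : ℕ) (x y : FS ι (d + 1)) (hx : piFS ι d x = 1)
    (hy : piFS ι d y = 1) : x * y = y * x := by
  obtain ⟨v, rfl⟩ := QuotientGroup.mk_surjective x
  obtain ⟨w, rfl⟩ := QuotientGroup.mk_surjective y
  rw [piFS_mk, QuotientGroup.eq_one_iff] at hx hy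
  rw [← commutatorElement_eq_one_iff_mul_comm]
  have := (QuotientGroup.eq_one_iff (N := derivedSeries (FreeGroup ι) (d + 1)) _).mpr
    (Subgroup.commutator_mem_commutator hx hy)
  exact this

noncomputable def magFS (ι : Type) [DecidableEq ι] [Fintype ι] (d : ℕ) :
    Mag (FS ι (d + 1)) (FS ι d) ι where
  π := piFS ι d
  surj := piFS_surj ι d
  D := fun g => Quotient.liftOn' g (fox (QuotientGroup.mk' _)) (fun v w h => by
    rw [QuotientGroup.leftRel_apply] at h
    have := fox_mul (QuotientGroup.mk' (derivedSeries (FreeGroup ι) d)) v (v⁻¹ * w)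
    rw [fox_comm _ _ h] at this
    simpa using this.symm)
  mul := by
    intro g g'
    obtain ⟨w, rfl⟩ := QuotientGroup.mk_surjective g
    obtain ⟨w', rfl⟩ := QuotientGroup.mk_surjective g'
    exact fox_mul _ w w'
  mag := by
    intro N _ k hk y hy hD
    obtain ⟨w, rfl⟩ := QuotientGroup.mk_surjective y
    have hn : (N.map (piFS ι d)).Normal := Subgroup.Normal.map inferInstance _ (piFS_surj ι d)
    let θ : FS ι (d + 1) ⧸ N →* FS ι d ⧸ N.map (piFS ι d) :=
      QuotientGroup.map _ _ (piFS ι d) (Subgroup.le_comap_map _ _)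
    have hker : ∀ x, θ x = 1 → ∃ α, piFS ι d α = 1 ∧ x = QuotientGroup.mk α := by
      intro x hx
      obtain ⟨g, rfl⟩ := QuotientGroup.mk_surjective x
      obtain ⟨m, hm, e⟩ := (QuotientGroup.eq_one_iff (N := N.map (piFS ι d)) (piFS ι d g)).mp hx
      refine ⟨g * m⁻¹, by simp [e], ?_⟩
      rw [QuotientGroup.eq]; simpa using hm
    have := magnus ((QuotientGroup.mk' N).comp (QuotientGroup.mk' _)) θ (by
      intro h
      obtain ⟨h, rfl⟩ := QuotientGroup.mk_surjective h
      obtain ⟨g, rfl⟩ := piFS_surj ι d h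
      exact ⟨QuotientGroup.mk g, rfl⟩) (by
      intro x y hx hy
      obtain ⟨α, h1, rfl⟩ := hker x hx
      obtain ⟨β, h2, rfl⟩ := hker y hy
      rw [← QuotientGroup.mk_mul, piFS_comm ι d α β h1 h2, QuotientGroup.mk_mul]) k (by
      intro x hx
      obtain ⟨α, h1, rfl⟩ := hker x hx
      rw [← QuotientGroup.mk_pow, QuotientGroup.eq_one_iff]; exact hk α h1) w
      ((QuotientGroup.eq_one_iff _).mpr hy) (by
      have e : θ.comp ((QuotientGroup.mk' N).comp (QuotientGroup.mk' _)) =
          (QuotientGroup.mk' (N.map (piFS ι d))).comp (QuotientGroup.mk' _) := by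
        ext i; rfl
      rw [e, fox_map]; exact hD)
    exact (QuotientGroup.eq_one_iff _).mp this

end free

namespace Mag
variable {G H ι : Type} [Group G] [Group H] (S : Mag G H ι)

lemma D_one : S.D 1 = 0 := by
  have := S.mul 1 1
  simpa using this

lemma D_inv (g : G) : S.D g⁻¹ = -ac (S.π g)⁻¹ (S.D g) := by
  have := S.mul g⁻¹ g
  rw [inv_mul_cancel, D_one, map_inv] at this
  exact eq_neg_of_add_eq_zero_left this.symm

lemma inj {g : G} (h1 : S.π g = 1) (h2 : S.D g = 0) : g = 1 := by
  have := S.mag ⊥ 0 (by simp) g (by simp [h1]) (by simp [h2])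
  simpa using this

lemma ext' {g g' : G} (h1 : S.π g = S.π g') (h2 : S.D g = S.D g') : g = g' := by
  have : g'⁻¹ * g = 1 := S.inj (by simp [h1]) (by rw [S.mul, D_inv, map_inv, h2]; simp)
  exact (inv_mul_eq_one.mp this).symm

lemma D_mulA {α : G} (h : S.π α = 1) (g : G) : S.D (α * g) = S.D α + S.D g := by
  rw [S.mul, h, ac_one]

lemma D_invA {α : G} (h : S.π α = 1) : S.D α⁻¹ = -S.D α := by
  rw [D_inv, h, inv_one, ac_one]

lemma D_conj (g w : G) : S.D (g * w * g⁻¹) =
    S.D g + ac (S.π g) (S.D w) - ac (S.π (g * w * g⁻¹)) (S.D g) := by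
  rw [S.mul, S.mul, D_inv, map_neg, ← ac_mul, sub_eq_add_neg]; simp

lemma D_conjA {α : G} (h : S.π α = 1) (g : G) : S.D (g * α * g⁻¹) = ac (S.π g) (S.D α) := by
  rw [D_conj]; simp [h]

lemma D_zpowA {α : G} (h : S.π α = 1) (e : ℤ) : S.D (α ^ e) = e • S.D α := by
  induction e using Int.induction_on with
  | zero => simp [D_one]
  | succ n ih => rw [zpow_add_one, D_mulA _ (by simp [h]), ih, add_one_zsmul]
  | pred n ih =>
    rw [zpow_sub_one, D_mulA _ (by simp [h]), ih, D_invA _ h, sub_smul, one_smul, sub_eq_add_neg]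

lemma commA {α β : G} (h : S.π α = 1) (h' : S.π β = 1) : α * β = β * α :=
  S.ext' (by simp [h, h']) (by rw [S.D_mulA h, S.D_mulA h', add_comm])

include S in
lemma tf (hH : TF H) : TF G := by
  intro g k hk e
  have h1 : S.π g = 1 := hH _ k hk (by rw [← map_pow, e, map_one])
  have h2 := S.D_zpowA h1 k
  rw [zpow_natCast, e, D_one] at h2
  refine S.inj h1 ?_
  ext h i
  have := congrArg (fun y => y h i) h2
  simpa [hk] using this

end Mag

lemma exists_avoid {H : Type} [Group H] [Group.ResiduallyFinite H] (X : Finset H) :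
    ∃ N : Subgroup H, N.Normal ∧ N.FiniteIndex ∧ ∀ x ∈ X, x ∈ N → x = 1 := by
  classical
  induction X using Finset.induction_on with
  | empty => exact ⟨⊤, inferInstance, inferInstance, by simp⟩
  | insert x X _ ih =>
    obtain ⟨N, h1, h2, h3⟩ := ih
    by_cases hx : x = 1
    · exact ⟨N, h1, h2, by simpa [hx] using h3⟩
    · obtain ⟨M, hM⟩ := Group.exists_finiteIndexNormalSubgroup_notMem x hx
      refine ⟨N ⊓ M.toSubgroup, inferInstance, inferInstance, fun y hy hy' => ?_⟩
      rcases Finset.mem_insert.mp hy with rfl | hy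
      · exact absurd hy'.2 hM
      · exact h3 y hy hy'.1

lemma dvd_mapDomain {α β ι : Type} (f : α → β) (y : α →₀ (ι → ℤ)) (k : ℤ)
    (h : ∀ a i, k ∣ y a i) (b : β) (i : ι) : k ∣ Finsupp.mapDomain f y b i := by
  classical
  rw [Finsupp.mapDomain, Finsupp.sum_apply, Finsupp.sum, Finset.sum_apply]
  refine Finset.dvd_sum fun a _ => ?_
  rw [Finsupp.single_apply]
  split_ifs
  · exact h a i
  · simp

section E
variable {H ι R : Type} [Group H] [CommRing R]

noncomputable def E (χ : H → R) (h' : H) (i : ι) : (H →₀ (ι → ℤ)) →+ R :=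
  Finsupp.liftAddHom fun h => AddMonoidHom.mk' (fun v => (v i : R) * χ (h * h'⁻¹))
    (fun v v' => by simp [add_mul])

lemma E_single (χ : H → R) (h' : H) (i : ι) (h : H) (v : ι → ℤ) :
    E χ h' i (Finsupp.single h v) = (v i : R) * χ (h * h'⁻¹) := by simp [E]

lemma E_sum (χ : H → R) (h' : H) (i : ι) (y : H →₀ (ι → ℤ)) :
    E χ h' i y = ∑ h ∈ y.support, (y h i : R) * χ (h * h'⁻¹) := by
  simp [E, Finsupp.sum]

lemma E_ac (χ : H → R) (h' : H) (i : ι) (g : H) (y : H →₀ (ι → ℤ)) :
    E χ h' i (ac g y) = E (fun x => χ (g * x)) h' i y := by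
  induction y using Finsupp.induction_linear with
  | zero => simp
  | add y z hy hz => simp [hy, hz]
  | single h v => simp [ac_single, E_single, mul_assoc]

lemma E_one (χ : H → R) (h' : H) (i : ι) (y : H →₀ (ι → ℤ))
    (h : ∀ p ∈ y.support, χ (p * h'⁻¹) ≠ 0 → p = h') : E χ h' i y = (y h' i : R) * χ 1 := by
  rw [E_sum, Finset.sum_eq_single h']
  · simp
  · intro p hp hne
    by_cases h0 : χ (p * h'⁻¹) = 0
    · simp [h0]
    · exact absurd (h p hp h0) hne
  · intro h0
    simp [Finsupp.notMem_support_iff.mp h0]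

end E

lemma Mag.rf {G H ι : Type} [Group G] [Group H] (S : Mag G H ι) [Group.ResiduallyFinite H] :
    Group.ResiduallyFinite G := by
  classical
  rw [Group.residuallyFinite_iff_exists_finiteIndex]
  intro g hg
  by_cases h1 : S.π g = 1
  swap
  · obtain ⟨M, hM⟩ := Group.exists_finiteIndexNormalSubgroup_notMem _ h1
    exact ⟨(M.comap S.π).toSubgroup, inferInstance, hM⟩
  have h2 : S.D g ≠ 0 := fun h => hg (S.inj h1 h)
  obtain ⟨p, hp⟩ := Finsupp.support_nonempty_iff.mpr h2
  obtain ⟨i, hi⟩ := Function.ne_iff.mp (Finsupp.mem_support_iff.mp hp)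
  obtain ⟨N, hN1, hN2, hN3⟩ := exists_avoid ((S.D g).support.image (· * p⁻¹))
  let k := (S.D g p i).natAbs + 1
  let χ : H → ZMod k := fun x => if x ∈ N then 1 else 0
  let f : N.comap S.π →* Multiplicative (ZMod k) := MonoidHom.mk'
    (fun y => Multiplicative.ofAdd (E χ p i (S.D y))) (fun y z => by
      have : (fun x => χ (S.π y * x)) = χ := by
        ext x; simp only [χ, N.mul_mem_cancel_left y.2]
      rw [Subgroup.coe_mul, S.mul, map_add, E_ac, this]; rfl)
  have : (N.comap S.π).FiniteIndex := ⟨by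
    rw [Subgroup.index_comap_of_surjective _ S.surj]; exact hN2.1⟩
  refine ⟨f.ker.map (N.comap S.π).subtype, ⟨?_⟩, ?_⟩
  · rw [Subgroup.index_map_subtype]
    exact mul_ne_zero (Subgroup.finiteIndex_ker f).1 this.1
  · rintro ⟨y, hy, rfl⟩
    have h3 : E χ p i (S.D y) = 0 := hy
    rw [E_one] at h3
    · simp only [χ, N.one_mem, if_true, mul_one, ZMod.intCast_zmod_eq_zero_iff_dvd] at h3
      have := Int.natAbs_le_of_dvd_ne_zero h3 hi
      simp only [k, Int.natAbs_natCast] at this
      exact absurd this (by simp)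
    · intro q hq h0
      have : q * p⁻¹ ∈ N := by
        by_contra h; simp [χ, h] at h0
      exact mul_inv_eq_one.mp (hN3 _ (Finset.mem_image_of_mem _ hq) this)

instance (ι : Type) : Subsingleton (FS ι 0) :=
  (QuotientGroup.subsingleton_quotient_top : Subsingleton (FreeGroup ι ⧸ ⊤))

lemma tf_FS (ι : Type) [DecidableEq ι] [Fintype ι] (d : ℕ) : TF (FS ι d) := by
  induction d with
  | zero => exact fun h _ _ _ => Subsingleton.elim _ _
  | succ d ih => exact (magFS ι d).tf ih

instance rf_FS (ι : Type) [DecidableEq ι] [Fintype ι] (d : ℕ) :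
    Group.ResiduallyFinite (FS ι d) := by
  induction d with
  | zero => infer_instance
  | succ d ih => exact (magFS ι d).rf

lemma ds_ne (n : ℕ) (hn : 2 ≤ n) (d : ℕ) :
    ∃ w ∈ derivedSeries (FreeGroup (Fin n)) d, w ∉ derivedSeries (FreeGroup (Fin n)) (d + 1) := by
  by_contra hc
  push Not at hc
  set R := derivedSeries (FreeGroup (Fin n)) d with hR
  have h1 : ⁅R, R⁆ = (commutator R).map R.subtype := by
    rw [commutator_def, Subgroup.map_commutator, ← MonoidHom.range_eq_map, Subgroup.range_subtype]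
  have h2 : IsEmpty (IsFreeGroup.Generators R) := ⟨fun x => by
    have h3 := hc _ (IsFreeGroup.of x : R).2
    rw [derivedSeries_succ, ← hR, h1] at h3
    obtain ⟨y, hy, e⟩ := h3
    rw [Subtype.ext e] at hy
    have := Abelianization.commutator_subset_ker
      (IsFreeGroup.lift (fun _ => Multiplicative.ofAdd (1 : ℤ)) : R →* Multiplicative ℤ) hy
    simp at this⟩
  have h3 : R = ⊥ := by
    rw [eq_bot_iff]
    intro x hx
    have := DFunLike.congr_fun (IsFreeGroup.ext_hom (f := R.subtype) (g := 1)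
      (fun a => h2.elim a)) ⟨x, hx⟩
    simpa using this
  have h4 : Group.IsSolvable (FreeGroup (Fin n)) := ⟨⟨d, h3⟩⟩
  let f : FreeGroup (Fin n) →* Equiv.Perm (Fin 5) := FreeGroup.lift fun i =>
    if i = ⟨0, by omega⟩ then finRotate 5 else Equiv.swap 0 (finRotate 5 0)
  have h5 : Function.Surjective f := by
    rw [← MonoidHom.range_eq_top, eq_top_iff,
      ← Equiv.Perm.closure_cycle_adjacent_swap (isCycle_finRotate (n := 3))
        (support_finRotate (n := 3)) 0, Subgroup.closure_le]
    rintro x (rfl | rfl)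
    · exact ⟨FreeGroup.of ⟨0, by omega⟩, by simp [f]⟩
    · exact ⟨FreeGroup.of ⟨1, by omega⟩, by simp [f]⟩
  exact Equiv.Perm.not_isSolvable_fin_5 (Group.isSolvable_of_surjective h5)

lemma card_ac {H ι : Type} [Group H] (h : H) (y : H →₀ (ι → ℤ)) (k : ℤ) (hk : k ≠ 0) :
    (k • ac h y).support.card = y.support.card := by
  classical
  rw [Finsupp.support_smul_eq hk, ac, Finsupp.mapDomain.addMonoidHom_apply,
    Finsupp.mapDomain_support_of_injective (mul_right_injective h),
    Finset.card_image_of_injective _ (mul_right_injective h)]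

lemma exists_st (n : ℕ) (hn : 2 ≤ n) (e : ℕ) : ∃ s t : FS (Fin n) (e + 1),
    piFS _ e s = 1 ∧ piFS _ e t = 1 ∧ t ≠ 1 ∧
      ∀ h (k j : ℤ), (h * s * h⁻¹) ^ k = t ^ j → k = 0 := by
  classical
  let S := magFS (Fin n) e
  have key : ∀ s t : FS (Fin n) (e + 1), S.π s = 1 → S.π t = 1 → ∀ h (k j : ℤ),
      (h * s * h⁻¹) ^ k = t ^ j → k • ac (S.π h) (S.D s) = j • S.D t := by
    intro s t hs ht h k j hk
    rw [← S.D_conjA hs, ← S.D_zpowA (by simp [hs]), hk, S.D_zpowA ht]
  rcases e with _ | e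
  · have hD : ∀ i, S.D (QuotientGroup.mk (FreeGroup.of i)) = Finsupp.single 1 (Pi.single i 1) :=
      fun i => fox_of _ i
    refine ⟨QuotientGroup.mk (FreeGroup.of ⟨0, by omega⟩),
      QuotientGroup.mk (FreeGroup.of ⟨1, by omega⟩), Subsingleton.elim _ _,
      Subsingleton.elim _ _, fun h => ?_, fun h k j hk => ?_⟩
    · have := hD ⟨1, by omega⟩
      rw [h, S.D_one] at this
      have := congrFun (DFunLike.congr_fun this 1) ⟨1, by omega⟩
      rw [Finsupp.single_eq_same, Finsupp.zero_apply] at this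
      simp at this
    · have := key _ _ (Subsingleton.elim _ _) (Subsingleton.elim _ _) h k j hk
      rw [Subsingleton.elim (S.π h) 1, ac_one, hD, hD] at this
      have := congrFun (DFunLike.congr_fun this 1) ⟨0, by omega⟩
      rw [Finsupp.smul_apply, Finsupp.smul_apply, Finsupp.single_eq_same,
        Finsupp.single_eq_same] at this
      simpa using this
  obtain ⟨w, hw1, hw2⟩ := ds_ne n hn (e + 1)
  obtain ⟨u, -, hu⟩ := ds_ne n hn 0
  have hu' : (QuotientGroup.mk u : FS (Fin n) (e + 1)) ≠ 1 := fun h =>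
    hu (derivedSeries_antitone _ (by omega) ((QuotientGroup.eq_one_iff _).mp h))
  have : Infinite (FS (Fin n) (e + 1)) := by
    refine Infinite.of_injective (fun k : ℤ => (QuotientGroup.mk u : FS (Fin n) (e + 1)) ^ k) ?_
    intro k l hkl
    have := (tf_FS _ _).zpow hu' (e := k - l) (by
      rw [zpow_sub, show _ ^ k = _ ^ l from hkl]; exact mul_inv_cancel _)
    omega
  set l : FS (Fin n) (e + 1 + 1) := QuotientGroup.mk w with hl
  have l1 : S.π l = 1 := (QuotientGroup.eq_one_iff _).mpr hw1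
  have l2 : S.D l ≠ 0 := fun h => hw2 ((QuotientGroup.eq_one_iff _).mp (S.inj l1 h))
  have l3 : (S.D l).support.card ≠ 0 := by simpa using l2
  obtain ⟨g, hg⟩ := Infinite.exists_notMem_finset
    (Finset.image₂ (fun p q => p * q⁻¹) (S.D l).support (S.D l).support)
  obtain ⟨g, rfl⟩ := S.surj g
  have t1 : S.π (l * (g * l * g⁻¹)) = 1 := by simp [l1]
  have t2 : (S.D (l * (g * l * g⁻¹))).support.card = 2 * (S.D l).support.card := by
    have hd : Disjoint (S.D l).support (ac (S.π g) (S.D l)).support := by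
      rw [Finset.disjoint_left]
      intro p hp hp'
      rw [Finsupp.mem_support_iff, ac_apply, ← Finsupp.mem_support_iff] at hp'
      exact hg (Finset.mem_image₂.mpr ⟨p, hp, _, hp', by simp⟩)
    have := card_ac (S.π g) (S.D l) 1 one_ne_zero
    rw [one_smul] at this
    rw [S.D_mulA l1, S.D_conjA l1, Finsupp.support_add_eq hd, Finset.card_union_of_disjoint hd,
      this, two_mul]
  refine ⟨l, l * (g * l * g⁻¹), l1, t1, fun h => ?_, fun h k j hk => ?_⟩
  · rw [h, S.D_one] at t2; simp at t2; exact l2 t2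
  · have := key _ _ l1 t1 h k j hk
    by_contra hk0
    have h1 := card_ac (S.π h) (S.D l) k hk0
    rw [this] at h1
    by_cases hj : j = 0
    · rw [hj] at h1; simp at h1; exact l3 h1.symm
    · rw [Finsupp.support_smul_eq hj, t2] at h1; omega

lemma hopf {ι G : Type} [Finite ι] [Group G] [Group.ResiduallyFinite G] (p : FreeGroup ι →* G)
    (hp : Function.Surjective p) (φ : G →* G) (hφ : Function.Surjective φ) :
    Function.Injective φ := by
  rw [injective_iff_map_eq_one]
  intro g hg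
  refine Group.eq_one_iff_forall_finiteIndexNormalSubroup g fun N => ?_
  have : Finite (G →* G ⧸ N.toSubgroup) := by
    refine Finite.of_injective (fun (f : G →* G ⧸ N.toSubgroup) i => f (p (FreeGroup.of i))) ?_
    intro f f' h
    have : f.comp p = f'.comp p := FreeGroup.ext_hom _ _ (fun i => congrFun h i)
    ext x
    obtain ⟨w, rfl⟩ := hp x
    exact DFunLike.congr_fun this w
  obtain ⟨f, hf⟩ := (Finite.injective_iff_surjective.mp
    (show Function.Injective (fun f : G →* G ⧸ N.toSubgroup => f.comp φ) from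
      fun f f' h => (MonoidHom.cancel_right hφ).mp h)) (QuotientGroup.mk' _)
  have := DFunLike.congr_fun hf g
  simp only [MonoidHom.comp_apply, hg, map_one] at this
  exact (QuotientGroup.eq_one_iff _).mp this.symm

end Pool.Agent.H.MP_c33acd_lc
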