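import Pool.Agent.H.MP_c33acd_lc.A

set_option autoImplicit false

namespace Pool.Agent.H.MP_c33acd_lc

section ch
variable {H ι R : Type} [Group H] [CommRing R]

structure Ch (Γ : Subgroup H) (χ : H → R) : Prop where
  ne : ∀ g, χ g ≠ 0 ↔ g ∈ Γ
  mul : ∀ γ ∈ Γ, ∀ g, χ (γ * g) = χ γ * χ g

lemma Ch.E_ac {Γ : Subgroup H} {χ : H → R} (c : Ch Γ χ) {γ : H} (hγ : γ ∈ Γ) (h' : H) (i : ι)
    (y : H →₀ (ι → ℤ)) : E χ h' i (ac γ y) = χ γ * E χ h' i y := by
  induction y using Finsupp.induction_linear with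
  | zero => simp
  | add y z hy hz => simp [hy, hz, mul_add]
  | single h v => rw [ac_single, E_single, E_single, mul_assoc, c.mul γ hγ]; ring

open Classical in
lemma ch_ind (Γ : Subgroup H) : Ch Γ (fun g => if g ∈ Γ then (1 : ℤ) else 0) :=
  ⟨fun g => by simp, fun γ hγ g => by simp [hγ, Γ.mul_mem_cancel_left hγ]⟩

lemma Ch.one [IsDomain R] {Γ : Subgroup H} {χ : H → R} (c : Ch Γ χ) : χ 1 = 1 := by
  have h1 := c.mul 1 Γ.one_mem 1
  rw [mul_one] at h1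
  exact (mul_right_eq_self₀.mp h1.symm).resolve_right ((c.ne 1).mpr Γ.one_mem)

def Pin (N : Subgroup H) (y : H →₀ (ι → ℤ)) : Prop :=
  ∀ p1 ∈ y.support, ∀ p2 ∈ y.support, ∀ p3 ∈ y.support, ∀ p4 ∈ y.support,
    p1⁻¹ * p2 * p3⁻¹ * p4 ∈ N → p1⁻¹ * p2 * p3⁻¹ * p4 = 1

lemma Pin.eq {N : Subgroup H} [hN : N.Normal] {y : H →₀ (ι → ℤ)} (hp : Pin N y) {p q : H}
    (h1 : p ∈ y.support) (h2 : q ∈ y.support) (h : p * q⁻¹ ∈ N) : p = q := by
  have := hp q h2 p h1 q h2 q h2 (by simpa using hN.mem_comm h)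
  simpa [inv_mul_eq_one, eq_comm] using this

lemma E_at {N Γ : Subgroup H} [hN : N.Normal] {χ : H → R} (c : Ch Γ χ) (hΓ : Γ ≤ N)
    {y : H →₀ (ι → ℤ)} (hp : Pin N y) (g g' : H) {p : H} (h1 : p ∈ y.support) (i : ι)
    (hg : g' * g⁻¹ ∈ N) :
    E χ (g * p) i (ac g' y) = (y p i : R) * χ (g' * g⁻¹) := by
  rw [E_ac, E_sum, Finset.sum_eq_single p]
  · simp
  · intro q hq hne
    by_cases h0 : χ (g' * (q * (g * p)⁻¹)) = 0
    · rw [h0, mul_zero]
    · refine absurd (hp.eq hq h1 ?_) hne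
      have h3 := hΓ ((c.ne _).mp h0)
      have h4 := hN.conj_mem _ (N.mul_mem (N.inv_mem hg) h3) g⁻¹
      simpa [mul_assoc] using h4
  · intro h0; exact absurd h1 h0

lemma pin [IsDomain R] [CharZero R] (tf : TF H) {N Γ : Subgroup H} [hN : N.Normal] {χ : H → R}
    (c : Ch Γ χ) (hΓ : Γ ≤ N) {y : H →₀ (ι → ℤ)} (hy : y ≠ 0) (hp : Pin N y) (g g' : H)
    (h : ∀ h' i, E χ h' i (ac g y) = E χ h' i (ac g' y)) : χ (g' * g⁻¹) = 1 := by
  have h1 : ∀ p ∈ y.support, ∃ q ∈ y.support, g' * (q * (g * p)⁻¹) ∈ N := by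
    intro p hp'
    obtain ⟨i, hi⟩ := Function.ne_iff.mp (Finsupp.mem_support_iff.mp hp')
    have h2 := E_at c hΓ hp g g hp' i (by simp)
    rw [h, E_ac, E_sum, mul_inv_cancel, c.one, mul_one] at h2
    obtain ⟨q, hq, h3⟩ := Finset.exists_ne_zero_of_sum_ne_zero
      (h2.trans_ne (Int.cast_ne_zero.mpr hi))
    exact ⟨q, hq, hΓ ((c.ne _).mp (right_ne_zero_of_mul h3))⟩
  obtain ⟨p0, hp0⟩ := Finsupp.support_nonempty_iff.mpr hy
  obtain ⟨q0, hq0, h0⟩ := h1 p0 hp0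
  obtain ⟨k, hk, e⟩ := pow_of_stable (q0 * p0⁻¹) y.support p0 hp0 (fun p hp' => by
    obtain ⟨q, hq, h3⟩ := h1 p hp'
    have h4 := hN.conj_mem _ (N.mul_mem (N.inv_mem h3) h0) (g * p)⁻¹
    have h5 := hp q hq q0 hq0 p0 hp0 p hp' (by simpa [mul_assoc] using h4)
    have : q0 * p0⁻¹ * p = q := by
      rw [mul_assoc, mul_assoc, inv_mul_eq_one] at h5; rw [h5, mul_assoc]
    rwa [this])
  have h6 : q0 = p0 := mul_inv_eq_one.mp (tf _ k hk e)
  subst h6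
  obtain ⟨i, hi⟩ := Function.ne_iff.mp (Finsupp.mem_support_iff.mp hp0)
  have h2 := E_at c hΓ hp g g hp0 i (by simp)
  rw [h, E_at c hΓ hp g g' hp0 i (by simpa [mul_assoc] using h0), mul_inv_cancel, c.one] at h2
  exact mul_left_cancel₀ (Int.cast_ne_zero.mpr hi) h2

lemma cancel [IsDomain R] {Γ : Subgroup H} {χ : H → R} (c : Ch Γ χ) (μ : H)
    (hc : ∀ γ ∈ Γ, μ * γ = γ * μ) (hμ : ∀ k : ℕ, χ (μ ^ k) = 1 → k = 0) (y : H →₀ (ι → ℤ))
    (h : ∀ h' i, E χ h' i (ac μ y) = E χ h' i y) (h' : H) (i : ι) : E χ h' i y = 0 := by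
  have h1 : ∀ x, χ (μ * x) = χ (x * μ) := by
    intro x
    by_cases hx : μ * x ∈ Γ
    · have := hc _ hx
      rw [mul_assoc] at this
      rw [mul_left_cancel this]
    by_cases hx' : x * μ ∈ Γ
    · have := hc _ hx'
      rw [← mul_assoc] at this
      rw [mul_right_cancel this]
    rw [← c.ne, not_not] at hx hx'
    rw [hx, hx']
  have h2 : ∀ (z : H →₀ (ι → ℤ)) h' i, E χ h' i (ac μ z) = E χ (μ⁻¹ * h') i z := by
    intro z h' i
    rw [E_ac, E_sum, E_sum]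
    refine Finset.sum_congr rfl fun p _ => ?_
    simp [h1, mul_assoc]
  have h3 : ∀ (k : ℕ) h' i, E χ h' i (ac (μ ^ k) y) = E χ h' i y := by
    intro k
    induction k with
    | zero => simp
    | succ k ih => intro h' i; rw [pow_succ', ac_mul, h2, ih, ← h2, h]
  by_contra h0
  have h4 : ∀ k : ℕ, ∃ p : y.support, μ ^ k * (p * h'⁻¹) ∈ Γ := by
    intro k
    rw [← h3 k, E_ac, E_sum] at h0
    obtain ⟨q, hq, h5⟩ := Finset.exists_ne_zero_of_sum_ne_zero h0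
    exact ⟨⟨q, hq⟩, (c.ne _).mp (right_ne_zero_of_mul h5)⟩
  choose p hp using h4
  have h5 : ∀ k l : ℕ, k < l → p k ≠ p l := by
    intro k l hkl e
    have h6 := Γ.mul_mem (hp l) (Γ.inv_mem (hp k))
    rw [e] at h6
    have h7 : μ ^ (l - k) ∈ Γ := by
      rw [pow_sub _ hkl.le]; simpa [mul_assoc] using h6
    have h8 := h3 (l - k) h' i
    rw [c.E_ac h7] at h8
    have := hμ _ ((mul_left_eq_self₀.mp h8).resolve_right h0)
    omega
  obtain ⟨k, l, hkl, e⟩ := Finite.exists_ne_map_eq_of_infinite p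
  rcases lt_or_gt_of_ne hkl with hl | hl
  · exact h5 _ _ hl e
  · exact h5 _ _ hl e.symm

lemma red {Γ N : Subgroup H} [hN : N.Normal] {χ : H → R} (c : Ch Γ χ) (hΓ : Γ ≤ N) (q : ℕ)
    (f : R →+* ZMod q) (hf : ∀ γ ∈ Γ, f (χ γ) = 1) (y : H →₀ (ι → ℤ))
    (h : ∀ h' i, E χ h' i y = 0) (x : H ⧸ N) (i : ι) :
    (q : ℤ) ∣ Finsupp.mapDomain (QuotientGroup.mk : H → H ⧸ N) y x i := by
  classical
  let φ : H → Quotient (QuotientGroup.rightRel Γ) := Quotient.mk''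
  let pr : Quotient (QuotientGroup.rightRel Γ) → H ⧸ N := fun z =>
    Quotient.liftOn' z QuotientGroup.mk (fun u v huv => by
      rw [QuotientGroup.rightRel_apply] at huv
      rw [QuotientGroup.eq]; exact hN.mem_comm (hΓ huv))
  have e : (QuotientGroup.mk : H → H ⧸ N) = pr ∘ φ := rfl
  rw [e, Finsupp.mapDomain_comp]
  refine dvd_mapDomain _ _ _ (fun z j => ?_) _ _
  obtain ⟨h', rfl⟩ := Quotient.exists_rep z
  have h1 := congrArg f (h h' j)
  rw [E_sum, map_sum, map_zero] at h1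
  rw [← ZMod.intCast_zmod_eq_zero_iff_dvd, Finsupp.mapDomain, Finsupp.sum_apply, Finsupp.sum,
    Finset.sum_apply, Int.cast_sum, ← h1]
  refine Finset.sum_congr rfl fun p _ => ?_
  have h2 : φ p = ⟦h'⟧ ↔ p * h'⁻¹ ∈ Γ := by
    rw [eq_comm, ← QuotientGroup.rightRel_apply]; exact Quotient.eq''
  rw [Finsupp.single_apply, map_mul, map_intCast]
  by_cases h3 : p * h'⁻¹ ∈ Γ
  · rw [if_pos (h2.mpr h3), hf _ h3, mul_one]
  · rw [if_neg (mt h2.mp h3), not_not.mp (mt (c.ne _).mp h3)]; simp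

lemma exists_ch (s t : H) (hc : s * t = t * s) (hi : ∀ k j : ℤ, s ^ k = t ^ j → k = 0)
    [Nontrivial R] (u : Rˣ) : ∃ (Γ : Subgroup H) (χ : H → R), Ch Γ χ ∧
      (∀ γ ∈ Γ, ∃ i j : ℤ, γ = s ^ i * t ^ j) ∧
      ∀ i j : ℤ, χ (s ^ i * t ^ j) = (u ^ i : Rˣ) := by
  classical
  have hc' : Commute s t := hc
  have m1 : ∀ i j i' j' : ℤ, s ^ i * t ^ j * (s ^ i' * t ^ j') = s ^ (i + i') * t ^ (j + j') := by
    intro i j i' j'
    rw [zpow_add, zpow_add, mul_assoc, mul_assoc, ← mul_assoc (t ^ j),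
      ← (hc'.zpow_zpow i' j).eq, mul_assoc]
  have m2 : ∀ i j : ℤ, (s ^ i * t ^ j)⁻¹ = s ^ (-i) * t ^ (-j) := by
    intro i j
    rw [inv_eq_iff_mul_eq_one, m1]; simp
  let Γ : Subgroup H :=
    { carrier := {γ | ∃ i j : ℤ, γ = s ^ i * t ^ j}
      one_mem' := ⟨0, 0, by simp⟩
      mul_mem' := by rintro _ _ ⟨i, j, rfl⟩ ⟨i', j', rfl⟩; exact ⟨_, _, m1 _ _ _ _⟩
      inv_mem' := by rintro _ ⟨i, j, rfl⟩; exact ⟨_, _, m2 _ _⟩ }
  let χ : H → R := fun g => if h : g ∈ Γ then (u ^ h.choose : Rˣ) else 0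
  have h1 : ∀ i j : ℤ, χ (s ^ i * t ^ j) = (u ^ i : Rˣ) := by
    intro i j
    have hm : s ^ i * t ^ j ∈ Γ := ⟨i, j, rfl⟩
    obtain ⟨j', hj⟩ := hm.choose_spec
    have : i - hm.choose = 0 := by
      apply hi _ (j' - j)
      rw [sub_eq_neg_add, zpow_add, zpow_sub, zpow_neg, inv_mul_eq_iff_eq_mul, ← mul_assoc, ← hj]
      simp
    simp only [χ, dif_pos hm]
    rw [show hm.choose = i by omega]
  refine ⟨Γ, χ, ⟨fun g => ?_, ?_⟩, fun γ h => h, h1⟩
  · by_cases hg : g ∈ Γ <;> simp [χ, hg]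
  · rintro _ ⟨i, j, rfl⟩ g
    by_cases hg : g ∈ Γ
    · obtain ⟨i', j', rfl⟩ := hg
      rw [m1, h1, h1, h1, zpow_add, Units.val_mul]
    · have : s ^ i * t ^ j * g ∉ Γ := by rwa [Γ.mul_mem_cancel_left ⟨i, j, rfl⟩]
      simp [χ, hg, this]

end ch

lemma lagrange {M : Type} [AddCommGroup M] (σ : Module.End ℤ M) (c : ℕ → ℤ)
    (hc : Function.Injective c) (b : ℕ → M) (L : ℕ) :
    ∃ (d : ℤ) (Y : M), d ≠ 0 ∧ ∀ j < L, ∃ m, Y - d • b j = σ m - c j • m := by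
  open Polynomial in
  have key : ∀ (x : ℤ) (p : ℤ[X]), X - C x ∣ p → ∀ m, ∃ m', aeval σ p m = σ m' - x • m' := by
    rintro x _ ⟨p, rfl⟩ m
    exact ⟨aeval σ p m, by simp⟩
  induction L with
  | zero => exact ⟨1, 0, one_ne_zero, by simp⟩
  | succ L ih =>
    open Polynomial in
    obtain ⟨d, Y, hd, h⟩ := ih
    let p : ℤ[X] := ∏ j ∈ Finset.range L, (X - C (c j))
    have he : p.eval (c L) ≠ 0 := by
      simp only [p, eval_prod, eval_sub, eval_X, eval_C]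
      exact Finset.prod_ne_zero_iff.mpr fun j hj =>
        sub_ne_zero.mpr (hc.ne (Finset.mem_range.mp hj).ne')
    refine ⟨p.eval (c L) * d, p.eval (c L) • Y + aeval σ p (d • b L - Y), mul_ne_zero he hd,
      fun j hj => ?_⟩
    rcases Nat.lt_succ_iff_lt_or_eq.mp hj with hj | rfl
    · obtain ⟨m, hm⟩ := h j hj
      obtain ⟨m', hm'⟩ := key (c j) p (Finset.dvd_prod_of_mem _ (Finset.mem_range.mpr hj))
        (d • b L - Y)
      refine ⟨p.eval (c L) • m + m', ?_⟩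
      rw [hm', map_add, map_zsmul, eq_add_of_sub_eq hm]
      module
    · obtain ⟨m', hm'⟩ := key (c j) _ (X_sub_C_dvd_sub_C_eval (p := p) (a := c j)) (d • b j - Y)
      refine ⟨m', ?_⟩
      rw [← hm', map_sub (aeval (R := ℤ) σ), aeval_C, LinearMap.sub_apply, Module.algebraMap_end_apply]
      module

section pw
variable {H V : Type} [Group H] [AddCommGroup V]

noncomputable def T (t : H) : (H →₀ V) →+ (H →₀ V) := ac t - AddMonoidHom.id _

lemma T_apply (t : H) (m : H →₀ V) : T t m = ac t m - m := rfl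

lemma pw1 (B : AddSubgroup (H →₀ V)) (hB : ∀ h, ∀ m ∈ B, ac h m ∈ B) (t : H) (c : ℤ) {m : H →₀ V}
    (hm : m ∈ B) : ac (t ^ c) m - m ∈ B.map (T t) := by
  induction c using Int.induction_on with
  | zero => simp
  | succ n ih =>
    have := add_mem ih (AddSubgroup.mem_map_of_mem (T t) (hB (t ^ (n : ℤ)) m hm))
    rw [T_apply, ← ac_mul, ← zpow_one_add, add_comm (1 : ℤ)] at this
    convert this using 1; abel
  | pred n ih =>
    have := sub_mem ih (AddSubgroup.mem_map_of_mem (T t) (hB (t ^ (-(n : ℤ) - 1)) m hm))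
    rw [T_apply, ← ac_mul, ← zpow_one_add, show 1 + (-(n : ℤ) - 1) = -n by ring] at this
    convert this using 1; abel

lemma pw2 (B : AddSubgroup (H →₀ V)) (hB : ∀ h, ∀ m ∈ B, ac h m ∈ B) (t : H) (c : ℤ) {m : H →₀ V}
    (hm : m ∈ B) : ac (t ^ c) m - m - c • T t m ∈ (B.map (T t)).map (T t) := by
  induction c using Int.induction_on with
  | zero => simp
  | succ n ih =>
    have := add_mem ih (AddSubgroup.mem_map_of_mem (T t) (pw1 B hB t n hm))
    rw [map_sub, T_apply t (ac _ _), ← ac_mul, ← zpow_one_add, add_comm (1 : ℤ)] at this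
    convert this using 1; rw [add_one_zsmul]; abel
  | pred n ih =>
    have := sub_mem ih (AddSubgroup.mem_map_of_mem (T t) (pw1 B hB t (-(n : ℤ) - 1) hm))
    rw [map_sub, T_apply t (ac _ _), ← ac_mul, ← zpow_one_add,
      show 1 + (-(n : ℤ) - 1) = -n by ring] at this
    convert this using 1; rw [sub_zsmul, one_zsmul]; abel

lemma T_inj (tf : TF H) {t : H} (ht : t ≠ 1) : Function.Injective (T t : (H →₀ V) → _) := by
  rw [injective_iff_map_eq_zero]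
  intro m hm
  exact fpf tf ht (sub_eq_zero.mp hm)

end pw

end Pool.Agent.H.MP_c33acd_lc
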