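import Pool.Agent.H.MP_c33acd_lc.B

set_option autoImplicit false

namespace Pool.Agent.H.MP_c33acd_lc

section defs
variable {K : Type} [Group K]

def cm (x y : K) : K := x * y * x⁻¹ * y⁻¹
def InA (a y : K) : Prop := y * a = a * y
def Cyc (a t u : K) : Prop := ∃ b, InA a b ∧ cm u a = cm t b
def Ml (a t u b b' : K) : Prop := InA a b' ∧ ∃ e, InA a e ∧ cm u b = cm t b' * cm t (cm t e)
def Mu (a r y1 y2 y3 : K) : Prop :=
  ∃ b, Ml a r y1 a b ∧ ∃ e, InA a e ∧ cm y2 b = cm y3 a * cm r (cm r e)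
def It (a r y : K) : Prop := Cyc a r y ∧ y * r = r * y
def Sq (a r y : K) : Prop := It a r y ∧ ∃ w, It a r w ∧ Mu a r w w y
def Num (a r y : K) : Prop :=
  ∃ y1 y2 y3 y4, Sq a r y1 ∧ Sq a r y2 ∧ Sq a r y3 ∧ Sq a r y4 ∧ y = y1 * y2 * y3 * y4

structure Std (a r : K) : Prop where
  it : ∀ y, It a r y ↔ ∃ e : ℤ, y = r ^ e
  inj : ∀ e : ℤ, r ^ e = 1 → e = 0
  mu : ∀ e1 e2 e3 : ℤ, Mu a r (r ^ e1) (r ^ e2) (r ^ e3) ↔ e3 = e1 * e2

def Cg (a s t u δ Y b : K) : Prop :=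
  ∃ b1 b2 b3, InA a b2 ∧ Ml a t δ b b1 ∧ Ml a t u b2 b3 ∧ Y = b1 * (s * b2 * s⁻¹) * b3⁻¹
def Lk (a r t y u : K) : Prop := Cyc a t u ∧ ∃ b, Ml a r y a b ∧ Ml a t u a b
def Cd (a r s t Y δ Z ε y g : K) : Prop :=
  ∃ u, Lk a r t y u ∧ Cg a s t u δ Y (g * a * g⁻¹) ∧ Cg a s t u ε Z (cm s (g * s * g⁻¹))
def Ev (a r s0 t0 : K) (k : ℕ) (l : ℕ → K) (m : ℕ) (g : K) : Prop :=
  ∀ s t, ∀ q : ℕ, Cyc a s0 s → Cyc a t0 t → ¬ InA a t → q ≠ 0 → ∃ Y δ Z ε,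
    Cyc a t δ ∧ ¬ InA a δ ∧ Cyc a t ε ∧ ¬ InA a ε ∧
    Cd a r s t Y δ Z ε (r ^ (1 + q * (0 + 1))) g ∧
    Cd a r s t Y δ Z ε (r ^ (1 + q * (m + 1))) 1 ∧
    ∀ j : ℕ, j < m → ∃ y, Cd a r s t Y δ Z ε (r ^ (1 + q * (j + 1 + 1))) y ∧
      ∃ i : Fin k, m / k ^ j % k = i ∧
        Cd a r s t Y δ Z ε (r ^ (1 + q * (j + 1))) (l i * y)

def ev (k : ℕ) (l : ℕ → K) (m : ℕ) : K := ((Nat.digits k m).map l).prod

lemma ev_zero (k : ℕ) (l : ℕ → K) : ev k l 0 = 1 := by simp [ev]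

lemma ev_step {k : ℕ} (hk : 1 < k) {l : ℕ → K} (h0 : l 0 = 1) (m : ℕ) :
    ev k l m = l (m % k) * ev k l (m / k) := by
  rcases Nat.eq_zero_or_pos m with rfl | hm
  · simp [ev, h0]
  · simp [ev, Nat.digits_def' hk hm]

lemma Std.num {a r : K} (h : Std a r) (y : K) : Num a r y ↔ ∃ n : ℕ, y = r ^ n := by
  have hs : ∀ y, Sq a r y ↔ ∃ e : ℤ, y = r ^ (e * e) := by
    intro y
    constructor
    · rintro ⟨h1, w, h2, h3⟩
      obtain ⟨e, rfl⟩ := (h.it _).mp h1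
      obtain ⟨e', rfl⟩ := (h.it _).mp h2
      exact ⟨e', by rw [(h.mu _ _ _).mp h3]⟩
    · rintro ⟨e, rfl⟩
      exact ⟨(h.it _).mpr ⟨_, rfl⟩, r ^ e, (h.it _).mpr ⟨_, rfl⟩, (h.mu _ _ _).mpr rfl⟩
  simp only [Num, hs]
  constructor
  · rintro ⟨_, _, _, _, ⟨e1, rfl⟩, ⟨e2, rfl⟩, ⟨e3, rfl⟩, ⟨e4, rfl⟩, rfl⟩
    refine ⟨(e1 * e1 + e2 * e2 + e3 * e3 + e4 * e4).toNat, ?_⟩
    rw [← zpow_natCast, Int.toNat_of_nonneg (add_nonneg (add_nonneg (add_nonneg (mul_self_nonneg _)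
      (mul_self_nonneg _)) (mul_self_nonneg _)) (mul_self_nonneg _)), zpow_add, zpow_add, zpow_add]
  · rintro ⟨n, rfl⟩
    obtain ⟨e1, e2, e3, e4, rfl⟩ := Nat.sum_four_squares n
    refine ⟨_, _, _, _, ⟨e1, rfl⟩, ⟨e2, rfl⟩, ⟨e3, rfl⟩, ⟨e4, rfl⟩, ?_⟩
    rw [← zpow_add, ← zpow_add, ← zpow_add, ← zpow_natCast]
    congr 1; push_cast; ring

lemma Std.pow_inj {a r : K} (h : Std a r) {m n : ℕ} : r ^ m = r ^ n ↔ m = n := by
  refine ⟨fun e => ?_, fun e => by rw [e]⟩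
  have := h.inj (m - n) (by rw [zpow_sub, zpow_natCast, zpow_natCast, e, mul_inv_cancel])
  omega

end defs

lemma mem_iff_sub {M : Type} [AddCommGroup M] {B : AddSubgroup M} {x y : M} (h : x - y ∈ B) :
    x ∈ B ↔ y ∈ B :=
  ⟨fun hx => by simpa using sub_mem hx h, fun hy => by simpa using add_mem h hy⟩

namespace Mag
variable {G H ι : Type} [Group G] [Group H] (S : Mag G H ι)

def DA : AddSubgroup (H →₀ (ι → ℤ)) where
  carrier := {m | ∃ α, S.π α = 1 ∧ S.D α = m}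
  zero_mem' := ⟨1, map_one _, S.D_one⟩
  add_mem' := by
    rintro _ _ ⟨α, h1, rfl⟩ ⟨β, h2, rfl⟩
    exact ⟨α * β, by simp [h1, h2], S.D_mulA h1 _⟩
  neg_mem' := by
    rintro _ ⟨α, h1, rfl⟩
    exact ⟨α⁻¹, by simp [h1], S.D_invA h1⟩

lemma mem_DA {α : G} (h : S.π α = 1) : S.D α ∈ S.DA := ⟨α, h, rfl⟩

lemma DA_ac : ∀ h, ∀ m ∈ S.DA, ac h m ∈ S.DA := by
  rintro h _ ⟨α, h1, rfl⟩
  obtain ⟨g, rfl⟩ := S.surj h
  exact ⟨g * α * g⁻¹, by simp [h1], S.D_conjA h1 g⟩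

lemma π_cm {b : G} (h : S.π b = 1) (u : G) : S.π (cm u b) = 1 := by simp [cm, h]

lemma D_cm {b : G} (h : S.π b = 1) (u : G) : S.D (cm u b) = T (S.π u) (S.D b) := by
  rw [cm, S.D_mulA (by simp [h]), S.D_conjA h, S.D_invA h, T_apply, sub_eq_add_neg]

lemma eqA {α β : G} (h : S.π α = 1) (h' : S.π β = 1) : α = β ↔ S.D α = S.D β :=
  ⟨fun e => by rw [e], fun e => S.ext' (by rw [h, h']) e⟩

structure Par (N Λ : Subgroup H) (a r s0 t0 : G) : Prop where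
  tf : TF H
  a1 : S.π a = 1
  a0 : a ≠ 1
  nN : N.Normal
  pin : Pin N (S.D a)
  rN : S.π r ∈ N
  sN : S.π s0 ∈ N
  tN : S.π t0 ∈ N
  r0 : S.π r ≠ 1
  t0' : S.π t0 ≠ 1
  nΛ : Λ.Normal
  cΛ : ∀ x ∈ Λ, ∀ y ∈ Λ, x * y = y * x
  sΛ : S.π s0 ∈ Λ
  tΛ : S.π t0 ∈ Λ
  ind : ∀ h (k j : ℤ), (h * S.π s0 * h⁻¹) ^ k = S.π t0 ^ j → k = 0

variable {S} {N Λ : Subgroup H} {a r s0 t0 : G} (P : S.Par N Λ a r s0 t0)
include P

lemma Par.Da : S.D a ≠ 0 := fun h => P.a0 (S.inj P.a1 h)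

lemma Par.inA (y : G) : InA a y ↔ S.π y = 1 := by
  refine ⟨fun h => ?_, fun h => S.commA h P.a1⟩
  by_contra hy
  apply P.Da
  apply fpf P.tf hy
  rw [← S.D_conjA P.a1, h]; simp

lemma Par.ex2 {t x y : G} (hx : S.π x = 1) (hy : S.π y = 1) :
    (∃ e, InA a e ∧ x = y * cm t (cm t e)) ↔
      S.D x - S.D y ∈ (S.DA.map (T (S.π t))).map (T (S.π t)) := by
  constructor
  · rintro ⟨e, he, rfl⟩
    rw [P.inA] at he
    rw [S.D_mulA hy, S.D_cm (S.π_cm he _), S.D_cm he, add_sub_cancel_left]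
    exact AddSubgroup.mem_map_of_mem _ (AddSubgroup.mem_map_of_mem _ (S.mem_DA he))
  · rintro ⟨_, ⟨_, ⟨e, he, rfl⟩, rfl⟩, h⟩
    refine ⟨e, (P.inA _).mpr he, ?_⟩
    rw [S.eqA hx (by simp [hy, S.π_cm (S.π_cm he _)]), S.D_mulA hy, S.D_cm (S.π_cm he _),
      S.D_cm he, h, add_sub_cancel]

lemma Par.TT {t : H} (ht : t ≠ 1) (m : H →₀ (ι → ℤ)) :
    T t m ∈ (S.DA.map (T t)).map (T t) ↔ m ∈ S.DA.map (T t) :=
  ⟨fun ⟨_, h, e⟩ => T_inj P.tf ht e ▸ h, AddSubgroup.mem_map_of_mem _⟩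

lemma Par.ml {t u b b' : G} {c : ℤ} (hu : S.π u = S.π t ^ c) (ht : S.π t ≠ 1) (hb : S.π b = 1) :
    Ml a t u b b' ↔ S.π b' = 1 ∧ c • S.D b - S.D b' ∈ S.DA.map (T (S.π t)) := by
  rw [Ml, P.inA]
  refine and_congr_right fun hb' => ?_
  rw [P.ex2 (S.π_cm hb _) (S.π_cm hb' _), S.D_cm hb, S.D_cm hb', hu, ← P.TT ht]
  rw [map_sub, map_zsmul, T_apply (_ ^ c)]
  apply mem_iff_sub
  convert pw2 _ S.DA_ac (S.π t) c (S.mem_DA hb) using 1; abel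

lemma Par.cyc {t : G} (ht : S.π t ∈ N) (u : G) : Cyc a t u ↔ ∃ c : ℤ, S.π u = S.π t ^ c := by
  classical
  have := P.nN
  constructor
  · rintro ⟨b, hb, e⟩
    rw [P.inA] at hb
    rw [S.eqA (S.π_cm P.a1 _) (S.π_cm hb _), S.D_cm P.a1, S.D_cm hb, T_apply, T_apply] at e
    have c := ch_ind (Subgroup.zpowers (S.π t))
    have h1 := Pool.Agent.H.MP_c33acd_lc.pin P.tf c (Subgroup.zpowers_le_of_mem ht) P.Da P.pin 1
      (S.π u) (fun h' i => by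
        rw [ac_one, eq_add_of_sub_eq e, map_add, map_sub, c.E_ac (Subgroup.mem_zpowers _)]
        simp)
    obtain ⟨k, hk⟩ := (c.ne _).mp (h1.trans_ne one_ne_zero)
    exact ⟨k, by simpa using hk.symm⟩
  · rintro ⟨c, hc⟩
    obtain ⟨_, ⟨b, hb, rfl⟩, e⟩ := pw1 _ S.DA_ac (S.π t) c (S.mem_DA P.a1)
    refine ⟨b, (P.inA _).mpr hb, ?_⟩
    rw [S.eqA (S.π_cm P.a1 _) (S.π_cm hb _), S.D_cm P.a1, S.D_cm hb, e, hc, T_apply]

lemma Par.nd {t t' : H} (ht : t ∈ N) (ht' : t' ∈ N) {e : ℤ} {m m' : H →₀ (ι → ℤ)}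
    (hm : m ∈ S.DA.map (T t)) (hm' : m' ∈ S.DA.map (T t')) (h : e • S.D a = m - m') : e = 0 := by
  classical
  have := P.nN
  have c := ch_ind N
  obtain ⟨p, hp⟩ := Finsupp.support_nonempty_iff.mpr P.Da
  obtain ⟨i, hi⟩ := Function.ne_iff.mp (Finsupp.mem_support_iff.mp hp)
  obtain ⟨m, -, rfl⟩ := hm
  obtain ⟨m', -, rfl⟩ := hm'
  have h1 := congrArg (E (fun g => if g ∈ N then (1 : ℤ) else 0) (1 * p) i) h
  have h2 := E_at c le_rfl P.pin 1 1 hp i (by simp)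
  rw [ac_one] at h2
  rw [map_zsmul, h2, T_apply, T_apply, map_sub, map_sub, map_sub, c.E_ac ht, c.E_ac ht'] at h1
  simpa [ht, ht', show S.D a p i ≠ 0 from hi] using h1

lemma Par.std : Std a r := by
  refine ⟨fun y => ?_, fun e he => P.tf.zpow P.r0 (by rw [← map_zpow, he, map_one]),
    fun e1 e2 e3 => ?_⟩
  · rw [It, P.cyc P.rN]
    constructor
    · rintro ⟨⟨c, hc⟩, h⟩
      refine ⟨c, ?_⟩
      have h1 : S.π (y * (r ^ c)⁻¹) = 1 := by simp [hc]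
      have h2 : Commute r (y * (r ^ c)⁻¹) :=
        (show Commute r y from h.symm).mul_right ((Commute.refl r).zpow_right c).inv_right
      have h3 := S.D_conjA h1 r
      rw [h2.eq, mul_inv_cancel_right] at h3
      exact mul_inv_eq_one.mp (S.inj h1 (fpf P.tf P.r0 h3.symm))
    · rintro ⟨e, rfl⟩
      exact ⟨⟨e, map_zpow _ _ _⟩, ((Commute.refl r).zpow_left e).eq⟩
  · simp only [Mu, P.ml (map_zpow _ r e1) P.r0 P.a1]
    have key : ∀ b, S.π b = 1 → ((∃ e, InA a e ∧ cm (r ^ e2) b = cm (r ^ e3) a * cm r (cm r e)) ↔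
        e2 • S.D b - e3 • S.D a ∈ S.DA.map (T (S.π r))) := by
      intro b hb
      rw [P.ex2 (S.π_cm hb _) (S.π_cm P.a1 _), S.D_cm hb, S.D_cm P.a1, map_zpow, map_zpow,
        ← P.TT P.r0]
      rw [map_sub, map_zsmul, map_zsmul, T_apply (_ ^ e2), T_apply (_ ^ e3)]
      apply mem_iff_sub
      convert sub_mem (pw2 _ S.DA_ac (S.π r) e2 (S.mem_DA hb))
        (pw2 _ S.DA_ac (S.π r) e3 (S.mem_DA P.a1)) using 1; abel
    constructor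
    · rintro ⟨b, ⟨hb, h1⟩, h2⟩
      rw [key b hb] at h2
      have := P.nd P.rN P.rN (e := e1 * e2 - e3) (add_mem (zsmul_mem h1 e2) h2) (zero_mem _)
        (by module)
      omega
    · rintro rfl
      have hb : S.π (a ^ e1) = 1 := by simp [P.a1]
      refine ⟨a ^ e1, ⟨hb, by simp [S.D_zpowA P.a1]⟩, (key _ hb).mpr ?_⟩
      rw [S.D_zpowA P.a1, smul_smul, mul_comm, sub_self]; exact zero_mem _

lemma Par.lk {t u : G} (ht : S.π t ∈ N) (ht' : S.π t ≠ 1) (c : ℕ) :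
    Lk a r t (r ^ c) u ↔ S.π u = S.π t ^ (c : ℤ) := by
  rw [Lk, P.cyc ht]
  have hr : S.π (r ^ c) = S.π r ^ (c : ℤ) := by simp
  constructor
  · rintro ⟨⟨c', hc⟩, b, h1, h2⟩
    rw [P.ml hr P.r0 P.a1] at h1
    rw [P.ml hc ht' P.a1] at h2
    have := P.nd P.rN ht (e := c - c') h1.2 h2.2 (by module)
    rw [hc, show c' = c by omega]
  · intro h
    have hb : S.π (a ^ (c : ℤ)) = 1 := by simp [P.a1]
    refine ⟨⟨_, h⟩, a ^ (c : ℤ), ?_, ?_⟩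
    · rw [P.ml hr P.r0 P.a1, S.D_zpowA P.a1, sub_self]; exact ⟨hb, zero_mem _⟩
    · rw [P.ml h ht' P.a1, S.D_zpowA P.a1, sub_self]; exact ⟨hb, zero_mem _⟩

omit P in
def W (S : Mag G H ι) (s t : H) (c d : ℤ) (Y : G) (m : H →₀ (ι → ℤ)) : Prop :=
  S.π Y = 1 ∧ ∃ m' ∈ S.DA, S.D Y - d • m - (ac s m' - c • m') ∈ S.DA.map (T t)

lemma Par.cg {s t u δ Y b : G} {c d : ℤ} (hu : S.π u = S.π t ^ c) (hδ : S.π δ = S.π t ^ d)
    (ht : S.π t ≠ 1) (hb : S.π b = 1) :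
    Cg a s t u δ Y b ↔ S.W (S.π s) (S.π t) c d Y (S.D b) := by
  simp only [Cg, P.inA, P.ml hδ ht hb]
  constructor
  · rintro ⟨b1, b2, b3, h2, ⟨h1, h4⟩, h3, rfl⟩
    rw [P.ml hu ht h2] at h3
    refine ⟨by simp [h1, h2, h3.1], _, S.mem_DA h2, ?_⟩
    rw [S.D_mulA (by simp [h1, h2]), S.D_mulA h1, S.D_conjA h2, S.D_invA h3.1]
    convert sub_mem h3.2 h4 using 1; abel
  · rintro ⟨hY, _, ⟨b2, h2, rfl⟩, h⟩
    have h3 : S.π (b2 ^ c) = 1 := by simp [h2]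
    refine ⟨Y * b2 ^ c * (s * b2 * s⁻¹)⁻¹, b2, b2 ^ c, h2, ⟨by simp [hY, h2], ?_⟩, ?_, by group⟩
    · rw [S.D_mulA (by simp [hY, h2]), S.D_mulA hY, S.D_invA (by simp [h2]), S.D_conjA h2,
        S.D_zpowA h2]
      convert neg_mem h using 1; abel
    · rw [P.ml hu ht h2, S.D_zpowA h2, sub_self]; exact ⟨h3, zero_mem _⟩

lemma Par.τ1 {s : G} (hs : S.π s ∈ Λ) (g : G) : S.π (cm s (g * s * g⁻¹)) = 1 := by
  have := P.cΛ _ hs _ (P.nΛ.conj_mem _ hs (S.π g))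
  simp only [cm, map_mul, map_inv]
  rw [this]; group

lemma Par.cd {s t Y δ Z ε g : G} {d d' : ℤ} (hδ : S.π δ = S.π t ^ d) (hε : S.π ε = S.π t ^ d')
    (ht : S.π t ∈ N) (ht' : S.π t ≠ 1) (hs : S.π s ∈ Λ) (c : ℕ) :
    Cd a r s t Y δ Z ε (r ^ c) g ↔ S.W (S.π s) (S.π t) c d Y (ac (S.π g) (S.D a)) ∧
      S.W (S.π s) (S.π t) c d' Z (S.D (cm s (g * s * g⁻¹))) := by
  simp only [Cd, P.lk ht ht']
  have h1 : S.π (g * a * g⁻¹) = 1 := by simp [P.a1]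
  rw [← S.D_conjA P.a1]
  constructor
  · rintro ⟨u, hu, h2, h3⟩
    exact ⟨(P.cg hu hδ ht' h1).mp h2, (P.cg hu hε ht' (P.τ1 hs g)).mp h3⟩
  · rintro ⟨h2, h3⟩
    have hu : S.π (t ^ (c : ℤ)) = S.π t ^ (c : ℤ) := map_zpow _ _ _
    exact ⟨_, hu, (P.cg hu hδ ht' h1).mpr h2, (P.cg hu hε ht' (P.τ1 hs g)).mpr h3⟩

omit P in
lemma lagr (S : Mag G H ι) (s t : H) (c : ℕ → ℤ) (hc : Function.Injective c)
    (b : ℕ → H →₀ (ι → ℤ)) (hb : ∀ j, b j ∈ S.DA) (L : ℕ) :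
    ∃ (d : ℤ) (Y : G), d ≠ 0 ∧ ∀ j < L, S.W s t (c j) d Y (b j) := by
  let σ : Module.End ℤ S.DA :=
    (((ac s).comp S.DA.subtype).codRestrict S.DA (fun m => S.DA_ac s _ m.2)).toIntLinearMap
  obtain ⟨d, ⟨_, Y, hY, rfl⟩, hd, h⟩ := lagrange σ c hc (fun j => ⟨b j, hb j⟩) L
  refine ⟨d, Y, hd, fun j hj => ⟨hY, ?_⟩⟩
  obtain ⟨m, hm⟩ := h j hj
  have : S.D Y - d • b j = ac s m - c j • (m : H →₀ (ι → ℤ)) := congrArg Subtype.val hm
  exact ⟨m, m.2, by rw [this, sub_self]; exact zero_mem _⟩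

theorem Par.complete {k : ℕ} (hk : 1 < k) {l : ℕ → G} (h0 : l 0 = 1) (m : ℕ) :
    Ev a r s0 t0 k l m (ev k l m) := by
  intro s t q hs ht ht' hq
  obtain ⟨i, hi⟩ := (P.cyc P.sN _).mp hs
  obtain ⟨j, hj⟩ := (P.cyc P.tN _).mp ht
  rw [P.inA] at ht'
  have sΛ : S.π s ∈ Λ := hi ▸ Λ.zpow_mem P.sΛ _
  have tN : S.π t ∈ N := hj ▸ N.zpow_mem P.tN _
  have hc : Function.Injective fun j : ℕ => ((1 + q * (j + 1) : ℕ) : ℤ) := by
    intro x y h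
    have : 1 + q * (x + 1) = 1 + q * (y + 1) := Nat.cast_injective (R := ℤ) h
    simpa [hq] using this
  obtain ⟨d, Y, hd, h1⟩ := S.lagr (S.π s) (S.π t) _ hc
    (fun j => ac (S.π (ev k l (m / k ^ j))) (S.D a)) (fun j => S.DA_ac _ _ (S.mem_DA P.a1)) (m + 1)
  obtain ⟨d', Z, hd', h2⟩ := S.lagr (S.π s) (S.π t) _ hc
    (fun j => S.D (cm s (ev k l (m / k ^ j) * s * (ev k l (m / k ^ j))⁻¹)))
    (fun j => S.mem_DA (P.τ1 sΛ _)) (m + 1)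
  have h3 : ∀ j < m + 1, Cd a r s t Y (t ^ d) Z (t ^ d') (r ^ (1 + q * (j + 1)))
      (ev k l (m / k ^ j)) := fun j hj =>
    (P.cd (map_zpow _ _ _) (map_zpow _ _ _) tN ht' sΛ _).mpr ⟨h1 j hj, h2 j hj⟩
  refine ⟨Y, t ^ d, Z, t ^ d', (P.cyc tN _).mpr ⟨_, map_zpow _ _ _⟩, fun h => ?_,
    (P.cyc tN _).mpr ⟨_, map_zpow _ _ _⟩, fun h => ?_, ?_, ?_, fun j hj => ?_⟩
  · rw [P.inA, map_zpow] at h; exact hd (P.tf.zpow ht' h)
  · rw [P.inA, map_zpow] at h; exact hd' (P.tf.zpow ht' h)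
  · simpa using h3 0 (by omega)
  · have := h3 m (by omega)
    rwa [Nat.div_eq_of_lt (Nat.lt_pow_self hk), ev_zero] at this
  · refine ⟨_, h3 (j + 1) (by omega), ⟨m / k ^ j % k, Nat.mod_lt _ (by omega)⟩, rfl, ?_⟩
    have := h3 j (by omega)
    rwa [ev_step hk h0, Nat.div_div_eq_div_mul, ← pow_succ] at this

lemma Par.key (M : Subgroup G) [M.Normal] {q : ℕ} (hq : ∀ α, S.π α = 1 → α ^ q ∈ M) {s t : G}
    (sN : S.π s ∈ N) (tN : S.π t ∈ N) (sΛ : S.π s ∈ Λ) (tΛ : S.π t ∈ Λ) (sM : s ∈ M) (tM : t ∈ M)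
    (ind : ∀ h (k j : ℤ), (h * S.π s * h⁻¹) ^ k = S.π t ^ j → k = 0) {c d d' : ℤ} (hc : 2 ≤ c)
    (hqc : (q : ℤ) ∣ c - 1) (hd : d ≠ 0) (hd' : d' ≠ 0) {Y Z g g' : G}
    (h1 : S.W (S.π s) (S.π t) c d Y (ac (S.π g) (S.D a)))
    (h2 : S.W (S.π s) (S.π t) c d' Z (S.D (cm s (g * s * g⁻¹))))
    (h1' : S.W (S.π s) (S.π t) c d Y (ac (S.π g') (S.D a)))
    (h2' : S.W (S.π s) (S.π t) c d' Z (S.D (cm s (g' * s * g'⁻¹)))) : g' * g⁻¹ ∈ M := by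
  have := P.nN
  let R := Localization.Away c
  have hp : Submonoid.powers c ≤ nonZeroDivisors ℤ :=
    powers_le_nonZeroDivisors_of_noZeroDivisors (by omega)
  have : IsDomain R := IsLocalization.isDomain_localization hp
  have : CharZero R := charZero_of_injective_algebraMap (IsLocalization.injective R hp)
  obtain ⟨u, hu⟩ := IsLocalization.Away.algebraMap_isUnit (S := R) c
  have hu' : (u : R) = (c : R) := by simpa using hu
  have hu1 : ∀ i : ℤ, ((u ^ i : Rˣ) : R) = 1 → i = 0 := by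
    intro i hi
    have h3 : u ^ i.natAbs = 1 := by
      rw [Units.val_eq_one] at hi
      rcases Int.natAbs_eq i with h | h <;> rw [h] at hi <;> simpa using hi
    have h4 : ((c ^ i.natAbs : ℤ) : R) = (1 : ℤ) := by
      rw [Int.cast_pow, ← hu', ← Units.val_pow_eq_pow_val, h3]; simp
    have h5 := Int.cast_injective h4
    by_contra h0
    have := one_lt_pow₀ (show 1 < c by omega) (show i.natAbs ≠ 0 by omega)
    omega
  obtain ⟨Γ, χ, ch, hΓ, hχ⟩ := exists_ch (S.π s) (S.π t) (P.cΛ _ sΛ _ tΛ)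
    (fun k j h => ind 1 k j (by simpa using h)) u
  have hle : ∀ X : Subgroup H, S.π s ∈ X → S.π t ∈ X → Γ ≤ X := by
    intro X hs ht γ hγ
    obtain ⟨i, j, rfl⟩ := hΓ γ hγ
    exact X.mul_mem (X.zpow_mem hs _) (X.zpow_mem ht _)
  have χs : χ (S.π s) = c := by simpa [hu'] using hχ 1 0
  have χt : χ (S.π t) = 1 := by simpa using hχ 0 1
  have sΓ : S.π s ∈ Γ := (ch.ne _).mp (χs.trans_ne (Int.cast_ne_zero.mpr (by omega)))
  have tΓ : S.π t ∈ Γ := (ch.ne _).mp (χt.trans_ne one_ne_zero)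
  have hW : ∀ {e : ℤ} {X : G} {m m' : H →₀ (ι → ℤ)}, e ≠ 0 → S.W (S.π s) (S.π t) c e X m →
      S.W (S.π s) (S.π t) c e X m' → ∀ h' i, E χ h' i m = E χ h' i m' := by
    have : ∀ {e : ℤ} {X : G} {m : H →₀ (ι → ℤ)}, S.W (S.π s) (S.π t) c e X m → ∀ h' i,
        E χ h' i (S.D X) = e * E χ h' i m := by
      rintro e X m ⟨-, m1, -, m2, -, h⟩ h' i
      have := congrArg (E χ h' i) h
      rw [T_apply, map_sub, map_sub, map_sub, map_sub, map_zsmul, map_zsmul, ch.E_ac sΓ,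
        ch.E_ac tΓ, χs, χt, zsmul_eq_mul, zsmul_eq_mul] at this
      linear_combination -this
    intro e X m m' he h h' x i
    exact mul_left_cancel₀ (Int.cast_ne_zero.mpr he) ((this h x i).symm.trans (this h' x i))
  have h3 := Pool.Agent.H.MP_c33acd_lc.pin P.tf ch (hle _ sN tN) P.Da P.pin _ _ (hW hd h1 h1')
  obtain ⟨y, rfl⟩ : ∃ y, g' = y * g := ⟨g' * g⁻¹, by group⟩
  rw [map_mul, mul_inv_cancel_right] at h3
  have yΓ : S.π y ∈ Γ := (ch.ne _).mp (h3.trans_ne one_ne_zero)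
  have yΛ := hle _ sΛ tΛ yΓ
  set w := g * s * g⁻¹ with hw
  have wΛ : S.π w ∈ Λ := by simpa [hw] using P.nΛ.conj_mem _ sΛ (S.π g)
  have hτ : ∀ v, S.π v ∈ Λ → S.D (cm s v) = S.D s + ac (S.π s) (S.D v) - S.D v -
      ac (S.π v) (S.D s) := by
    intro v hv
    have e : S.π (s * v * s⁻¹) = S.π v := by
      rw [map_mul, map_mul, P.cΛ _ sΛ _ hv]; simp
    rw [cm, S.mul, S.D_conj, S.D_inv, e, map_neg, ← ac_mul, mul_inv_cancel, ac_one]; abel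
  have e1 : S.π (y * w * y⁻¹) = S.π w := by
    rw [map_mul, map_mul, P.cΛ _ yΛ _ wΛ]; simp
  have h4 := hW hd' h2 h2'
  rw [show y * g * s * (y * g)⁻¹ = y * w * y⁻¹ by rw [hw]; group, hτ _ wΛ, hτ _ (e1 ▸ wΛ), e1,
    S.D_conj y w, e1] at h4
  have h5 := cancel ch (S.π w) (fun γ hγ => P.cΛ _ wΛ _ (hle _ sΛ tΛ hγ)) (fun k hk => by
    obtain ⟨i, j, e⟩ := hΓ _ ((ch.ne _).mp (hk.trans_ne one_ne_zero))
    rw [e, hχ] at hk
    rw [hu1 i hk, zpow_zero, one_mul, hw, map_mul, map_mul, map_inv, ← zpow_natCast] at e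
    exact_mod_cast ind _ _ _ e) (S.D y) (fun h' i => by
    have := h4 h' i
    simp only [map_sub, map_add, ch.E_ac sΓ, ch.E_ac yΓ, χs, h3] at this
    have h6 : (c : R) - 1 ≠ 0 := by
      have : ((c - 1 : ℤ) : R) ≠ 0 := Int.cast_ne_zero.mpr (by omega)
      simpa using this
    apply mul_left_cancel₀ h6
    linear_combination this)
  have hc1 : (c : ZMod q) = 1 := by
    have := (ZMod.intCast_zmod_eq_zero_iff_dvd _ _).mpr hqc
    rwa [Int.cast_sub, Int.cast_one, sub_eq_zero] at this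
  let f : R →+* ZMod q := IsLocalization.Away.lift c (g := Int.castRingHom (ZMod q))
    (by simp [hc1])
  have : (M.map S.π).Normal := Subgroup.Normal.map inferInstance _ S.surj
  have hM := hle (M.map S.π) ⟨s, sM, rfl⟩ ⟨t, tM, rfl⟩
  rw [mul_inv_cancel_right]
  refine S.mag M q hq y (hM yΓ) (red ch hM q f (fun γ hγ => ?_) _ h5)
  obtain ⟨i, j, rfl⟩ := hΓ γ hγ
  have : Units.map (f : R →* ZMod q) u = 1 := Units.ext (by
    change f u = 1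
    rw [hu', map_intCast, hc1])
  rw [hχ]
  change ((Units.map (f : R →* ZMod q) (u ^ i) : (ZMod q)ˣ) : ZMod q) = 1
  rw [map_zpow, this]; simp

theorem Par.sound [Group.ResiduallyFinite G] {k : ℕ} (hk : 1 < k) {l : ℕ → G} (h0 : l 0 = 1)
    {m : ℕ} {g : G} (h : Ev a r s0 t0 k l m g) : g = ev k l m := by
  rw [← mul_inv_eq_one]
  refine Group.eq_one_iff_forall_finiteIndexNormalSubroup _ fun M => ?_
  set q := M.toSubgroup.index with hq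
  have q0 : q ≠ 0 := Subgroup.FiniteIndex.index_ne_zero
  have hp : ∀ x : G, x ^ q ∈ M.toSubgroup := fun x => Subgroup.pow_index_mem _ x
  have t1 : S.π (t0 ^ q) ≠ 1 := fun e => P.t0' (P.tf _ q q0 (by rwa [← map_pow]))
  have sN : S.π (s0 ^ q) ∈ N := by rw [map_pow]; exact N.pow_mem P.sN _
  have tN : S.π (t0 ^ q) ∈ N := by rw [map_pow]; exact N.pow_mem P.tN _
  have sΛ : S.π (s0 ^ q) ∈ Λ := by rw [map_pow]; exact Λ.pow_mem P.sΛ _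
  have tΛ : S.π (t0 ^ q) ∈ Λ := by rw [map_pow]; exact Λ.pow_mem P.tΛ _
  obtain ⟨Y, δ, Z, ε, h1, h2, h3, h4, h5, h6, h7⟩ := h (s0 ^ q) (t0 ^ q) q
    ((P.cyc P.sN _).mpr ⟨q, by simp⟩) ((P.cyc P.tN _).mpr ⟨q, by simp⟩) (by rwa [P.inA]) q0
  obtain ⟨d, hd⟩ := (P.cyc tN _).mp h1
  obtain ⟨d', hd'⟩ := (P.cyc tN _).mp h3
  rw [P.inA] at h2 h4
  have key : ∀ j x x', Cd a r (s0 ^ q) (t0 ^ q) Y δ Z ε (r ^ (1 + q * (j + 1))) x →
      Cd a r (s0 ^ q) (t0 ^ q) Y δ Z ε (r ^ (1 + q * (j + 1))) x' →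
      (x' : G ⧸ M.toSubgroup) = x := by
    intro j x x' hx hx'
    rw [P.cd hd hd' tN t1 sΛ] at hx hx'
    have := P.key M.toSubgroup (fun α _ => hp α) sN tN sΛ tΛ (hp _) (hp _) (fun h i j e => by
      rw [map_pow, map_pow, ← conj_pow, ← zpow_natCast, ← zpow_natCast, ← zpow_mul,
        ← zpow_mul] at e
      simpa [q0] using P.ind _ _ _ e) (by
        have : 1 ≤ q * (j + 1) := Nat.pos_of_ne_zero (by simp [q0])
        omega) (by simp) (by rintro rfl; simp [h2] at hd) (by rintro rfl; simp [h4] at hd')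
      hx.1 hx.2 hx'.1 hx'.2
    rw [← mul_inv_eq_one, ← QuotientGroup.mk_inv, ← QuotientGroup.mk_mul,
      QuotientGroup.eq_one_iff]
    exact this
  have main : ∀ i j, i + j = m → ∀ x,
      Cd a r (s0 ^ q) (t0 ^ q) Y δ Z ε (r ^ (1 + q * (j + 1))) x →
      (x : G ⧸ M.toSubgroup) = ev k l (m / k ^ j) := by
    intro i
    induction i with
    | zero =>
      rintro j hj x hx
      rw [zero_add] at hj
      subst hj
      rw [Nat.div_eq_of_lt (Nat.lt_pow_self hk), ev_zero, key _ _ _ h6 hx]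
    | succ i ih =>
      intro j hj x hx
      obtain ⟨y, hy, i', hi', hy'⟩ := h7 j (by omega)
      rw [key _ _ _ hy' hx, ev_step hk h0, hi', QuotientGroup.mk_mul, QuotientGroup.mk_mul,
        ih (j + 1) (by omega) y hy, Nat.div_div_eq_div_mul, ← pow_succ]
  have := main m 0 rfl g h5
  rw [pow_zero, Nat.div_one, ← mul_inv_eq_one, ← QuotientGroup.mk_inv, ← QuotientGroup.mk_mul,
    QuotientGroup.eq_one_iff] at this
  exact this

theorem Par.ev_iff [Group.ResiduallyFinite G] {k : ℕ} (hk : 1 < k) {l : ℕ → G} (h0 : l 0 = 1)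
    (m : ℕ) (g : G) : Ev a r s0 t0 k l m g ↔ g = ev k l m :=
  ⟨P.sound hk h0, fun h => h ▸ P.complete hk h0 m⟩

end Mag

theorem exists_par (n : ℕ) (hn : 2 ≤ n) (e : ℕ) : ∃ N a s0 t0, ∃ k : ℕ, k ≠ 0 ∧
    (magFS (Fin n) (e + 1)).Par N (piFS _ e).ker a
      (QuotientGroup.mk (FreeGroup.of ⟨0, by omega⟩) ^ k) s0 t0 := by
  classical
  let S := magFS (Fin n) (e + 1)
  have tf := tf_FS (Fin n) (e + 1)
  obtain ⟨w, hw1, hw2⟩ := ds_ne n hn (e + 1)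
  obtain ⟨s, t, hs, ht, ht1, ind⟩ := exists_st n hn e
  obtain ⟨s, rfl⟩ := S.surj s
  obtain ⟨t, rfl⟩ := S.surj t
  let X := (S.D (QuotientGroup.mk w)).support
  obtain ⟨N, h1, h2, h3⟩ := exists_avoid (Finset.image₂ (fun p q => p * q)
    (Finset.image₂ (fun p q => p * q⁻¹) (Finset.image₂ (fun p q => p⁻¹ * q) X X) X) X)
  have q0 : N.index ≠ 0 := h2.index_ne_zero
  have hp : ∀ x, S.π (x ^ N.index) ∈ N := fun x => by
    rw [map_pow]; exact Subgroup.pow_index_mem _ _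
  have h4 : ∀ x, S.π x ≠ 1 → S.π (x ^ N.index) ≠ 1 := fun x hx e =>
    hx (tf _ _ q0 (by rwa [← map_pow]))
  refine ⟨N, QuotientGroup.mk w, s ^ N.index, t ^ N.index, N.index, q0, tf,
    (QuotientGroup.eq_one_iff _).mpr hw1, fun h => hw2 ((QuotientGroup.eq_one_iff _).mp h), h1,
    fun p1 h1 p2 h2 p3 h3' p4 h4 => h3 _ (Finset.mem_image₂_of_mem (Finset.mem_image₂_of_mem
      (Finset.mem_image₂_of_mem h1 h2) h3') h4), hp _, hp _, hp _, h4 _ ?_, h4 _ ht1,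
    inferInstance, fun x hx y hy => piFS_comm _ _ x y hx hy, ?_, ?_, fun h i j e => ?_⟩
  · intro h
    have h5 := (QuotientGroup.eq_one_iff _).mp h
    have h6 := derivedSeries_antitone _ (show 1 ≤ e + 1 by omega) h5
    have := Abelianization.commutator_subset_ker
      (FreeGroup.lift (fun _ => Multiplicative.ofAdd (1 : ℤ))) h6
    simp at this
  · rw [map_pow]; exact Subgroup.pow_mem _ hs _
  · rw [map_pow]; exact Subgroup.pow_mem _ ht _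
  · rw [map_pow, map_pow, ← conj_pow, ← zpow_natCast, ← zpow_natCast, ← zpow_mul,
      ← zpow_mul] at e
    simpa [q0] using ind _ _ _ e

end Pool.Agent.H.MP_c33acd_lc
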