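import Pool.Agent.H.MP_c33acd_lc.C

set_option autoImplicit false

namespace Pool.Agent.H.MP_c33acd_lc

inductive Ar : (α : Type) → ((α → ℕ) → Prop) → Prop
  | add {α : Type} (i j k : α) : Ar α fun v => v i + v j = v k
  | mul {α : Type} (i j k : α) : Ar α fun v => v i * v j = v k
  | not {α : Type} {P : (α → ℕ) → Prop} : Ar α P → Ar α fun v => ¬ P v
  | and {α : Type} {P Q : (α → ℕ) → Prop} : Ar α P → Ar α Q → Ar α fun v => P v ∧ Q v
  | ex0 {α : Type} {P : (Option α → ℕ) → Prop} :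
      Ar (Option α) P → Ar α fun v => ∃ x, P fun o => o.elim x v

def NT (α : Type) (f : (α → ℕ) → ℕ) : Prop :=
  Ar (Option α) fun w => w none = f fun a => w (some a)

section ar
variable {α β : Type} {P Q : (α → ℕ) → Prop} {s t : (α → ℕ) → ℕ}

lemma Ar.congr (h : Ar α P) (e : ∀ v, P v ↔ Q v) : Ar α Q := by
  rwa [show Q = P from funext fun v => propext (e v).symm]

lemma Ar.rel (h : Ar α P) : ∀ {β : Type} (g : α → β), Ar β fun w => P fun a => w (g a) := by
  induction h with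
  | add i j k => exact fun g => Ar.add _ _ _
  | mul i j k => exact fun g => Ar.mul _ _ _
  | not _ ih => exact fun g => (ih g).not
  | and _ _ ih ih' => exact fun g => (ih g).and (ih' g)
  | ex0 _ ih =>
    refine fun g => (Ar.ex0 (ih (Option.map g))).congr fun v => exists_congr fun x => ?_
    apply iff_of_eq; congr 1; ext o; cases o <;> rfl

lemma Ar.ex {P : ℕ → (α → ℕ) → Prop}
    (h : Ar (Option α) fun w => P (w none) fun a => w (some a)) : Ar α fun v => ∃ x, P x v :=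
  Ar.ex0 h

lemma Ar.or (h : Ar α P) (h' : Ar α Q) : Ar α fun v => P v ∨ Q v :=
  (h.not.and h'.not).not.congr fun v => by tauto

lemma Ar.imp (h : Ar α P) (h' : Ar α Q) : Ar α fun v => P v → Q v :=
  (h.and h'.not).not.congr fun v => by tauto

lemma Ar.all {P : ℕ → (α → ℕ) → Prop}
    (h : Ar (Option α) fun w => P (w none) fun a => w (some a)) : Ar α fun v => ∀ x, P x v :=
  (Ar.ex (P := fun x v => ¬ P x v) h.not).not.congr fun v => by simp

lemma Ar.const (p : Prop) : Ar α fun _ => p := by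
  have : Ar α fun _ => ∃ x : ℕ, x + x = x := Ar.ex (Ar.add none none none)
  by_cases h : p
  · exact this.congr fun _ => ⟨fun _ => h, fun _ => ⟨0, rfl⟩⟩
  · exact this.not.congr fun _ => ⟨fun h' => absurd ⟨0, rfl⟩ h', fun h' => absurd h' h⟩

lemma Ar.exF {k : ℕ} {P : Fin k → (α → ℕ) → Prop} (h : ∀ i, Ar α (P i)) :
    Ar α fun v => ∃ i, P i v := by
  induction k with
  | zero => exact (Ar.const False).congr fun v => by simp
  | succ k ih => exact ((h 0).or (ih fun i => h i.succ)).congr fun v => by rw [Fin.exists_fin_succ]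

lemma Ar.eq0 (i j : α) : Ar α fun v => v i = v j :=
  (Ar.ex (P := fun x v => x + x = x ∧ v i + x = v j)
    ((Ar.add none none none).and (Ar.add (some i) none (some j)))).congr fun v =>
    ⟨fun ⟨x, h1, h2⟩ => by omega, fun h => ⟨0, rfl, h⟩⟩

lemma NT.var (a : α) : NT α fun v => v a := Ar.eq0 _ _

lemma NT.rel (h : NT α t) (g : α → β) : NT β fun w => t fun a => w (g a) :=
  Ar.rel h (Option.map g)

lemma Ar.eq (hs : NT α s) (ht : NT α t) : Ar α fun v => s v = t v :=
  (Ar.ex (P := fun x v => x = s v ∧ x = t v) (Ar.and hs ht)).congr fun v => by simp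

lemma NT.bin {f : ℕ → ℕ → ℕ} (h : ∀ (γ : Type) (i j k : γ), Ar γ fun v => f (v i) (v j) = v k)
    (hs : NT α s) (ht : NT α t) : NT α fun v => f (s v) (t v) :=
  (Ar.ex (P := fun x w => ∃ y, x = s (fun a => w (some a)) ∧ y = t (fun a => w (some a)) ∧
      f x y = w none) (Ar.ex ((Ar.eq (NT.var _) (hs.rel _)).and
      ((Ar.eq (NT.var _) (ht.rel _)).and (h _ _ _ _))))).congr fun v => by simp [eq_comm]

lemma NT.add (hs : NT α s) (ht : NT α t) : NT α fun v => s v + t v :=
  NT.bin (f := (· + ·)) (fun _ => Ar.add) hs ht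

lemma NT.mul (hs : NT α s) (ht : NT α t) : NT α fun v => s v * t v :=
  NT.bin (f := (· * ·)) (fun _ => Ar.mul) hs ht

lemma NT.const (n : ℕ) : NT α fun _ => n := by
  induction n with
  | zero => exact (Ar.add none none none).congr fun v => by simp
  | succ n ih =>
    refine NT.add ih (((Ar.mul none none none).and (Ar.add none none none).not).congr fun v => ?_)
    constructor
    · rintro ⟨h1, h2⟩
      exact (mul_right_eq_self₀.mp h1).resolve_right (by omega)
    · intro h; simp [h]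

lemma Ar.lt (hs : NT α s) (ht : NT α t) : Ar α fun v => s v < t v :=
  (Ar.ex (P := fun x v => s v + x + 1 = t v)
    (Ar.eq (((hs.rel _).add (NT.var _)).add (NT.const 1)) (ht.rel _))).congr fun v =>
    ⟨fun ⟨x, h⟩ => by omega, fun h => ⟨t v - s v - 1, by omega⟩⟩

lemma NT.div (hs : NT α s) (ht : NT α t) : NT α fun v => s v / t v := by
  refine NT.bin (f := (· / ·)) (fun γ i j k => ?_) hs ht
  refine (((Ar.eq (NT.var j) (NT.const 0)).and (Ar.eq (NT.var k) (NT.const 0))).or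
    (Ar.ex (P := fun x v => x < v j ∧ v i = v j * v k + x) ((Ar.lt (NT.var _) (NT.var _)).and
      (Ar.eq (NT.var _) (((NT.var _).mul (NT.var _)).add (NT.var _)))))).congr fun v => ?_
  constructor
  · rintro (⟨h1, h2⟩ | ⟨x, h1, h2⟩)
    · simp [h1, h2]
    · rw [h2, Nat.mul_add_div (by omega), Nat.div_eq_of_lt h1, add_zero]
  · intro h
    rcases Nat.eq_zero_or_pos (v j) with h0 | h0
    · left; rw [← h]; simp [h0]
    · exact Or.inr ⟨v i % v j, Nat.mod_lt _ h0, by rw [← h, Nat.div_add_mod]⟩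

lemma NT.mod (hs : NT α s) (ht : NT α t) : NT α fun v => s v % t v := by
  refine NT.bin (f := (· % ·)) (fun γ i j k => ?_) hs ht
  refine (Ar.eq (((NT.var j).mul ((NT.var i).div (NT.var j))).add (NT.var k))
    (NT.var i)).congr fun v => ?_
  have := Nat.div_add_mod (v i) (v j)
  omega

lemma beta_ex (f : ℕ → ℕ) (L : ℕ) : ∃ u v, ∀ j ≤ L, u % ((j + 1) * v + 1) = f j := by
  refine ⟨_, _, fun j hj => (Nat.beta_unbeta_coe ((List.range (L + 1)).map f)
    ⟨j, by simpa using Nat.lt_succ_of_le hj⟩).trans (by simp)⟩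

lemma tc_iff (R : ℕ × ℕ → ℕ × ℕ → Prop) (a b c d : ℕ) :
    Relation.ReflTransGen R (a, b) (c, d) ↔ ∃ L u v u' v', u % ((0 + 1) * v + 1) = a ∧
      u' % ((0 + 1) * v' + 1) = b ∧ u % ((L + 1) * v + 1) = c ∧ u' % ((L + 1) * v' + 1) = d ∧
      ∀ j, j < L → R (u % ((j + 1) * v + 1), u' % ((j + 1) * v' + 1))
        (u % ((j + 1 + 1) * v + 1), u' % ((j + 1 + 1) * v' + 1)) := by
  constructor
  · intro h
    have : ∀ q, Relation.ReflTransGen R (a, b) q → ∃ (L : ℕ) (f : ℕ → ℕ × ℕ), f 0 = (a, b) ∧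
        f L = q ∧ ∀ j < L, R (f j) (f (j + 1)) := by
      intro q h
      induction h with
      | refl => exact ⟨0, fun _ => (a, b), rfl, rfl, by simp⟩
      | @tail p q _ h ih =>
        obtain ⟨L, f, h1, h2, h3⟩ := ih
        refine ⟨L + 1, fun j => if j ≤ L then f j else q, by simpa, by simp, fun j hj => ?_⟩
        rcases Nat.lt_succ_iff_lt_or_eq.mp hj with hj | rfl
        · simpa [hj.le, Nat.succ_le_of_lt hj] using h3 j hj
        · simpa [h2] using h
    obtain ⟨L, f, h1, h2, h3⟩ := this _ h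
    obtain ⟨u, v, h4⟩ := beta_ex (fun j => (f j).1) L
    obtain ⟨u', v', h5⟩ := beta_ex (fun j => (f j).2) L
    refine ⟨L, u, v, u', v', by rw [h4 0 (by omega), h1], by rw [h5 0 (by omega), h1],
      by rw [h4 L le_rfl, h2], by rw [h5 L le_rfl, h2], fun j hj => ?_⟩
    rw [h4 j hj.le, h5 j hj.le, h4 (j + 1) hj, h5 (j + 1) hj]
    exact h3 j hj
  · rintro ⟨L, u, v, u', v', rfl, rfl, rfl, rfl, h⟩
    induction L with
    | zero => exact Relation.ReflTransGen.refl
    | succ L ih => exact (ih fun j hj => h j (by omega)).tail (h L (by omega))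

lemma NT.beta {u v j : (α → ℕ) → ℕ} (hu : NT α u) (hv : NT α v) (hj : NT α j) :
    NT α fun w => u w % ((j w + 1) * v w + 1) :=
  hu.mod (((hj.add (NT.const 1)).mul hv).add (NT.const 1))

lemma Ar.tc {R : ℕ × ℕ → ℕ × ℕ → Prop}
    (h : ∀ (γ : Type) (a b c d : (γ → ℕ) → ℕ), NT γ a → NT γ b → NT γ c → NT γ d →
      Ar γ fun v => R (a v, b v) (c v, d v))
    {a b c d : (α → ℕ) → ℕ} (ha : NT α a) (hb : NT α b) (hc : NT α c) (hd : NT α d) :
    Ar α fun v => Relation.ReflTransGen R (a v, b v) (c v, d v) := by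
  simp only [tc_iff]
  exact Ar.ex (Ar.ex (Ar.ex (Ar.ex (Ar.ex
    ((Ar.eq (NT.beta (NT.var _) (NT.var _) (NT.const 0)) (ha.rel _)).and
    ((Ar.eq (NT.beta (NT.var _) (NT.var _) (NT.const 0)) (hb.rel _)).and
    ((Ar.eq (NT.beta (NT.var _) (NT.var _) (NT.var _)) (hc.rel _)).and
    ((Ar.eq (NT.beta (NT.var _) (NT.var _) (NT.var _)) (hd.rel _)).and
    (Ar.all ((Ar.lt (NT.var _) (NT.var _)).imp (h _ _ _ _ _
      (NT.beta (NT.var _) (NT.var _) (NT.var _)) (NT.beta (NT.var _) (NT.var _) (NT.var _))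
      (NT.beta (NT.var _) (NT.var _) ((NT.var _).add (NT.const 1)))
      (NT.beta (NT.var _) (NT.var _) ((NT.var _).add (NT.const 1))))))))))))))

lemma NT.pow (k : ℕ) (ht : NT α t) : NT α fun v => k ^ t v := by
  refine (Ar.tc (R := fun p q => q.1 = p.1 + 1 ∧ q.2 = k * p.2) (fun γ a b c d ha hb hc hd =>
    (Ar.eq hc (ha.add (NT.const 1))).and (Ar.eq hd ((NT.const k).mul hb))) (NT.const 0)
    (NT.const 1) (ht.rel some) (NT.var none)).congr fun v => ?_
  have h1 : ∀ q : ℕ × ℕ, Relation.ReflTransGen (fun p q : ℕ × ℕ => q.1 = p.1 + 1 ∧ q.2 = k * p.2)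
      (0, 1) q → q.2 = k ^ q.1 := by
    intro q h
    induction h with
    | refl => simp
    | tail _ h ih => rw [h.1, h.2, ih, pow_succ']
  have h2 : ∀ j, Relation.ReflTransGen (fun p q : ℕ × ℕ => q.1 = p.1 + 1 ∧ q.2 = k * p.2)
      (0, 1) (j, k ^ j) := by
    intro j
    induction j with
    | zero => exact Relation.ReflTransGen.refl
    | succ j ih => exact ih.tail ⟨rfl, pow_succ' _ _⟩
  exact ⟨h1 _, fun h => h ▸ h2 _⟩

end ar

section words

def lt {K : Type} [Group K] (n : ℕ) (z : Fin n → K) (i : ℕ) : K :=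
  if h : 0 < i ∧ i ≤ n then z ⟨i - 1, by omega⟩
  else if h : n < i ∧ i ≤ 2 * n then (z ⟨i - n - 1, by omega⟩)⁻¹ else 1

lemma lt_zero {K : Type} [Group K] (n : ℕ) (z : Fin n → K) : lt n z 0 = 1 := by simp [lt]

def dec (n m : ℕ) : FreeGroup (Fin n) := ev (2 * n + 2) (lt n FreeGroup.of) m

lemma map_dec {K : Type} [Group K] {n : ℕ} (φ : FreeGroup (Fin n) →* K) (m : ℕ) :
    φ (dec n m) = ev (2 * n + 2) (lt n fun i => φ (FreeGroup.of i)) m := by
  rw [dec, ev, ev, map_list_prod, List.map_map]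
  congr 2
  ext i
  simp only [lt, Function.comp]
  split_ifs <;> simp

lemma dec_zero (n : ℕ) : dec n 0 = 1 := ev_zero _ _

lemma dec_cons (n : ℕ) (i : Fin (2 * n + 2)) (m : ℕ) :
    dec n (i + (2 * n + 2) * m) = lt n FreeGroup.of i * dec n m := by
  rw [dec, ev_step (by omega) (lt_zero _ _), Nat.add_mul_mod_self_left, Nat.mod_eq_of_lt i.2,
    Nat.add_mul_div_left _ _ (by omega), Nat.div_eq_of_lt i.2, zero_add]; rfl

def dg {n : ℕ} (x : Fin n × Bool) : Fin (2 * n + 2) :=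
  ⟨cond x.2 (x.1 + 1) (n + x.1 + 1), by have := x.1.2; cases x.2 <;> simp <;> omega⟩

lemma lt_dg {n : ℕ} (x : Fin n × Bool) : lt n FreeGroup.of (dg x) = FreeGroup.mk [x] := by
  obtain ⟨i, b⟩ := x
  have := i.2
  cases b
  · have h1 : ¬ (0 < n + i + 1 ∧ n + i + 1 ≤ n) := by omega
    have h2 : n < n + i + 1 ∧ n + i + 1 ≤ 2 * n := by omega
    simp only [lt, dg, cond_false, dif_neg h1, dif_pos h2]
    have : (⟨n + i + 1 - n - 1, by omega⟩ : Fin n) = i := Fin.ext (by simp; omega)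
    rw [this]; rfl
  · have h1 : 0 < (i : ℕ) + 1 ∧ (i : ℕ) + 1 ≤ n := by omega
    simp only [lt, dg, cond_true, dif_pos h1]
    rfl

lemma lt_cases (n i : ℕ) : lt n FreeGroup.of i = 1 ∨ ∃ x : Fin n × Bool, i = dg x := by
  by_cases h1 : 0 < i ∧ i ≤ n
  · exact Or.inr ⟨(⟨i - 1, by omega⟩, true), by simp [dg]; omega⟩
  by_cases h2 : n < i ∧ i ≤ 2 * n
  · exact Or.inr ⟨(⟨i - n - 1, by omega⟩, false), by simp [dg]; omega⟩
  left; simp only [lt, dif_neg h1, dif_neg h2]

def cd {n : ℕ} : List (Fin n × Bool) → ℕ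
  | [] => 0
  | x :: L => dg x + (2 * n + 2) * cd L

lemma dec_cd {n : ℕ} (L : List (Fin n × Bool)) : dec n (cd L) = FreeGroup.mk L := by
  induction L with
  | nil => exact dec_zero n
  | cons x L ih => rw [cd, dec_cons, ih, lt_dg, FreeGroup.mul_mk]; rfl

lemma dec_surj {n : ℕ} (w : FreeGroup (Fin n)) : ∃ m, dec n m = w :=
  ⟨cd w.toWord, by rw [dec_cd, FreeGroup.mk_toWord]⟩

def St (n : ℕ) (p q : ℕ × ℕ) : Prop := ∃ i : Fin (2 * n + 2), q.1 = i + (2 * n + 2) * p.1 ∧
  (q.2 = i + (2 * n + 2) * p.2 ∨ (lt n FreeGroup.of i = 1 ∧ q.2 = p.2) ∨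
    ∃ i' : Fin (2 * n + 2), lt n FreeGroup.of i * lt n FreeGroup.of i' = 1 ∧
      p.2 = i' + (2 * n + 2) * q.2)

lemma st_sound {n l : ℕ} {q : ℕ × ℕ} (h : Relation.ReflTransGen (St n) (0, l) q) :
    dec n q.2 = dec n q.1 * dec n l := by
  induction h with
  | refl => simp [dec_zero]
  | tail _ h ih =>
    obtain ⟨i, h1, h2 | ⟨h2, h3⟩ | ⟨i', h2, h3⟩⟩ := h
    · rw [h1, h2, dec_cons, dec_cons, ih, mul_assoc]
    · rw [h1, h3, dec_cons, ih, h2, one_mul]
    · rw [h1, dec_cons, mul_assoc, ← ih, h3, dec_cons, ← mul_assoc, h2, one_mul]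

lemma digit_ind (n : ℕ) {P : ℕ → Prop} (h0 : P 0)
    (h : ∀ (i : Fin (2 * n + 2)) m, P m → P (i + (2 * n + 2) * m)) (m : ℕ) : P m := by
  induction m using Nat.strong_induction_on with
  | _ m ih =>
    rcases Nat.eq_zero_or_pos m with rfl | hm
    · exact h0
    · have := h ⟨m % (2 * n + 2), Nat.mod_lt _ (by omega)⟩ _
        (ih (m / (2 * n + 2)) (Nat.div_lt_self hm (by omega)))
      rwa [Nat.mod_add_div] at this

lemma st_cat (n l m : ℕ) : ∃ l', Relation.ReflTransGen (St n) (0, l) (m, l') := by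
  induction m using digit_ind n with
  | h0 => exact ⟨l, Relation.ReflTransGen.refl⟩
  | h i m ih =>
    obtain ⟨l', h⟩ := ih
    exact ⟨_, h.tail ⟨i, rfl, Or.inl rfl⟩⟩

lemma st_red (n m : ℕ) : Relation.ReflTransGen (St n) (0, 0) (m, cd (dec n m).toWord) := by
  induction m using digit_ind n with
  | h0 => simpa [dec_zero, cd] using Relation.ReflTransGen.refl
  | h i m ih =>
    refine ih.tail ⟨i, rfl, ?_⟩
    rw [dec_cons]
    rcases lt_cases n i with h | ⟨x, hx⟩
    · exact Or.inr (Or.inl ⟨h, by rw [h, one_mul]⟩)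
    have e : (lt n FreeGroup.of i * dec n m).toWord = FreeGroup.reduce (x :: (dec n m).toWord) := by
      rw [hx, lt_dg, ← FreeGroup.toWord_mk]
      conv_lhs => rw [← FreeGroup.mk_toWord (x := dec n m), FreeGroup.mul_mk]
      rfl
    rw [e, FreeGroup.reduce.cons, FreeGroup.reduce_toWord]
    rcases (dec n m).toWord with _ | ⟨y, L⟩
    · left; simp [cd, hx]
    · dsimp only
      split_ifs with h
      · refine Or.inr (Or.inr ⟨dg y, ?_, rfl⟩)
        obtain ⟨x1, x2⟩ := x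
        obtain ⟨y1, y2⟩ := y
        dsimp only at h
        obtain ⟨rfl, rfl⟩ := h
        rw [hx, lt_dg, lt_dg, mul_eq_one_iff_eq_inv, FreeGroup.inv_mk]; simp [FreeGroup.invRev]
      · left; simp [cd, hx]

variable {α β : Type} {n : ℕ}

lemma Ar.rm {a b c : (α → ℕ) → ℕ} (ha : NT α a) (hb : NT α b) (hc : NT α c) :
    Ar α fun v => dec n (a v) * dec n (b v) = dec n (c v) := by
  have h : ∀ (γ : Type) (a b c d : (γ → ℕ) → ℕ), NT γ a → NT γ b → NT γ c → NT γ d →
      Ar γ fun v => St n (a v, b v) (c v, d v) := fun γ a b c d ha hb hc hd =>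
    Ar.exF fun i => (Ar.eq hc ((NT.const _).add ((NT.const _).mul ha))).and
      ((Ar.eq hd ((NT.const _).add ((NT.const _).mul hb))).or
      (((Ar.const _).and (Ar.eq hd hb)).or (Ar.exF fun i' => (Ar.const _).and
        (Ar.eq hb ((NT.const _).add ((NT.const _).mul hd))))))
  refine (Ar.ex (P := fun l v => ∃ l', Relation.ReflTransGen (St n) (0, b v) (a v, l) ∧
    Relation.ReflTransGen (St n) (0, 0) (l, l') ∧ Relation.ReflTransGen (St n) (0, 0) (c v, l'))
    (Ar.ex ((Ar.tc h (NT.const 0) (hb.rel _) (ha.rel _) (NT.var _)).and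
      ((Ar.tc h (NT.const 0) (NT.const 0) (NT.var _) (NT.var _)).and
        (Ar.tc h (NT.const 0) (NT.const 0) (hc.rel _) (NT.var _)))))).congr fun v => ?_
  constructor
  · rintro ⟨l, l', h1, h2, h3⟩
    have h1 := st_sound h1
    have h2 := st_sound h2
    have h3 := st_sound h3
    simp only [dec_zero, mul_one] at h1 h2 h3
    rw [← h1, ← h2, h3]
  · intro e
    obtain ⟨l, h1⟩ := st_cat n (b v) (a v)
    refine ⟨l, _, h1, st_red n l, ?_⟩
    rw [show dec n l = dec n (c v) from (st_sound h1).trans e]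
    exact st_red n _

def FT (n : ℕ) (α : Type) (f : (α → ℕ) → FreeGroup (Fin n)) : Prop :=
  Ar (Option α) fun w => dec n (w none) = f fun a => w (some a)

variable {s t : (α → ℕ) → FreeGroup (Fin n)}

lemma FT.dec {a : (α → ℕ) → ℕ} (ha : NT α a) : FT n α fun v => dec n (a v) :=
  (Ar.rm (n := n) (NT.var none) (NT.const 0) (ha.rel some)).congr fun v => by simp [dec_zero]

lemma FT.rel (h : FT n α t) (g : α → β) : FT n β fun w => t fun a => w (g a) :=
  Ar.rel h (Option.map g)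

lemma Ar.feq (hs : FT n α s) (ht : FT n α t) : Ar α fun v => s v = t v :=
  (Ar.ex (P := fun x v => dec n x = s v ∧ dec n x = t v) (Ar.and hs ht)).congr fun v =>
    ⟨fun ⟨_, h1, h2⟩ => h1.symm.trans h2, fun h => by
      obtain ⟨m, hm⟩ := dec_surj (s v); exact ⟨m, hm, hm.trans h⟩⟩

lemma FT.mul (hs : FT n α s) (ht : FT n α t) : FT n α fun v => s v * t v :=
  (Ar.ex (P := fun x w => ∃ y, Pool.Agent.H.MP_c33acd_lc.dec n x = s (fun a => w (some a)) ∧
      Pool.Agent.H.MP_c33acd_lc.dec n y = t (fun a => w (some a)) ∧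
      Pool.Agent.H.MP_c33acd_lc.dec n x * Pool.Agent.H.MP_c33acd_lc.dec n y =
        Pool.Agent.H.MP_c33acd_lc.dec n (w none))
    (Ar.ex ((Ar.feq (FT.dec (NT.var _)) (hs.rel _)).and
      ((Ar.feq (FT.dec (NT.var _)) (ht.rel _)).and
        (Ar.rm (NT.var _) (NT.var _) (NT.var _)))))).congr fun v =>
    ⟨fun ⟨_, _, h1, h2, h3⟩ => by rw [← h3, h1, h2], fun h => by
      obtain ⟨x, hx⟩ := dec_surj (s fun a => v (some a))
      obtain ⟨y, hy⟩ := dec_surj (t fun a => v (some a))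
      exact ⟨x, y, hx, hy, by rw [hx, hy, h]⟩⟩

lemma FT.const (w : FreeGroup (Fin n)) : FT n α fun _ => w := by
  obtain ⟨m, rfl⟩ := dec_surj w
  exact FT.dec (NT.const m)

lemma FT.inv (hs : FT n α s) : FT n α fun v => (s v)⁻¹ :=
  (Ar.feq ((FT.dec (NT.var none)).mul (hs.rel some)) (FT.const 1)).congr fun _ =>
    mul_eq_one_iff_eq_inv

lemma FT.pow (w : FreeGroup (Fin n)) {a : (α → ℕ) → ℕ} (ha : NT α a) :
    FT n α fun v => w ^ a v := by
  let R : ℕ × ℕ → ℕ × ℕ → Prop := fun p q => q.1 = p.1 + 1 ∧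
    Pool.Agent.H.MP_c33acd_lc.dec n q.2 = Pool.Agent.H.MP_c33acd_lc.dec n p.2 * w
  have h1 : ∀ q : ℕ × ℕ, Relation.ReflTransGen R (0, 0) q →
      Pool.Agent.H.MP_c33acd_lc.dec n q.2 = w ^ q.1 := by
    intro q h
    induction h with
    | refl => simp [dec_zero]
    | tail _ h ih => rw [h.1, h.2, ih, pow_succ]
  have h2 : ∀ j, ∃ y, Relation.ReflTransGen R (0, 0) (j, y) := by
    intro j
    induction j with
    | zero => exact ⟨0, Relation.ReflTransGen.refl⟩
    | succ j ih =>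
      obtain ⟨y, h⟩ := ih
      obtain ⟨y', hy⟩ := dec_surj (Pool.Agent.H.MP_c33acd_lc.dec n y * w)
      exact ⟨y', h.tail ⟨rfl, hy⟩⟩
  refine (Ar.ex (P := fun y v => Pool.Agent.H.MP_c33acd_lc.dec n (v none) =
    Pool.Agent.H.MP_c33acd_lc.dec n y ∧
    Relation.ReflTransGen R (0, 0) (a (fun i => v (some i)), y))
    ((Ar.feq (FT.dec (NT.var _)) (FT.dec (NT.var _))).and (Ar.tc (fun γ a b c d ha hb hc hd =>
    (Ar.eq hc (ha.add (NT.const 1))).and (Ar.feq (FT.dec hd) ((FT.dec hb).mul (FT.const w))))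
    (NT.const 0) (NT.const 0) (ha.rel _) (NT.var _)))).congr fun v => ?_
  refine ⟨fun ⟨y, h3, h4⟩ => h3.trans (h1 _ h4), fun h => ?_⟩
  obtain ⟨y, hy⟩ := h2 (a fun i => v (some i))
  exact ⟨y, h.trans (h1 _ hy).symm, hy⟩

lemma Ar.ds (d : ℕ) : ∀ {α : Type} {s : (α → ℕ) → FreeGroup (Fin n)}, FT n α s →
    Ar α fun v => s v ∈ derivedSeries (FreeGroup (Fin n)) d := by
  induction d with
  | zero => exact fun _ => (Ar.const True).congr fun v => by simp
  | succ d ih =>
    intro α s hs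
    let R : ℕ × ℕ → ℕ × ℕ → Prop := fun p q => q.2 = 0 ∧ ∃ x y,
      dec n x ∈ derivedSeries (FreeGroup (Fin n)) d ∧
      dec n y ∈ derivedSeries (FreeGroup (Fin n)) d ∧
      dec n q.1 = dec n p.1 * (dec n x * dec n y * (dec n x)⁻¹ * (dec n y)⁻¹)
    refine (Ar.ex (P := fun m v => dec n m = s v ∧ Relation.ReflTransGen R (0, 0) (m, 0))
      (Ar.and hs (Ar.tc (fun γ a b c d ha hb hc hd => (Ar.eq hd (NT.const 0)).and
        (Ar.ex (Ar.ex ((ih (FT.dec (NT.var _))).and ((ih (FT.dec (NT.var _))).and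
          (Ar.feq (FT.dec (hc.rel _)) ((FT.dec (ha.rel _)).mul
            ((((FT.dec (NT.var _)).mul (FT.dec (NT.var _))).mul (FT.dec (NT.var _)).inv).mul
              (FT.dec (NT.var _)).inv))))))))
        (NT.const 0) (NT.const 0) (NT.var _) (NT.const 0)))).congr fun v => ?_
    constructor
    · rintro ⟨m, h1, h2⟩
      have : ∀ q, Relation.ReflTransGen R (0, 0) q →
          dec n q.1 ∈ derivedSeries (FreeGroup (Fin n)) (d + 1) := by
        intro q h
        induction h with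
        | refl => rw [dec_zero]; exact one_mem _
        | tail _ h ih =>
          obtain ⟨-, x, y, hx, hy, e⟩ := h
          rw [e]
          exact mul_mem ih (Subgroup.commutator_mem_commutator hx hy)
      exact h1 ▸ this _ h2
    · intro h
      rw [derivedSeries_succ, Subgroup.commutator_def] at h
      have step : ∀ (g x y : FreeGroup (Fin n)), x ∈ derivedSeries (FreeGroup (Fin n)) d →
          y ∈ derivedSeries (FreeGroup (Fin n)) d →
          (∃ m, dec n m = g ∧ Relation.ReflTransGen R (0, 0) (m, 0)) →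
          ∃ m, dec n m = g * (x * y * x⁻¹ * y⁻¹) ∧ Relation.ReflTransGen R (0, 0) (m, 0) := by
        rintro _ x y hx hy ⟨m, rfl, h⟩
        obtain ⟨x, rfl⟩ := dec_surj x
        obtain ⟨y, rfl⟩ := dec_surj y
        obtain ⟨m', hm⟩ := dec_surj (dec n m * (dec n x * dec n y * (dec n x)⁻¹ * (dec n y)⁻¹))
        exact ⟨m', hm, h.tail ⟨rfl, x, y, hx, hy, hm⟩⟩
      generalize s v = g at h
      induction h using Subgroup.closure_induction_right with
      | one => exact ⟨0, dec_zero n, Relation.ReflTransGen.refl⟩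
      | mul_right g _ z hz ih =>
        obtain ⟨x, hx, y, hy, rfl⟩ := hz
        exact step g x y hx hy ih
      | mul_inv_cancel g _ z hz ih =>
        obtain ⟨x, hx, y, hy, rfl⟩ := hz
        rw [commutatorElement_inv]
        exact step g y x hy hx ih

end words

end Pool.Agent.H.MP_c33acd_lc
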