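import Pool.Agent.H.MP_c33acd_lc.D

set_option autoImplicit false

namespace Pool.Agent.H.MP_c33acd_lc

open FirstOrder FirstOrder.Language

structure LS where
  L : FirstOrder.Language.{0, 0}
  str : ∀ (K : Type) [Group K], L.Structure K
  m : L.Functions 2
  hm : ∀ (K : Type) [Group K] (x : Fin 2 → K), @Structure.funMap L K (str K) 2 m x = x 0 * x 1

def val {K α β : Type} [Group K] (a r : K) (v : α → K) (n : β → ℕ) : Bool ⊕ α ⊕ β → K :=
  Sum.elim (fun b => cond b a r) (Sum.elim v fun i => r ^ n i)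

def Rl (X : LS) {γ : Type} (φ : X.L.Formula γ) (K : Type) [Group K] (w : γ → K) : Prop :=
  @Formula.Realize X.L K (X.str K) γ φ w

abbrev Cn := ∀ (K : Type) [Group K], K → K → Prop
abbrev Pr (α β : Type) := ∀ (K : Type) [Group K], K → K → (α → K) → (β → ℕ) → Prop
abbrev Tm (α β : Type) := ∀ (K : Type) [Group K], K → K → (α → K) → (β → ℕ) → K

def MD (X : LS) (C : Cn) (α β : Type) (P : Pr α β) : Prop :=
  ∃ φ : X.L.Formula (Bool ⊕ α ⊕ β), ∀ (K : Type) [Group K] (a r : K), C K a r →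
    ∀ v n, Rl X φ K (val a r v n) ↔ P K a r v n

def MT (X : LS) (C : Cn) (α β : Type) (t : Tm α β) : Prop :=
  MD X C (Option α) β fun K _ a r w n => w none = t K a r (fun i => w (some i)) n

section rl
variable {X : LS} {γ γ' : Type}

def ren (φ : X.L.Formula γ) (g : γ → γ') : X.L.Formula γ' :=
  BoundedFormula.subst φ fun i => Term.var (g i)

lemma Rl_ren (φ : X.L.Formula γ) (g : γ → γ') (K : Type) [Group K] (w : γ' → K) :
    Rl X (ren φ g) K w ↔ Rl X φ K fun i => w (g i) := by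
  let _ := X.str K
  exact BoundedFormula.realize_subst

lemma Rl_not (φ : X.L.Formula γ) (K : Type) [Group K] (w : γ → K) :
    Rl X φ.not K w ↔ ¬ Rl X φ K w := by
  let _ := X.str K
  exact Formula.realize_not

lemma Rl_and (φ ψ : X.L.Formula γ) (K : Type) [Group K] (w : γ → K) :
    Rl X (φ ⊓ ψ) K w ↔ Rl X φ K w ∧ Rl X ψ K w := by
  let _ := X.str K
  exact Formula.realize_inf

lemma Rl_iExs (δ : Type) [Finite δ] (φ : X.L.Formula (γ ⊕ δ)) (K : Type) [Group K] (w : γ → K) :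
    Rl X (φ.iExs δ) K w ↔ ∃ x : δ → K, Rl X φ K (Sum.elim w x) := by
  let _ := X.str K
  exact Formula.realize_iExs

lemma Rl_iAlls (δ : Type) [Finite δ] (φ : X.L.Formula (γ ⊕ δ)) (K : Type) [Group K] (w : γ → K) :
    Rl X (φ.iAlls δ) K w ↔ ∀ x : δ → K, Rl X φ K (Sum.elim w x) := by
  let _ := X.str K
  refine Formula.realize_iAlls.trans (forall_congr' fun x => iff_of_eq ?_)
  rfl

end rl

section md
variable {X : LS} {C : Cn} {α β α' β' : Type} {P Q : Pr α β} {s t : Tm α β}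

lemma MD.congr (h : MD X C α β P) (e : ∀ K [Group K] a r, C K a r → ∀ v n,
    P K a r v n ↔ Q K a r v n) : MD X C α β Q := by
  obtain ⟨φ, hφ⟩ := h
  exact ⟨φ, fun K _ a r hc v n => (hφ K a r hc v n).trans (e K a r hc v n)⟩

lemma MD.mul0 (i j k : Bool ⊕ α ⊕ β) :
    MD X C α β fun _ _ a r v n => val a r v n i * val a r v n j = val a r v n k := by
  refine ⟨(X.m.apply₂ (Term.var i) (Term.var j)).equal (Term.var k), fun K _ a r _ v n => ?_⟩
  let _ := X.str K
  simp only [Rl, Formula.realize_equal, Term.realize_functions_apply₂, Term.realize_var, X.hm]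
  rfl

lemma MD.eq0 (i j : Bool ⊕ α ⊕ β) :
    MD X C α β fun _ _ a r v n => val a r v n i = val a r v n j := by
  refine ⟨(Term.var i).equal (Term.var j), fun K _ a r _ v n => ?_⟩
  let _ := X.str K
  simp only [Rl, Formula.realize_equal, Term.realize_var]

lemma MD.not (h : MD X C α β P) : MD X C α β fun K _ a r v n => ¬ P K a r v n := by
  obtain ⟨φ, hφ⟩ := h
  exact ⟨φ.not, fun K _ a r hc v n => by rw [Rl_not, hφ K a r hc]⟩

lemma MD.and (h : MD X C α β P) (h' : MD X C α β Q) :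
    MD X C α β fun K _ a r v n => P K a r v n ∧ Q K a r v n := by
  obtain ⟨φ, hφ⟩ := h
  obtain ⟨ψ, hψ⟩ := h'
  exact ⟨φ ⊓ ψ, fun K _ a r hc v n => by rw [Rl_and, hφ K a r hc, hψ K a r hc]⟩

lemma MD.rel (h : MD X C α β P) (g : α → α') (g' : β → β') :
    MD X C α' β' fun K _ a r v n => P K a r (fun i => v (g i)) fun j => n (g' j) := by
  obtain ⟨φ, hφ⟩ := h
  refine ⟨ren φ (Sum.map id (Sum.map g g')), fun K _ a r hc v n => ?_⟩
  refine Iff.trans ?_ (hφ K a r hc _ _)
  rw [Rl_ren]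
  apply iff_of_eq; congr 1; ext i
  rcases i with i | i | i <;> rfl

lemma MD.ex {P : ∀ (K : Type) [Group K], K → K → K → (α → K) → (β → ℕ) → Prop}
    (h : MD X C (Option α) β fun K _ a r w n => P K a r (w none) (fun i => w (some i)) n) :
    MD X C α β fun K _ a r v n => ∃ x, P K a r x v n := by
  obtain ⟨φ, hφ⟩ := h
  refine ⟨(ren φ (Sum.elim (fun b => Sum.inl (Sum.inl b)) (Sum.elim
    (fun o => o.elim (Sum.inr ()) fun i => Sum.inl (Sum.inr (Sum.inl i)))
    fun j => Sum.inl (Sum.inr (Sum.inr j))))).iExs Unit, fun K _ a r hc v n => ?_⟩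
  rw [Rl_iExs]
  have : ∀ x : Unit → K, _ ↔ P K a r (x ()) v n := fun x =>
    hφ K a r hc (fun o => o.elim (x ()) v) n
  refine Iff.trans (exists_congr fun x => Iff.trans ?_ (this x))
    ⟨fun ⟨x, hx⟩ => ⟨_, hx⟩, fun ⟨x, hx⟩ => ⟨fun _ => x, hx⟩⟩
  rw [Rl_ren]
  apply iff_of_eq; congr 1; ext i
  rcases i with i | (_ | i) | i <;> rfl

lemma MD.or (h : MD X C α β P) (h' : MD X C α β Q) :
    MD X C α β fun K _ a r v n => P K a r v n ∨ Q K a r v n :=
  (h.not.and h'.not).not.congr fun _ _ _ _ _ _ _ => by tauto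

lemma MD.imp (h : MD X C α β P) (h' : MD X C α β Q) :
    MD X C α β fun K _ a r v n => P K a r v n → Q K a r v n :=
  (h.and h'.not).not.congr fun _ _ _ _ _ _ _ => by tauto

lemma MD.iff (h : MD X C α β P) (h' : MD X C α β Q) :
    MD X C α β fun K _ a r v n => P K a r v n ↔ Q K a r v n :=
  ((h.imp h').and (h'.imp h)).congr fun _ _ _ _ _ _ _ => iff_def.symm

lemma MD.all {P : ∀ (K : Type) [Group K], K → K → K → (α → K) → (β → ℕ) → Prop}
    (h : MD X C (Option α) β fun K _ a r w n => P K a r (w none) (fun i => w (some i)) n) :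
    MD X C α β fun K _ a r v n => ∀ x, P K a r x v n :=
  (MD.ex (P := fun K _ a r x v n => ¬ P K a r x v n) h.not).not.congr
    fun _ _ _ _ _ _ _ => by simp

lemma MD.const (p : Prop) : MD X C α β fun _ _ _ _ _ _ => p := by
  have := MD.eq0 (X := X) (C := C) (α := α) (β := β) (Sum.inl true) (Sum.inl true)
  by_cases h : p
  · exact this.congr fun _ _ _ _ _ _ _ => by simp [h]
  · exact this.not.congr fun _ _ _ _ _ _ _ => by simp [h]

lemma MD.exF {k : ℕ} {P : Fin k → Pr α β} (h : ∀ i, MD X C α β (P i)) :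
    MD X C α β fun K _ a r v n => ∃ i, P i K a r v n := by
  induction k with
  | zero => exact (MD.const False).congr fun _ _ _ _ _ _ _ => by simp
  | succ k ih =>
    exact ((h 0).or (ih fun i => h i.succ)).congr fun _ _ _ _ _ _ _ => by rw [Fin.exists_fin_succ]

lemma MD.allF {k : ℕ} {P : Fin k → Pr α β} (h : ∀ i, MD X C α β (P i)) :
    MD X C α β fun K _ a r v n => ∀ i, P i K a r v n :=
  (MD.exF fun i => (h i).not).not.congr fun _ _ _ _ _ _ _ => by simp

lemma MT.var (i : α) : MT X C α β fun _ _ _ _ v _ => v i :=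
  MD.eq0 (Sum.inr (Sum.inl none)) (Sum.inr (Sum.inl (some i)))

lemma MT.a : MT X C α β fun _ _ a _ _ _ => a := MD.eq0 (Sum.inr (Sum.inl none)) (Sum.inl true)

lemma MT.r : MT X C α β fun _ _ _ r _ _ => r := MD.eq0 (Sum.inr (Sum.inl none)) (Sum.inl false)

lemma MT.num (j : β) : MT X C α β fun _ _ _ r _ n => r ^ n j :=
  MD.eq0 (Sum.inr (Sum.inl none)) (Sum.inr (Sum.inr j))

lemma MT.rel (h : MT X C α β t) (g : α → α') (g' : β → β') :
    MT X C α' β' fun K _ a r v n => t K a r (fun i => v (g i)) fun j => n (g' j) :=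
  MD.rel h (Option.map g) g'

lemma MD.eq (hs : MT X C α β s) (ht : MT X C α β t) :
    MD X C α β fun K _ a r v n => s K a r v n = t K a r v n :=
  (MD.ex (P := fun K _ a r x v n => x = s K a r v n ∧ x = t K a r v n) (MD.and hs ht)).congr
    fun _ _ _ _ _ _ _ => by simp

lemma MT.mul (hs : MT X C α β s) (ht : MT X C α β t) :
    MT X C α β fun K _ a r v n => s K a r v n * t K a r v n :=
  (MD.ex (P := fun K _ a r x w n => ∃ y, x = s K a r (fun i => w (some i)) n ∧
      y = t K a r (fun i => w (some i)) n ∧ x * y = w none)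
    (MD.ex ((MD.eq (MT.var _) (hs.rel _ _)).and ((MD.eq (MT.var _) (ht.rel _ _)).and
      (MD.mul0 (Sum.inr (Sum.inl (some none))) (Sum.inr (Sum.inl none))
        (Sum.inr (Sum.inl (some (some none))))))))).congr fun _ _ _ _ _ _ _ => by simp [eq_comm]

lemma MT.one : MT X C α β fun _ _ _ _ _ _ => 1 :=
  (MD.eq ((MT.var none).mul (MT.var none)) (MT.var none)).congr fun _ _ _ _ _ _ _ => by simp

lemma MT.inv (hs : MT X C α β s) : MT X C α β fun K _ a r v n => (s K a r v n)⁻¹ :=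
  (MD.eq ((MT.var none).mul (hs.rel some id)) MT.one).congr fun _ _ _ _ _ _ _ =>
    mul_eq_one_iff_eq_inv

lemma MT.cm (hs : MT X C α β s) (ht : MT X C α β t) :
    MT X C α β fun K _ a r v n => cm (s K a r v n) (t K a r v n) :=
  ((hs.mul ht).mul hs.inv).mul ht.inv

variable {x1 x2 x3 x4 x5 x6 x7 x8 : Tm α β}

lemma D_InA (h1 : MT X C α β x1) : MD X C α β fun K _ a r v n => InA a (x1 K a r v n) :=
  MD.eq (h1.mul MT.a) (MT.a.mul h1)

lemma D_Cyc (h1 : MT X C α β x1) (h2 : MT X C α β x2) :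
    MD X C α β fun K _ a r v n => Cyc a (x1 K a r v n) (x2 K a r v n) :=
  MD.ex ((D_InA (MT.var _)).and (MD.eq ((h2.rel _ _).cm MT.a) ((h1.rel _ _).cm (MT.var _))))

lemma D_Ml (h1 : MT X C α β x1) (h2 : MT X C α β x2) (h3 : MT X C α β x3) (h4 : MT X C α β x4) :
    MD X C α β fun K _ a r v n => Ml a (x1 K a r v n) (x2 K a r v n) (x3 K a r v n)
      (x4 K a r v n) :=
  (D_InA h4).and (MD.ex ((D_InA (MT.var _)).and (MD.eq ((h2.rel _ _).cm (h3.rel _ _))
    (((h1.rel _ _).cm (h4.rel _ _)).mul ((h1.rel _ _).cm ((h1.rel _ _).cm (MT.var _)))))))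

lemma D_Mu (h1 : MT X C α β x1) (h2 : MT X C α β x2) (h3 : MT X C α β x3) :
    MD X C α β fun K _ a r v n => Mu a r (x1 K a r v n) (x2 K a r v n) (x3 K a r v n) :=
  MD.ex ((D_Ml MT.r (h1.rel _ _) MT.a (MT.var _)).and (MD.ex ((D_InA (MT.var _)).and
    (MD.eq ((h2.rel _ _).cm (MT.var _))
      (((h3.rel _ _).cm MT.a).mul (MT.r.cm (MT.r.cm (MT.var _))))))))

lemma D_It (h1 : MT X C α β x1) : MD X C α β fun K _ a r v n => It a r (x1 K a r v n) :=
  (D_Cyc MT.r h1).and (MD.eq (h1.mul MT.r) (MT.r.mul h1))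

lemma D_Sq (h1 : MT X C α β x1) : MD X C α β fun K _ a r v n => Sq a r (x1 K a r v n) :=
  (D_It h1).and (MD.ex ((D_It (MT.var _)).and (D_Mu (MT.var _) (MT.var _) (h1.rel _ _))))

lemma D_Num (h1 : MT X C α β x1) : MD X C α β fun K _ a r v n => Num a r (x1 K a r v n) :=
  MD.ex (MD.ex (MD.ex (MD.ex ((D_Sq (MT.var _)).and ((D_Sq (MT.var _)).and
    ((D_Sq (MT.var _)).and ((D_Sq (MT.var _)).and (MD.eq (h1.rel _ _)
      ((((MT.var _).mul (MT.var _)).mul (MT.var _)).mul (MT.var _))))))))))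

lemma D_Cg (h1 : MT X C α β x1) (h2 : MT X C α β x2) (h3 : MT X C α β x3) (h4 : MT X C α β x4)
    (h5 : MT X C α β x5) (h6 : MT X C α β x6) :
    MD X C α β fun K _ a r v n => Cg a (x1 K a r v n) (x2 K a r v n) (x3 K a r v n)
      (x4 K a r v n) (x5 K a r v n) (x6 K a r v n) :=
  MD.ex (MD.ex (MD.ex ((D_InA (MT.var _)).and
    ((D_Ml (h2.rel _ _) (h4.rel _ _) (h6.rel _ _) (MT.var _)).and
    ((D_Ml (h2.rel _ _) (h3.rel _ _) (MT.var _) (MT.var _)).and (MD.eq (h5.rel _ _)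
      (((MT.var _).mul (((h1.rel _ _).mul (MT.var _)).mul (h1.rel _ _).inv)).mul
        (MT.var _).inv)))))))

lemma D_Lk (h1 : MT X C α β x1) (h2 : MT X C α β x2) (h3 : MT X C α β x3) :
    MD X C α β fun K _ a r v n => Lk a r (x1 K a r v n) (x2 K a r v n) (x3 K a r v n) :=
  (D_Cyc h1 h3).and (MD.ex ((D_Ml MT.r (h2.rel _ _) MT.a (MT.var _)).and
    (D_Ml (h1.rel _ _) (h3.rel _ _) MT.a (MT.var _))))

lemma D_Cd (h1 : MT X C α β x1) (h2 : MT X C α β x2) (h3 : MT X C α β x3) (h4 : MT X C α β x4)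
    (h5 : MT X C α β x5) (h6 : MT X C α β x6) (h7 : MT X C α β x7) (h8 : MT X C α β x8) :
    MD X C α β fun K _ a r v n => Cd a r (x1 K a r v n) (x2 K a r v n) (x3 K a r v n)
      (x4 K a r v n) (x5 K a r v n) (x6 K a r v n) (x7 K a r v n) (x8 K a r v n) :=
  MD.ex ((D_Lk (h2.rel _ _) (h7.rel _ _) (MT.var _)).and
    ((D_Cg (h1.rel _ _) (h2.rel _ _) (MT.var _) (h4.rel _ _) (h3.rel _ _)
      (((h8.rel _ _).mul MT.a).mul (h8.rel _ _).inv)).and
    (D_Cg (h1.rel _ _) (h2.rel _ _) (MT.var _) (h6.rel _ _) (h5.rel _ _)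
      ((h1.rel _ _).cm (((h8.rel _ _).mul (h1.rel _ _)).mul (h8.rel _ _).inv)))))

def CS : Cn := fun _ _ a r => Std a r

lemma MD.exN {P : ∀ (K : Type) [Group K], K → K → ℕ → (α → K) → (β → ℕ) → Prop}
    (h : MD X CS α (Option β) fun K _ a r v m => P K a r (m none) v fun j => m (some j)) :
    MD X CS α β fun K _ a r v n => ∃ x, P K a r x v n := by
  obtain ⟨φ, hφ⟩ := h
  let g : Bool ⊕ α ⊕ Option β → Bool ⊕ Option α ⊕ β := Sum.elim Sum.inl (Sum.elim
    (fun i => Sum.inr (Sum.inl (some i))) fun o => o.elim (Sum.inr (Sum.inl none))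
      fun j => Sum.inr (Sum.inr j))
  have h1 : MD X CS (Option α) β fun K _ a r w n => Rl X φ K fun i => val a r w n (g i) :=
    ⟨ren φ g, fun K _ a r _ w n => Rl_ren _ _ _ _⟩
  have h2 := MD.ex (X := X) (C := CS) (P := fun K _ a r x v n => Num a r x ∧
    Rl X φ K fun i => val a r (fun o : Option α => o.elim x v) n (g i))
    ((D_Num (MT.var none)).and (h1.congr fun K _ a r _ w n => by
      apply iff_of_eq; congr 1; ext i
      rcases i with i | i | (_ | i) <;> rfl))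
  refine h2.congr fun K _ a r hc v n => ?_
  have h3 : ∀ x : ℕ, (Rl X φ K fun i => val a r (fun o : Option α => o.elim (r ^ x) v) n (g i)) ↔
      P K a r x v n := by
    intro x
    refine Iff.trans ?_ (hφ K a r hc v fun o => o.elim x n)
    apply iff_of_eq; congr 1; ext i
    rcases i with i | i | (_ | i) <;> rfl
  simp only [Std.num hc]
  exact ⟨by rintro ⟨_, ⟨x, rfl⟩, h⟩; exact ⟨x, (h3 x).mp h⟩,
    fun ⟨x, h⟩ => ⟨_, ⟨x, rfl⟩, (h3 x).mpr h⟩⟩

lemma MD.allN {P : ∀ (K : Type) [Group K], K → K → ℕ → (α → K) → (β → ℕ) → Prop}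
    (h : MD X CS α (Option β) fun K _ a r v m => P K a r (m none) v fun j => m (some j)) :
    MD X CS α β fun K _ a r v n => ∀ x, P K a r x v n :=
  (MD.exN (P := fun K _ a r x v n => ¬ P K a r x v n) h.not).not.congr
    fun _ _ _ _ _ _ _ => by simp

lemma MD.ar {Q : (β → ℕ) → Prop} (h : Ar β Q) : MD X CS α β fun _ _ _ _ _ n => Q n := by
  induction h with
  | add i j k =>
    exact (MD.eq ((MT.num i).mul (MT.num j)) (MT.num k)).congr fun K _ a r hc v n => by
      rw [← pow_add, Std.pow_inj hc]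
  | mul i j k =>
    refine (D_Mu (MT.num i) (MT.num j) (MT.num k)).congr fun K _ a r hc v n => ?_
    rw [← zpow_natCast, ← zpow_natCast, ← zpow_natCast, Std.mu hc, eq_comm]
    exact_mod_cast Iff.rfl
  | not _ ih => exact ih.not
  | and _ _ ih ih' => exact ih.and ih'
  | @ex0 β P _ ih =>
    exact MD.exN (P := fun _ _ _ _ x _ n => P fun o => o.elim x n) (ih.congr fun _ _ _ _ _ _ n => by
      apply iff_of_eq; congr 1; ext i; cases i <;> rfl)

lemma MT.pow {f : (β → ℕ) → ℕ} (h : NT β f) : MT X CS α β fun _ _ _ r _ n => r ^ f n :=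
  (MD.exN (P := fun _ _ _ r x w n => x = f n ∧ w none = r ^ x)
    ((MD.ar h).and (MD.eq (MT.var _) (MT.num _)))).congr fun _ _ _ _ _ _ _ => by simp

lemma D_Ev (k : ℕ) {l : ℕ → Tm α β} {f : (β → ℕ) → ℕ} (h1 : MT X CS α β x1) (h2 : MT X CS α β x2)
    (hl : ∀ i, MT X CS α β (l i)) (hf : NT β f) (h3 : MT X CS α β x3) :
    MD X CS α β fun K _ a r v n => Ev a r (x1 K a r v n) (x2 K a r v n) k
      (fun i => l i K a r v n) (f n) (x3 K a r v n) :=
  MD.all (MD.all (MD.allN ((D_Cyc (h1.rel _ _) (MT.var _)).imp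
    ((D_Cyc (h2.rel _ _) (MT.var _)).imp ((D_InA (MT.var _)).not.imp
    ((MD.ar (Ar.eq (NT.var none) (NT.const 0)).not).imp (MD.ex (MD.ex (MD.ex (MD.ex
      ((D_Cyc (MT.var _) (MT.var _)).and ((D_InA (MT.var _)).not.and
      ((D_Cyc (MT.var _) (MT.var _)).and ((D_InA (MT.var _)).not.and
      ((D_Cd (MT.var _) (MT.var _) (MT.var _) (MT.var _) (MT.var _) (MT.var _)
        (MT.pow ((NT.const 1).add ((NT.var none).mul (NT.const (0 + 1))))) (h3.rel _ _)).and
      ((D_Cd (MT.var _) (MT.var _) (MT.var _) (MT.var _) (MT.var _) (MT.var _)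
        (MT.pow ((NT.const 1).add ((NT.var none).mul ((hf.rel _).add (NT.const 1))))) MT.one).and
      (MD.allN ((MD.ar (Ar.lt (NT.var none) (hf.rel _))).imp (MD.ex
        ((D_Cd (MT.var _) (MT.var _) (MT.var _) (MT.var _) (MT.var _) (MT.var _)
          (MT.pow ((NT.const 1).add ((NT.var (some none)).mul
            (((NT.var none).add (NT.const 1)).add (NT.const 1))))) (MT.var _)).and
        (MD.exF fun i => (MD.ar (Ar.eq (((hf.rel _).div (NT.pow k (NT.var none))).mod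
          (NT.const k)) (NT.const i))).and
          (D_Cd (MT.var _) (MT.var _) (MT.var _) (MT.var _) (MT.var _) (MT.var _)
            (MT.pow ((NT.const 1).add ((NT.var (some none)).mul
              ((NT.var none).add (NT.const 1))))) (((hl i).rel _ _).mul (MT.var _))))))))))))))))))))))))

lemma MT.lt {m : ℕ} {z : Fin m → Tm α β} (h : ∀ i, MT X C α β (z i)) (i : ℕ) :
    MT X C α β fun K _ a r v n => lt m (fun j => z j K a r v n) i := by
  unfold Pool.Agent.H.MP_c33acd_lc.lt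
  by_cases h1 : 0 < i ∧ i ≤ m
  · simp only [dif_pos h1]; exact h _
  by_cases h2 : m < i ∧ i ≤ 2 * m
  · simp only [dif_neg h1, dif_pos h2]; exact (h _).inv
  · simp only [dif_neg h1, dif_neg h2]; exact MT.one

end md

end Pool.Agent.H.MP_c33acd_lc
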