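import Pool.Agent.H.MP_c33acd_lc.E

set_option autoImplicit false

namespace Pool.Agent.H.MP_c33acd_lc

open FirstOrder FirstOrder.Language

def CT : Cn := fun _ _ _ _ => True

variable {X : LS} {C : Cn} {α β : Type}

lemma MD.allAR {P : Pr α Empty} (h : MD X CT α Empty P) : ∃ φ : X.L.Formula α,
    ∀ (K : Type) [Group K] (v : α → K), Rl X φ K v ↔ ∀ a r, P K a r v Empty.elim := by
  obtain ⟨φ, hφ⟩ := h
  refine ⟨(ren φ (Sum.elim Sum.inr (Sum.elim Sum.inl Empty.elim))).iAlls Bool, fun K _ v => ?_⟩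
  rw [Rl_iAlls]
  have : ∀ x : Bool → K, Rl X (ren φ (Sum.elim Sum.inr (Sum.elim Sum.inl Empty.elim))) K
      (Sum.elim v x) ↔ P K (x true) (x false) v Empty.elim := fun x => by
    refine Iff.trans ?_ (hφ K _ _ trivial _ _)
    rw [Rl_ren]
    apply iff_of_eq; congr 1; ext i
    rcases i with (_ | _) | i | i
    · rfl
    · rfl
    · rfl
    · exact i.elim
  simp only [this]
  exact ⟨fun h a r => h fun b => cond b a r, fun h x => h _ _⟩

lemma MD.pure {P : ∀ (K : Type) [Group K], (α → K) → Prop}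
    (h : MD X CT α Empty fun K _ _ _ v _ => P K v) : ∃ φ : X.L.Formula α,
    ∀ (K : Type) [Group K] (v : α → K), Rl X φ K v ↔ P K v := by
  obtain ⟨φ, hφ⟩ := h.allAR
  exact ⟨φ, fun K _ v => (hφ K v).trans ⟨fun h => h 1 1, fun h _ _ => h⟩⟩

lemma MT.lift {ι : Type} {z : ι → Tm α β} (h : ∀ i, MT X C α β (z i)) (w : FreeGroup ι) :
    MT X C α β fun K _ a r v n => FreeGroup.lift (fun j => z j K a r v n) w := by
  induction w using FreeGroup.induction_on with
  | C1 => simpa only [map_one] using MT.one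
  | of i => simpa only [FreeGroup.lift_apply_of] using h i
  | inv_of i ih => simpa only [map_inv] using ih.inv
  | mul v w hv hw => simpa only [map_mul] using hv.mul hw

lemma ev_lt {K : Type} [Group K] {n : ℕ} (z : Fin n → K) (m : ℕ) :
    ev (2 * n + 2) (lt n z) m = FreeGroup.lift z (dec n m) := by
  rw [map_dec]; simp

lemma endo {n d : ℕ} (z : Fin n → FS (Fin n) d) : ∃ φ : FS (Fin n) d →* FS (Fin n) d,
    ∀ w, φ (QuotientGroup.mk w) = FreeGroup.lift z w := by
  refine ⟨QuotientGroup.lift _ (FreeGroup.lift z) fun w hw => ?_, fun w => rfl⟩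
  have h1 := map_derivedSeries_le_derivedSeries (FreeGroup.lift z) d ⟨w, hw, rfl⟩
  rw [← map_derivedSeries_eq (QuotientGroup.mk'_surjective (derivedSeries (FreeGroup (Fin n)) d)),
    QuotientGroup.map_mk'_self] at h1
  exact h1

lemma lift_mk {n d : ℕ} (σ : FS (Fin n) d ≃* FS (Fin n) d) {z : Fin n → FS (Fin n) d}
    (h : ∀ i, σ (QuotientGroup.mk (FreeGroup.of i)) = z i) (w : FreeGroup (Fin n)) :
    FreeGroup.lift z w = σ (QuotientGroup.mk w) := by
  have : FreeGroup.lift z = σ.toMonoidHom.comp (QuotientGroup.mk' _) :=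
    FreeGroup.ext_hom _ _ fun i => by simpa using (h i).symm
  rw [this]; rfl

theorem gen_formula (X : LS) (n : ℕ) (hn : 2 ≤ n) (e : ℕ) : ∃ φ : X.L.Formula (Fin n),
    ∀ z : Fin n → FS (Fin n) (e + 2), Rl X φ _ z ↔ ∃ σ : FS (Fin n) (e + 2) ≃* FS (Fin n) (e + 2),
      ∀ i, σ (QuotientGroup.mk (FreeGroup.of i)) = z i := by
  obtain ⟨ψ, hψ⟩ := MD.exN (X := X) (α := Option (Option (Option (Fin n)))) (β := Empty)
    (P := fun K _ a r m v _ => Ev a r (v (some none)) (v (some (some none))) (2 * n + 2)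
      (fun i => lt n (fun j => v (some (some (some j)))) i) m (v none))
    (D_Ev (2 * n + 2) (MT.var _) (MT.var _) (MT.lt fun j => MT.var _) (NT.var none) (MT.var _))
  let Ψ : ∀ (K : Type) [Group K], K → K → K → K → (Fin n → K) → K → Prop :=
    fun K _ a r s t z g => Rl X ψ K (val a r
      (fun o => o.elim g fun o => o.elim s fun o => o.elim t z) Empty.elim)
  have h0 : MD X CT _ Empty fun K _ a r v m => Rl X ψ K (val a r v m) :=
    ⟨ψ, fun _ _ _ _ _ _ _ => Iff.rfl⟩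
  have DΨ : ∀ {α : Type} {x : Tm α Empty} (i1 i2 : α) (z : Fin n → α), MT X CT α Empty x →
      MD X CT α Empty fun K _ a r v m => Ψ K a r (v i1) (v i2) (fun j => v (z j))
        (x K a r v m) := by
    intro α x i1 i2 z hx
    refine (MD.ex (P := fun K _ a r y v m => y = x K a r v m ∧
      Ψ K a r (v i1) (v i2) (fun j => v (z j)) y) (MD.and hx ((h0.rel (fun o => o.elim none
        fun o => o.elim (some i1) fun o => o.elim (some i2) fun j => some (z j)) id).congr
        fun K _ a r _ v m => ?_))).congr fun _ _ _ _ _ _ _ => by simp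
    apply iff_of_eq; congr 2
    · ext o; rcases o with _ | _ | _ | _ <;> rfl
    · exact Subsingleton.elim _ _
  obtain ⟨φ, hφ⟩ := MD.allAR (X := X) (α := Fin n) (P := fun K _ a r z _ => ∀ s t,
      (Ψ K a r s t z 1 ∧ ∀ y, Ψ K a r s t z y → ∀ i, Ψ K a r s t z (z i * y) ∧
        Ψ K a r s t z ((z i)⁻¹ * y)) → ∀ g, Ψ K a r s t z g)
    (MD.all (MD.all (((DΨ _ _ _ MT.one).and (MD.all ((DΨ _ _ _ (MT.var _)).imp (MD.allF fun i =>
      (DΨ _ _ _ ((MT.var _).mul (MT.var _))).and (DΨ _ _ _ ((MT.var _).inv.mul (MT.var _))))))).imp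
      (MD.all (DΨ _ _ _ (MT.var _))))))
  refine ⟨φ, fun z => (hφ _ z).trans ⟨fun h => ?_, ?_⟩⟩
  · obtain ⟨N, a, s, t, k, -, P⟩ := exists_par n hn e
    have h1 : ∀ g, Ψ _ a _ s t z g ↔ g ∈ (FreeGroup.lift z).range := fun g => by
      refine (hψ _ _ _ P.std _ _).trans ?_
      refine (exists_congr fun m => P.ev_iff (by omega) (lt_zero _ _) m g).trans ?_
      constructor
      · rintro ⟨m, hm⟩; exact ⟨_, (hm.trans (ev_lt z m)).symm⟩
      · rintro ⟨w, rfl⟩
        obtain ⟨m, rfl⟩ := dec_surj w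
        exact ⟨m, (ev_lt z m).symm⟩
    have h2 := h a _ s t ⟨(h1 _).mpr (one_mem _), fun y hy i =>
      ⟨(h1 _).mpr (mul_mem ⟨FreeGroup.of i, by simp⟩ ((h1 _).mp hy)),
        (h1 _).mpr (mul_mem (inv_mem ⟨FreeGroup.of i, by simp⟩) ((h1 _).mp hy))⟩⟩
    obtain ⟨f, hf⟩ := endo z
    have h3 : Function.Surjective f := fun g => by
      obtain ⟨w, rfl⟩ := (h1 g).mp (h2 g)
      exact ⟨_, hf w⟩
    exact ⟨MulEquiv.ofBijective f ⟨hopf _ (QuotientGroup.mk'_surjective _) f h3, h3⟩,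
      fun i => (hf _).trans (by simp)⟩
  · rintro ⟨σ, hσ⟩ a r s t ⟨h1, h2⟩ g
    obtain ⟨g, rfl⟩ := σ.surjective g
    obtain ⟨w, rfl⟩ := QuotientGroup.mk_surjective g
    have : ∀ y, Ψ _ a r s t z y → Ψ _ a r s t z (FreeGroup.lift z w * y) := by
      induction w using FreeGroup.induction_on with
      | C1 => simp
      | of i => simpa using fun y hy => (h2 y hy i).1
      | inv_of i _ => simpa using fun y hy => (h2 y hy i).2
      | mul v w hv hw => intro y hy; rw [map_mul, mul_assoc]; exact hv _ (hw _ hy)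
    simpa [lift_mk σ hσ] using this 1 h1

theorem word_formula (X : LS) (n m : ℕ) (w : Fin m → FreeGroup (Fin n)) :
    ∃ φ : X.L.Formula (Fin m ⊕ Fin n), ∀ (K : Type) [Group K] (v : Fin m ⊕ Fin n → K),
      Rl X φ K v ↔ ∀ i, v (Sum.inl i) = FreeGroup.lift (fun j => v (Sum.inr j)) (w i) :=
  MD.pure (MD.allF fun i => MD.eq (MT.var _) (MT.lift (fun _ => MT.var _) (w i)))

theorem orbit_formula (X : LS) (n : ℕ) (hn : 2 ≤ n) (e m : ℕ) (μ : Fin m → FS (Fin n) (e + 2)) :
    ∃ φ : X.L.Formula (Fin m), ∀ v : Fin m → FS (Fin n) (e + 2), Rl X φ _ v ↔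
      ∃ σ : FS (Fin n) (e + 2) ≃* FS (Fin n) (e + 2), ∀ i, σ (μ i) = v i := by
  choose w hw using fun i => QuotientGroup.mk_surjective (μ i)
  obtain ⟨φ, hφ⟩ := gen_formula X n hn e
  obtain ⟨θ, hθ⟩ := word_formula X n m w
  refine ⟨(ren φ Sum.inr ⊓ θ).iExs (Fin n), fun v => ?_⟩
  simp only [Rl_iExs, Rl_and, Rl_ren, hφ, hθ, Sum.elim_inl, Sum.elim_inr]
  constructor
  · rintro ⟨z, ⟨σ, h1⟩, h2⟩
    exact ⟨σ, fun i => by rw [h2, lift_mk σ h1, hw]⟩
  · rintro ⟨σ, h⟩
    exact ⟨_, ⟨σ, fun _ => rfl⟩, fun i => by rw [lift_mk σ fun _ => rfl, hw, h]⟩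

section prime
variable {L : FirstOrder.Language.{0, 0}} {G N : Type} [L.Structure G] [L.Structure N]

lemma transfer (h : N ⊨ L.completeTheory G) {γ : Type} [Finite γ] (φ : L.Formula γ)
    (hφ : ∀ v : γ → G, φ.Realize v) (v : γ → N) : φ.Realize v := by
  let ψ : L.Formula (Empty ⊕ γ) := BoundedFormula.subst φ fun i => Term.var (Sum.inr i)
  have h1 : G ⊨ (ψ.iAlls γ : L.Sentence) := by
    refine Formula.realize_iAlls.mpr fun x => BoundedFormula.realize_subst.mpr (hφ _)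
  have h2 : N ⊨ (ψ.iAlls γ : L.Sentence) :=
    (L.completeTheory G).realize_sentence_of_mem (mem_completeTheory.mpr h1)
  exact BoundedFormula.realize_subst.mp (Formula.realize_iAlls.mp h2 v)

end prime

theorem prime (X : LS) (n : ℕ) (hn : 2 ≤ n) (e : ℕ)
    (haut : ∀ (σ : FS (Fin n) (e + 2) ≃* FS (Fin n) (e + 2)) (m : ℕ) (φ : X.L.Formula (Fin m)) v,
      Rl X φ _ v → Rl X φ _ fun i => σ (v i))
    (N : Type) [X.L.Structure N]
    (h : N ⊨ @completeTheory X.L (FS (Fin n) (e + 2)) (X.str _)) :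
    Nonempty (@ElementaryEmbedding X.L (FS (Fin n) (e + 2)) N (X.str _) _) := by
  let _ := X.str (FS (Fin n) (e + 2))
  obtain ⟨φ, hφ⟩ := gen_formula X n hn e
  obtain ⟨z, hz⟩ : ∃ z : Fin n → N, φ.Realize z := by
    by_contra hc
    push Not at hc
    have h1 : ¬ ∀ v : Fin n → FS (Fin n) (e + 2), φ.not.Realize v := fun h1 =>
      Formula.realize_not.mp (h1 _) ((hφ _).mpr ⟨MulEquiv.refl _, fun _ => rfl⟩)
    let ψ : X.L.Formula (Empty ⊕ Fin n) := BoundedFormula.subst φ fun i => Term.var (Sum.inr i)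
    have h2 := transfer h (ψ.iExs (Fin n)) (fun v => Formula.realize_iExs.mpr
      ⟨_, BoundedFormula.realize_subst.mpr ((hφ _).mpr ⟨MulEquiv.refl _, fun _ => rfl⟩)⟩) default
    obtain ⟨z, hz⟩ := Formula.realize_iExs.mp h2
    exact hc z (BoundedFormula.realize_subst.mp hz)
  choose w hw using fun g : FS (Fin n) (e + 2) => QuotientGroup.mk_surjective g
  choose θ hθ using fun g => word_formula X n 1 fun _ => w g
  have h1 : ∀ g, ∃ y : N, (θ g).Realize (Sum.elim (fun _ => y) z) := by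
    intro g
    have := transfer h ((ren (θ g) Sum.swap).iExs (Fin 1)) (fun v => (Rl_iExs _ _ _ _).mpr
      ⟨fun _ => FreeGroup.lift v (w g), (Rl_ren _ _ _ _).mpr ((hθ g _ _).mpr fun _ => rfl)⟩) z
    obtain ⟨y, hy⟩ := Formula.realize_iExs.mp this
    refine ⟨y 0, ?_⟩
    have hy := BoundedFormula.realize_subst.mp hy
    convert hy using 1
    refine iff_of_eq ?_
    unfold Formula.Realize
    congr 1; ext i
    rcases i with i | i
    · rw [Subsingleton.elim i 0]; rfl
    · rfl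
  choose f hf using h1
  have key : ∀ (m : ℕ) (ψ : X.L.Formula (Fin m)) (x : Fin m → FS (Fin n) (e + 2)),
      ψ.Realize x → ψ.Realize (f ∘ x) := by
    intro m ψ x hx
    let ρ : Fin m → X.L.Formula (Fin m ⊕ Fin n) := fun i =>
      ren (θ (x i)) (Sum.map (fun _ => i) id)
    have := transfer h ((ren φ Sum.inr ⊓ Formula.iInf ρ).imp (ren ψ Sum.inl)) (fun v => by
      rw [Formula.realize_imp, Formula.realize_inf, Formula.realize_iInf]
      rintro ⟨h1, h2⟩
      obtain ⟨σ, hσ⟩ := (hφ _).mp ((Rl_ren _ _ _ _).mp h1)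
      refine (Rl_ren _ _ _ _).mpr ?_
      convert haut σ m ψ x hx using 2 with i
      have := (hθ _ _ _).mp ((Rl_ren _ _ _ _).mp (h2 i)) 0
      exact this.trans ((lift_mk σ hσ _).trans (by rw [hw]))) (Sum.elim (f ∘ x) z)
    rw [Formula.realize_imp, Formula.realize_inf, Formula.realize_iInf] at this
    refine BoundedFormula.realize_subst.mp (this ⟨BoundedFormula.realize_subst.mpr hz, fun i =>
      BoundedFormula.realize_subst.mpr ?_⟩)
    convert hf (x i) using 1
    refine iff_of_eq ?_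
    unfold Formula.Realize
    congr 1; ext j
    rcases j with j | j <;> rfl
  refine ⟨⟨f, fun m ψ x => ⟨fun h1 => ?_, key m ψ x⟩⟩⟩
  by_contra h2
  exact Formula.realize_not.mp (key m ψ.not x (Formula.realize_not.mpr h2)) h1

end Pool.Agent.H.MP_c33acd_lc
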