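import Pool.Agent.H.MP_c33acd_lc.F

set_option autoImplicit false

namespace Pool.Agent.H.MP_c33acd_lc

open FirstOrder FirstOrder.Language

/-- Homogeneity of finitely generated free abelian groups, module form. -/
lemma hom_mod {M : Type} [AddCommGroup M] [Module.Finite ℤ M] [Module.IsTorsionFree ℤ M] {m : ℕ}
    (a b : Fin m → M)
    (h : ∀ (k : ℤ) (c : Fin m → ℤ), (∃ y, k • y = ∑ i, c i • a i) ↔ ∃ y, k • y = ∑ i, c i • b i) :
    ∃ σ : M ≃ₗ[ℤ] M, ∀ i, σ (a i) = b i := by
  let S : (Fin m → M) → Submodule ℤ M := fun a =>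
    { carrier := {y | ∃ (k : ℤ) (c : Fin m → ℤ), k ≠ 0 ∧ k • y = ∑ i, c i • a i}
      zero_mem' := ⟨1, 0, one_ne_zero, by simp⟩
      add_mem' := by
        rintro y z ⟨k, c, hk, e⟩ ⟨k', c', hk', e'⟩
        refine ⟨k * k', k' • c + k • c', mul_ne_zero hk hk', ?_⟩
        simp only [Pi.add_apply, Pi.smul_apply, add_smul, smul_eq_mul, mul_smul,
          Finset.sum_add_distrib, ← Finset.smul_sum, ← e, ← e']
        module
      smul_mem' := by
        rintro r y ⟨k, c, hk, e⟩
        refine ⟨k, r • c, hk, ?_⟩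
        simp only [Pi.smul_apply, smul_eq_mul, mul_smul, ← Finset.smul_sum, ← e]
        module }
  let R : (Fin m → M) → (Fin m → M) → M → M → Prop := fun a b y z =>
    ∃ (k : ℤ) (c : Fin m → ℤ), k ≠ 0 ∧ k • y = ∑ i, c i • a i ∧ k • z = ∑ i, c i • b i
  have Radd : ∀ a b y z y' z' (r : ℤ), R a b y z → R a b y' z' → R a b (y + r • y') (z + r • z') := by
    rintro a b y z y' z' r ⟨k, c, hk, e1, e2⟩ ⟨k', c', hk', e1', e2'⟩
    refine ⟨k * k', k' • c + (r * k) • c', mul_ne_zero hk hk', ?_, ?_⟩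
    · simp only [Pi.add_apply, Pi.smul_apply, add_smul, smul_eq_mul, mul_smul,
        Finset.sum_add_distrib, ← Finset.smul_sum, ← e1, ← e1']
      module
    · simp only [Pi.add_apply, Pi.smul_apply, add_smul, smul_eq_mul, mul_smul,
        Finset.sum_add_distrib, ← Finset.smul_sum, ← e2, ← e2']
      module
  have main : ∀ a b : Fin m → M, (∀ (k : ℤ) (c : Fin m → ℤ),
      (∃ y, k • y = ∑ i, c i • a i) → ∃ y, k • y = ∑ i, c i • b i) →
      ∃ f : S a →ₗ[ℤ] S b, ∀ (y : S a) (z : M), R a b y z ↔ z = f y := by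
    intro a b h
    have h1 : ∀ y : S a, ∃ z : S b, R a b y z := by
      rintro ⟨y, k, c, hk, e⟩
      obtain ⟨z, hz⟩ := h k c ⟨y, e⟩
      exact ⟨⟨z, k, c, hk, hz⟩, k, c, hk, e, hz⟩
    have h2 : ∀ y z z', R a b y z → R a b y z' → z = z' := by
      intro y z z' r r'
      obtain ⟨k, c, hk, e1, e2⟩ := Radd _ _ _ _ _ _ (-1) r r'
      obtain ⟨u, hu⟩ := h 0 c ⟨0, by rw [← e1]; simp⟩
      rw [← hu, zero_smul, smul_eq_zero] at e2
      have := e2.resolve_left hk
      rwa [neg_one_smul, add_neg_eq_zero] at this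
    choose f hf using h1
    have h0 : R a b 0 0 := ⟨1, 0, one_ne_zero, by simp, by simp⟩
    refine ⟨⟨⟨f, fun y y' => Subtype.ext (h2 _ _ _ (hf _) ?_)⟩, fun r y =>
      Subtype.ext (h2 _ _ _ (hf _) ?_)⟩, fun y z => ⟨fun r => h2 _ _ _ r (hf y), ?_⟩⟩
    · simpa using Radd _ _ _ _ _ _ 1 (hf y) (hf y')
    · simpa using Radd _ _ _ _ _ _ r h0 (hf y)
    · rintro rfl; exact hf y
  obtain ⟨f, hf⟩ := main a b fun k c => (h k c).mp
  obtain ⟨g, hg⟩ := main b a fun k c => (h k c).mpr
  have Rs : ∀ a b y z, R a b y z → R b a z y := fun a b y z ⟨k, c, hk, e1, e2⟩ => ⟨k, c, hk, e2, e1⟩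
  let e : S a ≃ₗ[ℤ] S b := LinearEquiv.ofLinearMap f g
    (LinearMap.ext fun y => Subtype.ext ((hf _ _).mp (Rs _ _ _ _ ((hg y _).mpr rfl))).symm)
    (LinearMap.ext fun y => Subtype.ext ((hg _ _).mp (Rs _ _ _ _ ((hf y _).mpr rfl))).symm)
  have hc : ∀ a, ∃ T : Submodule ℤ M, IsCompl (S a) T := by
    intro a
    have : Module.IsTorsionFree ℤ (M ⧸ S a) := by
      refine Module.IsTorsionFree.of_smul_eq_zero fun r x hx => ?_
      obtain ⟨x, rfl⟩ := Submodule.Quotient.mk_surjective _ x
      rw [← Submodule.Quotient.mk_smul, Submodule.Quotient.mk_eq_zero] at hx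
      by_cases hr : r = 0
      · exact Or.inl hr
      · obtain ⟨k, c, hk, e⟩ := hx
        exact Or.inr ((Submodule.Quotient.mk_eq_zero _).mpr
          ⟨k * r, c, mul_ne_zero hk hr, by rw [mul_smul, e]⟩)
    obtain ⟨s, hs⟩ := Module.projective_lifting_property (S a).mkQ LinearMap.id
      (S a).mkQ_surjective
    have := LinearMap.isCompl_of_proj (f := s.rangeRestrict.comp (S a).mkQ) (p := LinearMap.range s)
      (by
        rintro ⟨_, x, rfl⟩
        apply Subtype.ext
        have := LinearMap.congr_fun hs x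
        simp only [LinearMap.comp_apply, LinearMap.id_apply] at this
        simp [this])
    refine ⟨LinearMap.range s, ?_⟩
    convert this.symm using 1
    ext x
    have hi : Function.Injective s := Function.LeftInverse.injective
      (g := (S a).mkQ) fun x => LinearMap.congr_fun hs x
    simp [map_eq_zero_iff s hi]
  obtain ⟨T, hT⟩ := hc a
  obtain ⟨T', hT'⟩ := hc b
  have hr : Module.finrank ℤ T = Module.finrank ℤ T' := by
    have h1 := (Submodule.prodEquivOfIsCompl _ _ hT).finrank_eq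
    have h2 := (Submodule.prodEquivOfIsCompl _ _ hT').finrank_eq
    rw [Module.finrank_prod] at h1 h2
    have := e.finrank_eq
    omega
  let e' := LinearEquiv.ofFinrankEq T T' hr
  refine ⟨(Submodule.prodEquivOfIsCompl _ _ hT).symm.trans ((e.prodCongr e').trans
    (Submodule.prodEquivOfIsCompl _ _ hT')), fun i => ?_⟩
  classical
  have ha : R a b (a i) (b i) := ⟨1, Pi.single i 1, one_ne_zero, by simp [Pi.single_apply],
    by simp [Pi.single_apply]⟩
  have ha' : a i ∈ S a := ⟨1, Pi.single i 1, one_ne_zero, by simp [Pi.single_apply]⟩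
  have := Submodule.prodEquivOfIsCompl_symm_apply_left _ _ hT ⟨a i, ha'⟩
  simp only [LinearEquiv.trans_apply]
  rw [this]
  simpa [e] using ((hf ⟨a i, ha'⟩ _).mp ha).symm

theorem hom_comm (X : LS) {G : Type} [Group G] (hc : ∀ x y : G, x * y = y * x) (tf : TF G)
    (fg : Group.FG G) {m : ℕ} (a b : Fin m → G)
    (h : ∀ φ : X.L.Formula (Fin m), Rl X φ G a ↔ Rl X φ G b) : ∃ σ : G ≃* G, ∀ i, σ (a i) = b i := by
  have key : ∀ (k : ℤ) (c : Fin m → ℤ), (∃ y : G, y ^ k = (List.ofFn fun i => a i ^ c i).prod) ↔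
      ∃ y : G, y ^ k = (List.ofFn fun i => b i ^ c i).prod := by
    intro k c
    obtain ⟨φ, hφ⟩ := MD.pure (X := X) (α := Fin m) (P := fun K _ v => ∃ y : K,
      FreeGroup.lift (fun _ : Unit => y) (FreeGroup.of () ^ k) =
        FreeGroup.lift v (List.ofFn fun i => FreeGroup.of i ^ c i).prod)
      (MD.ex (MD.eq (MT.lift (fun _ => MT.var _) _) (MT.lift (fun _ => MT.var _) _)))
    have := h φ
    rw [hφ, hφ] at this
    simpa [map_list_prod, List.map_ofFn, Function.comp_def] using this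
  let _ : CommGroup G := { (inferInstance : Group G) with mul_comm := hc }
  have : Module.Finite ℤ (Additive G) := Module.Finite.iff_addGroup_fg.mpr inferInstance
  have : Module.IsTorsionFree ℤ (Additive G) :=
    Module.IsTorsionFree.of_smul_eq_zero fun r x hx => by
      by_cases h1 : x = 0
      · exact Or.inr h1
      · exact Or.inl (tf.zpow (h := x.toMul) h1 hx)
  obtain ⟨σ, hσ⟩ := hom_mod (M := Additive G) (fun i => Additive.ofMul (a i))
    (fun i => Additive.ofMul (b i)) (fun k c => by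
      have := key k c
      rw [List.prod_ofFn, List.prod_ofFn] at this
      exact this)
  exact ⟨AddEquiv.toMultiplicative σ.toAddEquiv, hσ⟩

theorem homog (X : LS) (n d m : ℕ) (a b : Fin m → FS (Fin n) d)
    (h : ∀ φ : X.L.Formula (Fin m), Rl X φ _ a ↔ Rl X φ _ b) :
    ∃ σ : FS (Fin n) d ≃* FS (Fin n) d, ∀ i, σ (a i) = b i := by
  by_cases hc : ∀ x y : FS (Fin n) d, x * y = y * x
  · exact hom_comm X hc (tf_FS _ _) (Group.fg_of_surjective (QuotientGroup.mk'_surjective _)) a b h
  have hn : 2 ≤ n := by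
    by_contra hn
    apply hc
    intro x y
    obtain ⟨v, rfl⟩ := QuotientGroup.mk_surjective x
    obtain ⟨w, rfl⟩ := QuotientGroup.mk_surjective y
    have : Subsingleton (Fin n) := Fin.subsingleton_iff_le_one.mpr (by omega)
    have h1 : ∀ (i : Fin n) (w : FreeGroup (Fin n)), Commute (FreeGroup.of i) w := by
      intro i w
      induction w using FreeGroup.induction_on with
      | C1 => simp
      | of j => rw [Subsingleton.elim i j]
      | inv_of j ih => exact ih.inv_right
      | mul v w hv hw => exact hv.mul_right hw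
    have h2 : Commute v w := by
      induction v using FreeGroup.induction_on with
      | C1 => simp
      | of j => exact h1 j w
      | inv_of j ih => exact ih.inv_left
      | mul v w hv hw => exact hv.mul_left hw
    rw [← QuotientGroup.mk_mul, ← QuotientGroup.mk_mul, h2.eq]
  rcases d with _ | _ | e
  · exact absurd (fun x y => Subsingleton.elim _ _) hc
  · exact absurd (fun x y => piFS_comm _ 0 x y (Subsingleton.elim _ _) (Subsingleton.elim _ _)) hc
  obtain ⟨φ, hφ⟩ := orbit_formula X n hn e m a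
  exact (hφ b).mp ((h φ).mp ((hφ a).mpr ⟨MulEquiv.refl _, fun _ => rfl⟩))

end Pool.Agent.H.MP_c33acd_lc
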