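import Pool.Agent.H.MP_c33acd_lc.F

set_option autoImplicit false

namespace Pool.Agent.H.MP_c33acd_lc

open FirstOrder FirstOrder.Language

section ax
variable {K : Type} [Group K]

def Ax (a r s : K) : Prop :=
  It a r 1 ∧ It a r r ∧ (∀ y z, It a r y → It a r z → It a r (y * z⁻¹)) ∧
  (∀ y, It a r y → ∃ z, It a r z ∧ (y = z * z ∨ y = z * z * r)) ∧
  (∀ x y, InA a (cm (cm x y) s)) ∧
  (∀ x y, InA a (cm x s) → InA a (cm y s) → InA a (cm (x * y) s)) ∧
  (∀ y, It a r y → InA a (cm y s) → y = 1) ∧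
  Num a r 1 ∧ (∀ y, Num a r y → Num a r (y * r) ∧ ¬ y * r = 1) ∧
  (∀ y, It a r y → Num a r y ∨ Num a r y⁻¹) ∧
  (∀ y, Num a r y → y = 1 ∨ Num a r (y * r⁻¹)) ∧
  (∀ y z, Num a r y → Num a r z → Num a r (y * z)) ∧
  (∀ y z, It a r y → It a r z → (Mu a r y 1 z ↔ z = 1)) ∧
  ∀ x y z, It a r x → It a r y → It a r z → (Mu a r x (y * r) (z * x) ↔ Mu a r x y z)

theorem Ax.std (fg : Group.FG K) {a r s : K} (h : Ax a r s) : Std a r := by
  obtain ⟨h1, h2, h3, h4, h5, h6, h7, h8, h9, h10, h11, h12, h13, h14⟩ := h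
  let C : Subgroup K :=
    { carrier := {y | It a r y}
      one_mem' := h1
      inv_mem' := fun {y} hy => by simpa using h3 1 y h1 hy
      mul_mem' := fun {y z} hy hz => by
        simpa using h3 y z⁻¹ hy (by simpa using h3 1 z h1 hz) }
  have hz : ∀ e : ℤ, It a r (r ^ e) := fun e => C.zpow_mem h2 e
  have hB : ∀ y ∈ commutator K, InA a (cm y s) := by
    intro y hy
    rw [commutator_def, Subgroup.commutator_def] at hy
    induction hy using Subgroup.closure_induction_right with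
    | one => simpa [cm] using h5 1 1
    | mul_right g _ z hz ih =>
      obtain ⟨x, -, y, -, rfl⟩ := hz
      exact h6 _ _ ih (h5 x y)
    | mul_inv_cancel g _ z hz ih =>
      obtain ⟨x, -, y, -, rfl⟩ := hz
      rw [commutatorElement_inv]
      exact h6 _ _ ih (h5 y x)
  have hinj : ∀ y ∈ C, ∀ z ∈ C, Abelianization.of y = Abelianization.of z → y = z := by
    intro y hy z hz e
    refine mul_inv_eq_one.mp (h7 _ (h3 y z hy hz) (hB _ ?_))
    rw [← Abelianization.ker_of, MonoidHom.mem_ker, map_mul, map_inv, e, mul_inv_cancel]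
  have hn : ∀ (y : K) (j : ℕ), Num a r y → Num a r (y * r ^ j) := by
    intro y j hy
    induction j with
    | zero => simpa
    | succ j ih => rw [pow_succ, ← mul_assoc]; exact (h9 _ ih).1
  have inj : ∀ e : ℤ, r ^ e = 1 → e = 0 := by
    intro e he
    by_contra h0
    have h15 : r ^ e.natAbs = 1 := by
      rcases Int.natAbs_eq e with h | h <;> rw [h] at he <;> simpa using he
    obtain ⟨j, hj⟩ : ∃ j, e.natAbs = j + 1 := ⟨e.natAbs - 1, by omega⟩
    exact (h9 _ (hn 1 j h8)).2 (by rw [one_mul, ← pow_succ, ← hj, h15])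
  obtain ⟨m, hm, hm'⟩ : ∃ m : ℕ, m ≠ 0 ∧ ∀ y ∈ C, ∃ e : ℤ, y ^ m = r ^ e := by
    have : Group.FG (Abelianization K) :=
      Group.fg_of_surjective (f := Abelianization.of) (fun x => QuotientGroup.mk_surjective x)
    have : Module.Finite ℤ (Additive (Abelianization K)) :=
      Module.Finite.iff_addGroup_fg.mpr inferInstance
    let ρ : Submodule ℤ (Additive (Abelianization K)) :=
      Submodule.span ℤ {Additive.ofMul (Abelianization.of r)}
    let N : Submodule ℤ (Additive (Abelianization K)) :=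
      (C.map Abelianization.of).toAddSubgroup.toIntSubmodule
    obtain ⟨m, h15, h16⟩ := Submodule.exists_sub_one_mem_and_smul_eq_zero_of_fg_of_le_smul
      (Ideal.span {(2 : ℤ)}) (N.map ρ.mkQ) (IsNoetherian.noetherian _) (by
        rintro _ ⟨_, ⟨y, hy, rfl⟩, rfl⟩
        obtain ⟨z, h17, h18⟩ := h4 y hy
        have h19 : ρ.mkQ (Additive.ofMul (Abelianization.of r)) = 0 :=
          (Submodule.Quotient.mk_eq_zero _).mpr (Submodule.mem_span_singleton_self _)
        have : ρ.mkQ (Additive.ofMul (Abelianization.of y)) =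
            (2 : ℤ) • ρ.mkQ (Additive.ofMul (Abelianization.of z)) := by
          rcases h18 with rfl | rfl
          · rw [map_mul, ofMul_mul, map_add, two_smul]
          · rw [map_mul, ofMul_mul, map_add, h19, add_zero, map_mul, ofMul_mul, map_add, two_smul]
        exact this ▸ Submodule.smul_mem_smul (Ideal.mem_span_singleton_self _)
          ⟨_, ⟨z, h17, rfl⟩, rfl⟩)
    rw [Ideal.mem_span_singleton] at h15
    refine ⟨m.natAbs, by omega, fun y hy => ?_⟩
    have := h16 _ ⟨Additive.ofMul (Abelianization.of y), ⟨y, hy, rfl⟩, rfl⟩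
    rw [← map_smul, Submodule.mkQ_apply, Submodule.Quotient.mk_eq_zero,
      Submodule.mem_span_singleton] at this
    obtain ⟨e, he⟩ := this
    have h17 : y ^ m = r ^ e := hinj _ (C.zpow_mem hy _) _ (hz e) (by
      rw [map_zpow, map_zpow]; exact (congrArg Additive.toMul he).symm)
    rcases Int.natAbs_eq m with h | h
    · exact ⟨e, by rw [← h17, ← zpow_natCast, ← h]⟩
    · exact ⟨-e, by rw [zpow_neg, ← h17, ← zpow_natCast, ← zpow_neg, ← neg_eq_iff_eq_neg.mpr h]⟩
  have key : ∀ y ∈ C, Num a r y → ∃ e : ℤ, y = r ^ e := by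
    intro y hy hy'
    by_contra hc
    push Not at hc
    have h15 : ∀ j : ℕ, Num a r (y * r⁻¹ ^ j) := by
      intro j
      induction j with
      | zero => simpa
      | succ j ih =>
        rw [pow_succ, ← mul_assoc]
        refine (h11 _ ih).resolve_left fun e => hc j ?_
        simpa [mul_inv_eq_one] using e
    have h16 : ∀ x (i : ℕ), Num a r x → Num a r (x ^ i) := by
      intro x i hx
      induction i with
      | zero => simpa
      | succ i ih => rw [pow_succ]; exact h12 _ _ ih hx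
    obtain ⟨e, he⟩ := hm' y hy
    have hc' : Commute y r := hy.2
    have h17 := h16 _ m (h15 (e.natAbs + 1))
    obtain ⟨f, hf⟩ : ∃ f : ℕ, e - (e.natAbs + 1 : ℕ) * m + f + 1 = 0 := by
      have : ((e.natAbs + 1 : ℕ) : ℤ) * 1 ≤ (e.natAbs + 1 : ℕ) * m :=
        mul_le_mul_of_nonneg_left (by omega) (by omega)
      exact ⟨((e.natAbs + 1 : ℕ) * m - e - 1).toNat, by omega⟩
    apply (h9 _ (hn _ f h17)).2
    rw [(hc'.inv_right.pow_right _).mul_pow, he, ← pow_mul, inv_pow, ← zpow_natCast,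
      ← zpow_natCast, ← zpow_sub, ← zpow_add, ← zpow_add_one, Nat.cast_mul, hf, zpow_zero]
  refine ⟨fun y => ⟨fun hy => ?_, ?_⟩, inj, fun e1 e2 => ?_⟩
  · rcases h10 y hy with h | h
    · exact key y hy h
    · obtain ⟨e, he⟩ := key _ (C.inv_mem hy) h
      exact ⟨-e, by rw [zpow_neg, ← he, inv_inv]⟩
  · rintro ⟨e, rfl⟩; exact hz e
  · have step : ∀ e2 e3 : ℤ, Mu a r (r ^ e1) (r ^ (e2 + 1)) (r ^ (e3 + e1)) ↔
        Mu a r (r ^ e1) (r ^ e2) (r ^ e3) := fun e2 e3 => by
      rw [zpow_add_one, zpow_add]; exact h14 _ _ _ (hz _) (hz _) (hz _)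
    induction e2 using Int.induction_on with
    | zero =>
      intro e3
      rw [zpow_zero, h13 _ _ (hz _) (hz _), mul_zero]
      exact ⟨inj _, fun h => by rw [h, zpow_zero]⟩
    | succ j ih =>
      intro e3
      have := step j (e3 - e1)
      rw [sub_add_cancel, ih] at this
      rw [this]; constructor <;> intro h <;> linarith
    | pred j ih =>
      intro e3
      have := step (-j - 1) e3
      rw [sub_add_cancel, ih] at this
      rw [← this]; constructor <;> intro h <;> linarith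

theorem Std.ax {a r s : K} (h : Std a r) {A : Type} [Group A] (f : K →* A)
    (hc : ∀ x y : A, x * y = y * x) (tf : TF A) (hr : f r ≠ 1)
    (hf : ∀ y, InA a (cm y s) ↔ f y = 1) : Ax a r s := by
  simp only [Ax, h.it, h.num, hf]
  refine ⟨⟨0, by simp⟩, ⟨1, by simp⟩, ?_, ?_, fun x y => ?_, fun x y hx hy => by simp [hx, hy], ?_,
    ⟨0, by simp⟩, ?_, ?_, ?_, ?_, ?_, ?_⟩
  · rintro _ _ ⟨e, rfl⟩ ⟨e', rfl⟩; exact ⟨e - e', by rw [zpow_sub]⟩
  · rintro _ ⟨e, rfl⟩
    refine ⟨r ^ (e / 2), ⟨_, rfl⟩, ?_⟩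
    rw [← zpow_add, ← zpow_add_one]
    rcases Int.emod_two_eq_zero_or_one e with h | h
    · left; congr 1; omega
    · right; congr 1; omega
  · simp only [cm, map_mul, map_inv]; rw [hc (f x)]; simp
  · rintro _ ⟨e, rfl⟩ he
    rw [map_zpow] at he
    rw [tf.zpow hr he, zpow_zero]
  · rintro _ ⟨n, rfl⟩
    refine ⟨⟨n + 1, (pow_succ _ _).symm⟩, fun e => ?_⟩
    rw [← pow_succ, ← pow_zero r, h.pow_inj] at e
    omega
  · rintro _ ⟨e, rfl⟩
    rcases Int.natAbs_eq e with h | h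
    · exact Or.inl ⟨e.natAbs, by rw [← zpow_natCast, ← h]⟩
    · exact Or.inr ⟨e.natAbs, by rw [← zpow_natCast, ← zpow_neg, ← neg_eq_iff_eq_neg.mpr h]⟩
  · rintro _ ⟨_ | n, rfl⟩
    · simp
    · exact Or.inr ⟨n, by rw [pow_succ, mul_inv_cancel_right]⟩
  · rintro _ _ ⟨n, rfl⟩ ⟨m, rfl⟩; exact ⟨n + m, (pow_add _ _ _).symm⟩
  · rintro _ _ ⟨e, rfl⟩ ⟨e', rfl⟩
    have := h.mu e 0 e'
    rw [zpow_zero, mul_zero] at this
    exact this.trans ⟨fun h => by rw [h, zpow_zero], h.inj _⟩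
  · rintro _ _ _ ⟨e, rfl⟩ ⟨e', rfl⟩ ⟨e'', rfl⟩
    rw [← zpow_add_one, ← zpow_add, h.mu, h.mu]
    constructor <;> intro h <;> linarith

def Rest (n d : ℕ) (a r s t : K) (z : Fin n → K) : Prop :=
  (∀ g, ∃ m : ℕ, Ev a r s t (2 * n + 2) (fun i => lt n z i) m g) ∧
  (∀ (m : ℕ) g g', Ev a r s t (2 * n + 2) (fun i => lt n z i) m g →
    Ev a r s t (2 * n + 2) (fun i => lt n z i) m g' → g = g') ∧
  Ev a r s t (2 * n + 2) (fun i => lt n z i) 0 1 ∧
  (∀ (i : Fin (2 * n + 2)) (m : ℕ) g, Ev a r s t (2 * n + 2) (fun i => lt n z i) m g →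
    Ev a r s t (2 * n + 2) (fun i => lt n z i) (i + (2 * n + 2) * m) (lt n z i * g)) ∧
  ∀ m : ℕ, Ev a r s t (2 * n + 2) (fun i => lt n z i) m 1 ↔
    dec n m ∈ derivedSeries (FreeGroup (Fin n)) d

lemma lift_lt {n : ℕ} (z : Fin n → K) (i : ℕ) :
    FreeGroup.lift z (lt n FreeGroup.of i) = lt n z i := by
  unfold lt; split_ifs <;> simp

theorem Rest.iso {n d : ℕ} {a r s t : K} {z : Fin n → K} (h : Rest n d a r s t z) :
    Nonempty (K ≃* FS (Fin n) d) := by
  obtain ⟨h1, h2, h3, h4, h5⟩ := h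
  have h6 : ∀ m, Ev a r s t (2 * n + 2) (fun i => lt n z i) m (FreeGroup.lift z (dec n m)) := by
    intro m
    induction m using digit_ind n with
    | h0 => simpa [dec_zero] using h3
    | h i m ih => rw [dec_cons, map_mul, lift_lt]; exact h4 i m _ ih
  have h7 : Function.Surjective (FreeGroup.lift z) := fun g => by
    obtain ⟨m, hm⟩ := h1 g
    exact ⟨_, h2 m _ _ (h6 m) hm⟩
  have h8 : (FreeGroup.lift z).ker = derivedSeries (FreeGroup (Fin n)) d := by
    ext w
    obtain ⟨m, rfl⟩ := dec_surj w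
    rw [← h5, MonoidHom.mem_ker]
    exact ⟨fun e => e ▸ h6 m, h2 m _ _ (h6 m)⟩
  exact ⟨(QuotientGroup.quotientKerEquivOfSurjective _ h7).symm.trans
    (QuotientGroup.quotientMulEquivOfEq h8)⟩

end ax

lemma lift_x {n d : ℕ} (w : FreeGroup (Fin n)) :
    FreeGroup.lift (fun i => (QuotientGroup.mk (FreeGroup.of i) : FS (Fin n) d)) w =
      QuotientGroup.mk w := lift_mk (MulEquiv.refl _) (fun _ => rfl) w

lemma Mag.Par.evx {n e : ℕ} {N Λ : Subgroup (FS (Fin n) (e + 1))} {a r s t : FS (Fin n) (e + 2)}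
    (P : (magFS (Fin n) (e + 1)).Par N Λ a r s t) (m : ℕ) (g : FS (Fin n) (e + 2)) :
    Ev a r s t (2 * n + 2) (fun i => lt n (fun j => QuotientGroup.mk (FreeGroup.of j)) i) m g ↔
      g = QuotientGroup.mk (dec n m) :=
  (P.ev_iff (by omega) (lt_zero _ _) m g).trans (by rw [ev_lt, lift_x])

theorem qfa (X : LS) (n : ℕ) (hn : 2 ≤ n) : ∃ φ : X.L.Sentence,
    Rl X φ (FS (Fin n) 3) default ∧ ∀ (K : Type) [Group K], Group.FG K → Rl X φ K default →
      Nonempty (K ≃* FS (Fin n) 3) := by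
  obtain ⟨φ, hφ⟩ : MD X CT (Option (Option (Fin n))) Empty fun _ _ a r v _ => Ax a r (v none) :=
    (D_It MT.one).and ((D_It MT.r).and ((MD.all (MD.all ((D_It (MT.var _)).imp
      ((D_It (MT.var _)).imp (D_It ((MT.var _).mul (MT.var _).inv)))))).and
    ((MD.all ((D_It (MT.var _)).imp (MD.ex ((D_It (MT.var _)).and
      ((MD.eq (MT.var _) ((MT.var _).mul (MT.var _))).or
        (MD.eq (MT.var _) (((MT.var _).mul (MT.var _)).mul MT.r))))))).and
    ((MD.all (MD.all (D_InA (((MT.var _).cm (MT.var _)).cm (MT.var _))))).and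
    ((MD.all (MD.all ((D_InA ((MT.var _).cm (MT.var _))).imp ((D_InA ((MT.var _).cm
      (MT.var _))).imp (D_InA (((MT.var _).mul (MT.var _)).cm (MT.var _))))))).and
    ((MD.all ((D_It (MT.var _)).imp ((D_InA ((MT.var _).cm (MT.var _))).imp
      (MD.eq (MT.var _) MT.one)))).and
    ((D_Num MT.one).and ((MD.all ((D_Num (MT.var _)).imp ((D_Num ((MT.var _).mul MT.r)).and
      (MD.eq ((MT.var _).mul MT.r) MT.one).not))).and
    ((MD.all ((D_It (MT.var _)).imp ((D_Num (MT.var _)).or (D_Num (MT.var _).inv)))).and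
    ((MD.all ((D_Num (MT.var _)).imp ((MD.eq (MT.var _) MT.one).or
      (D_Num ((MT.var _).mul MT.r.inv))))).and
    ((MD.all (MD.all ((D_Num (MT.var _)).imp ((D_Num (MT.var _)).imp
      (D_Num ((MT.var _).mul (MT.var _))))))).and
    ((MD.all (MD.all ((D_It (MT.var _)).imp ((D_It (MT.var _)).imp
      ((D_Mu (MT.var _) MT.one (MT.var _)).iff (MD.eq (MT.var _) MT.one)))))).and
    (MD.all (MD.all (MD.all ((D_It (MT.var _)).imp ((D_It (MT.var _)).imp ((D_It (MT.var _)).imp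
      ((D_Mu (MT.var _) ((MT.var _).mul MT.r) ((MT.var _).mul (MT.var _))).iff
        (D_Mu (MT.var _) (MT.var _) (MT.var _)))))))))))))))))))))
  obtain ⟨ψ, hψ⟩ : MD X CS (Option (Option (Fin n))) Empty fun _ _ a r v _ =>
      Rest n 3 a r (v none) (v (some none)) fun j => v (some (some j)) :=
    (MD.all (MD.exN (D_Ev _ (MT.var _) (MT.var _) (MT.lt fun _ => MT.var _) (NT.var none)
      (MT.var _)))).and
    ((MD.allN (MD.all (MD.all ((D_Ev _ (MT.var _) (MT.var _) (MT.lt fun _ => MT.var _)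
      (NT.var none) (MT.var _)).imp ((D_Ev _ (MT.var _) (MT.var _) (MT.lt fun _ => MT.var _)
      (NT.var none) (MT.var _)).imp (MD.eq (MT.var _) (MT.var _))))))).and
    ((D_Ev _ (MT.var _) (MT.var _) (MT.lt fun _ => MT.var _) (NT.const 0) MT.one).and
    ((MD.allF fun i => MD.allN (MD.all ((D_Ev _ (MT.var _) (MT.var _) (MT.lt fun _ => MT.var _)
      (NT.var none) (MT.var _)).imp (D_Ev _ (MT.var _) (MT.var _) (MT.lt fun _ => MT.var _)
      ((NT.const _).add ((NT.const _).mul (NT.var none)))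
      ((MT.lt (fun _ => MT.var _) _).mul (MT.var _)))))).and
    (MD.allN ((D_Ev _ (MT.var _) (MT.var _) (MT.lt fun _ => MT.var _) (NT.var none) MT.one).iff
      (MD.ar (Ar.ds 3 (FT.dec (NT.var none)))))))))
  refine ⟨(ren (φ ⊓ ψ) Sum.inr).iExs _, ?_, fun K _ fg h => ?_⟩
  · obtain ⟨N, a, s, t, k, hk, P⟩ := exists_par n hn 1
    refine (Rl_iExs _ _ _ _).mpr ⟨val a _ (fun o => o.elim s fun o => o.elim t fun j =>
      QuotientGroup.mk (FreeGroup.of j)) Empty.elim, (Rl_ren _ _ _ _).mpr ((Rl_and _ _ _ _).mpr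
      ⟨(hφ _ _ _ trivial _ _).mpr ?_, (hψ _ _ _ P.std _ _).mpr ?_⟩)⟩
    · have tf := tf_FS (Fin n) 1
      refine P.std.ax ((piFS _ 1).comp (piFS _ 2)) (fun x y => piFS_comm _ 0 x y
        (Subsingleton.elim _ _) (Subsingleton.elim _ _)) tf (fun h => ?_) fun y => ?_
      · rw [map_pow] at h
        have := Abelianization.commutator_subset_ker
          (FreeGroup.lift (fun _ => Multiplicative.ofAdd (1 : ℤ)))
          ((QuotientGroup.eq_one_iff _).mp (tf _ _ hk h))
        simp at this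
      · let S := magFS (Fin n) 1
        have s1 : S.π (piFS _ 2 s) = 1 := P.sΛ
        have s0 : piFS _ 2 s ≠ 1 := fun e => one_ne_zero (P.ind 1 1 0 (by
          simpa using (show (magFS (Fin n) 2).π s = 1 from e)))
        refine (P.inA _).trans ?_
        change piFS _ 2 (cm y s) = 1 ↔ S.π (piFS _ 2 y) = 1
        simp only [cm, map_mul, map_inv, mul_inv_eq_one]
        refine ⟨fun h => ?_, fun h => by rw [S.commA h s1]; simp⟩
        by_contra hy
        exact s0 (S.inj s1 (fpf tf hy (by rw [← S.D_conjA s1, h])))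
    · simp only [Rest]
      refine ⟨fun g => ?_, fun m g g' h h' => ((P.evx _ _).mp h).trans ((P.evx _ _).mp h').symm,
        (P.evx _ _).mpr (by rw [dec_zero]; rfl), fun i m g h => (P.evx _ _).mpr ?_,
        fun m => (P.evx _ _).trans (eq_comm.trans (QuotientGroup.eq_one_iff _))⟩
      · obtain ⟨w, rfl⟩ := QuotientGroup.mk_surjective g
        obtain ⟨m, rfl⟩ := dec_surj w
        exact ⟨m, (P.evx _ _).mpr rfl⟩
      · rw [(P.evx _ _).mp h, dec_cons, QuotientGroup.mk_mul, ← lift_x (lt _ _ _), lift_lt]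
        rfl
  · obtain ⟨w, hw⟩ := (Rl_iExs _ _ _ _).mp h
    have e : (fun i => Sum.elim (default : Empty → K) w (Sum.inr i)) = val (w (Sum.inl true))
        (w (Sum.inl false)) (fun o => w (Sum.inr (Sum.inl o))) Empty.elim := by
      ext i
      rcases i with (_ | _) | i | i
      · rfl
      · rfl
      · rfl
      · exact i.elim
    rw [Rl_ren, e, Rl_and] at hw
    have h1 := Ax.std fg ((hφ _ _ _ trivial _ _).mp hw.1)
    exact Rest.iso ((hψ _ _ _ h1 _ _).mp hw.2)

end Pool.Agent.H.MP_c33acd_lc
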